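import Pool.Agent.N508.GH.Grp

/-!
# The cell structures of the example
-/

set_option autoImplicit false
set_option linter.unusedSectionVars false

namespace Pool.Agent.N508.GH

open Set Topology OnePoint Filter

/-- a finite based CW structure without group action -/
def NCW (Q : Type) [TopologicalSpace Q] : Prop :=
  ∃ (ι : Type) (_ : Finite ι) (d : ι → ℕ) (Ψ : ∀ i, (Fin (d i) → ℝ) → OnePoint Q),
    (∀ i, ContinuousOn (Ψ i) {v | ‖v‖ ≤ 1}) ∧
    (∀ x : Q, ∃! z : (Σ i, (Fin (d i) → ℝ)), ‖z.2‖ < 1 ∧ Ψ z.1 z.2 = x) ∧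
    (∀ i v, ‖v‖ < 1 → Ψ i v ≠ ∞) ∧
    ∀ i v, ‖v‖ = 1 → Ψ i v = ∞ ∨ ∃ j w, d j < d i ∧ ‖w‖ < 1 ∧ Ψ j w = Ψ i v

theorem norm_lt_iff {m n : ℕ} (v : Fin (m + n) → ℝ) : ‖v‖ < 1 ↔
    ‖fun i => v (Fin.castAdd n i)‖ < 1 ∧ ‖fun i => v (Fin.natAdd m i)‖ < 1 := by
  rw [pi_norm_lt_iff one_pos, pi_norm_lt_iff one_pos, pi_norm_lt_iff one_pos]
  constructor
  · intro h
    exact ⟨fun i => h _, fun i => h _⟩
  · rintro ⟨h1, h2⟩ i
    exact Fin.addCases h1 h2 i

theorem norm_le_iff {m n : ℕ} (v : Fin (m + n) → ℝ) : ‖v‖ ≤ 1 ↔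
    ‖fun i => v (Fin.castAdd n i)‖ ≤ 1 ∧ ‖fun i => v (Fin.natAdd m i)‖ ≤ 1 := by
  rw [pi_norm_le_iff_of_nonneg zero_le_one, pi_norm_le_iff_of_nonneg zero_le_one,
    pi_norm_le_iff_of_nonneg zero_le_one]
  constructor
  · intro h
    exact ⟨fun i => h _, fun i => h _⟩
  · rintro ⟨h1, h2⟩ i
    exact Fin.addCases h1 h2 i

/-- the canonical map to a smash product with a space with trivial action -/
def smT (P : GSpace C2) (Q : Type) [TopologicalSpace Q] [T2Space Q] [LocallyCompactSpace Q]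
    (x : OnePoint P.carrier) (y : OnePoint Q) : OnePoint (P.prod (triv Q)).carrier := sm x y

section

variable (P : GSpace C2) (Q : Type) [TopologicalSpace Q] [T2Space Q] [LocallyCompactSpace Q]

theorem smT_eq_infty {x : OnePoint P.carrier} {y : OnePoint Q} :
    smT P Q x y = ∞ ↔ x = ∞ ∨ y = ∞ := sm_eq_infty

theorem smT_eq_coe {x : OnePoint P.carrier} {y : OnePoint Q} {a : P.carrier} {b : Q} :
    smT P Q x y = OnePoint.some (a, b) ↔ x = a ∧ y = b := by
  unfold smT
  induction x using OnePoint.rec with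
  | infty =>
    constructor
    · intro h
      exact absurd h.symm (OnePoint.coe_ne_infty _)
    · intro h
      exact absurd h.1.symm (OnePoint.coe_ne_infty _)
  | coe x =>
    induction y using OnePoint.rec with
    | infty =>
      constructor
      · intro h
        exact absurd h.symm (OnePoint.coe_ne_infty _)
      · intro h
        exact absurd h.2.symm (OnePoint.coe_ne_infty _)
    | coe y =>
      constructor
      · intro h
        have h1 := OnePoint.coe_injective h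
        exact ⟨congrArg _ (congrArg Prod.fst h1), congrArg _ (congrArg Prod.snd h1)⟩
      · rintro ⟨h1, h2⟩
        rw [OnePoint.coe_injective h1, OnePoint.coe_injective h2]
        rfl

theorem smulPlus_smT (g : C2.carrier) (x : OnePoint P.carrier) (y : OnePoint Q) :
    (P.prod (triv Q)).smulPlus g (smT P Q x y) = smT P Q (P.smulPlus g x) y := by
  have := smulPlus_prod P (triv Q) g x y
  rw [smulPlus_triv] at this
  exact this

theorem continuous_smT :
    Continuous fun z : OnePoint P.carrier × OnePoint Q => smT P Q z.1 z.2 := continuous_sm'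

end

theorem isFiniteCW_prod (P : GSpace C2) (Q : Type) [TopologicalSpace Q] [T2Space Q]
    [LocallyCompactSpace Q] (hP : P.IsFiniteCW) (hQ : NCW Q) : (P.prod (triv Q)).IsFiniteCW := by
  obtain ⟨ι, hι, d, H, Φ, c1, c2, c3, c4, c5⟩ := hP
  obtain ⟨κ, hκ, e, Ψ, b1, b3, b4, b5⟩ := hQ
  refine ⟨ι × κ, inferInstance, fun i => d i.1 + e i.2, fun i => H i.1,
    fun i a v => smT P Q (Φ i.1 a fun m => v (Fin.castAdd _ m))
      (Ψ i.2 fun m => v (Fin.natAdd _ m)),
    ?_, ?_, ?_, ?_, ?_⟩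
  · rintro ⟨i, j⟩
    simp only
    have h1 : ContinuousOn (fun z : (orbit (H i)).carrier × (Fin (d i + e j) → ℝ) =>
        Φ i z.1 fun m => z.2 (Fin.castAdd _ m)) {z | ‖z.2‖ ≤ 1} := by
      refine (c1 i).comp (f := fun z : (orbit (H i)).carrier × (Fin (d i + e j) → ℝ) =>
        (z.1, fun m => z.2 (Fin.castAdd _ m))) ?_ ?_
      · apply Continuous.continuousOn
        fun_prop
      · intro z hz
        exact ((norm_le_iff _).mp hz).1
    have h2 : ContinuousOn (fun z : (orbit (H i)).carrier × (Fin (d i + e j) → ℝ) =>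
        Ψ j fun m => z.2 (Fin.natAdd _ m)) {z | ‖z.2‖ ≤ 1} := by
      refine (b1 j).comp (f := fun z : (orbit (H i)).carrier × (Fin (d i + e j) → ℝ) =>
        (fun m => z.2 (Fin.natAdd _ m))) ?_ ?_
      · apply Continuous.continuousOn
        fun_prop
      · intro z hz
        exact ((norm_le_iff _).mp hz).2
    exact (continuous_smT P Q).comp_continuousOn (h1.prodMk h2)
  · rintro ⟨i, j⟩ g a v hv
    simp only
    have h1 := (norm_le_iff _).mp hv
    rw [c2 i g a _ h1.1, smulPlus_smT]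
  · rintro ⟨x, y⟩
    obtain ⟨⟨i, a, v⟩, ⟨h1, h2⟩, h3⟩ := c3 x
    obtain ⟨⟨j, w⟩, ⟨h4, h5⟩, h6⟩ := b3 y
    simp only at h1 h2 h3 h4 h5 h6
    refine ⟨⟨(i, j), (a, Fin.append v w)⟩, ⟨?_, ?_⟩, ?_⟩
    · show ‖Fin.append v w‖ < 1
      rw [norm_lt_iff]
      simp only [Fin.append_left, Fin.append_right]
      exact ⟨h1, h4⟩
    · show smT P Q (Φ i a fun m => Fin.append v w (Fin.castAdd _ m))
        (Ψ j fun m => Fin.append v w (Fin.natAdd _ m)) = OnePoint.some (x, y)
      simp only [Fin.append_left, Fin.append_right]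
      exact (smT_eq_coe P Q).mpr ⟨h2, h5⟩
    · rintro ⟨⟨i', j'⟩, a', v'⟩ ⟨g1, g2⟩
      simp only at g1 g2
      have g3 := (norm_lt_iff _).mp g1
      have g4 : Φ i' a' (fun m => v' (Fin.castAdd _ m)) = x ∧
          Ψ j' (fun m => v' (Fin.natAdd _ m)) = OnePoint.some y :=
        (smT_eq_coe P Q).mp g2
      have g6 := h3 ⟨i', (a', fun m => v' (Fin.castAdd _ m))⟩ ⟨g3.1, g4.1⟩
      have g7 := h6 ⟨j', fun m => v' (Fin.natAdd _ m)⟩ ⟨g3.2, g4.2⟩
      cases g6
      cases g7
      have : v' = Fin.append (fun m => v' (Fin.castAdd _ m)) (fun m => v' (Fin.natAdd _ m)) := by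
        funext m
        refine Fin.addCases (fun m => ?_) (fun m => ?_) m
        · rw [Fin.append_left]
        · rw [Fin.append_right]
      rw [← this]
  · rintro ⟨i, j⟩ a v hv
    have h1 := (norm_lt_iff _).mp hv
    rw [Ne, smT_eq_infty, not_or]
    exact ⟨c4 i a _ h1.1, b4 j _ h1.2⟩
  · rintro ⟨i, j⟩ a v hv
    simp only
    have h1 := (norm_le_iff _).mp hv.le
    have h2 : ¬ (‖fun m => v (Fin.castAdd (e j) m)‖ < 1 ∧ ‖fun m => v (Fin.natAdd (d i) m)‖ < 1) :=
      fun h => absurd ((norm_lt_iff _).mpr h) (by rw [hv]; exact lt_irrefl _)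
    have hP : Φ i a (fun m => v (Fin.castAdd _ m)) = ∞ ∨ ∃ i' a' v', ‖v'‖ < 1 ∧
        Φ i' a' v' = Φ i a (fun m => v (Fin.castAdd _ m)) ∧ d i' ≤ d i ∧
        (d i' < d i ∨ ‖fun m => v (Fin.castAdd (e j) m)‖ < 1) := by
      rcases h1.1.lt_or_eq with h | h
      · exact Or.inr ⟨i, a, _, h, rfl, le_rfl, Or.inr h⟩
      · rcases c5 i a _ h with h3 | ⟨i', a', v', h4, h5, h6⟩
        · exact Or.inl h3
        · exact Or.inr ⟨i', a', v', h5, h6, h4.le, Or.inl h4⟩
    have hQ : Ψ j (fun m => v (Fin.natAdd _ m)) = ∞ ∨ ∃ j' w', ‖w'‖ < 1 ∧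
        Ψ j' w' = Ψ j (fun m => v (Fin.natAdd _ m)) ∧ e j' ≤ e j ∧
        (e j' < e j ∨ ‖fun m => v (Fin.natAdd (d i) m)‖ < 1) := by
      rcases h1.2.lt_or_eq with h | h
      · exact Or.inr ⟨j, _, h, rfl, le_rfl, Or.inr h⟩
      · rcases b5 j _ h with h3 | ⟨j', w', h4, h5, h6⟩
        · exact Or.inl h3
        · exact Or.inr ⟨j', w', h5, h6, h4.le, Or.inl h4⟩
    rcases hP with hP | ⟨i', a', v', p1, p2, p3, p4⟩
    · left
      rw [smT_eq_infty]
      exact Or.inl hP
    · rcases hQ with hQ | ⟨j', w', q1, q2, q3, q4⟩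
      · left
        rw [smT_eq_infty]
        exact Or.inr hQ
      · right
        refine ⟨(i', j'), a', Fin.append v' w', ?_, ?_, ?_⟩
        · show d i' + e j' < d i + e j
          rcases p4 with p4 | p4
          · omega
          · rcases q4 with q4 | q4
            · omega
            · exact absurd ⟨p4, q4⟩ h2
        · rw [norm_lt_iff]
          simp only [Fin.append_left, Fin.append_right]
          exact ⟨p1, q1⟩
        · simp only [Fin.append_left, Fin.append_right]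
          rw [← p2, ← q2]

theorem p_injOn {x y : ℝ} (hx : |x| < 1 / 2) (hy : |y| < 1 / 2) (h : p x = p y) : x = y := by
  rw [p_of_lt hx, p_of_lt hy] at h
  have h1 := OnePoint.coe_injective h
  rw [← sc_tan hx, h1, sc_tan hy]

theorem p_zero : p 0 = ((0 : ℝ) : OnePoint ℝ) := by
  rw [p_of_lt (by simp), mul_zero, Real.tan_zero]

theorem abs_half_lt {x : ℝ} (hx : |x| < 1) : |x / 2| < 1 / 2 := by
  rw [abs_div, abs_of_pos (by norm_num : (0 : ℝ) < 2)]
  linarith

theorem norm_fin_two (v : Fin 2 → ℝ) : ‖v‖ < 1 ↔ |v 0| < 1 ∧ |v 1| < 1 := by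
  rw [pi_norm_lt_iff one_pos]
  simp [Fin.forall_fin_two]

theorem norm_le_fin_two (v : Fin 2 → ℝ) : ‖v‖ ≤ 1 ↔ |v 0| ≤ 1 ∧ |v 1| ≤ 1 := by
  rw [pi_norm_le_iff_of_nonneg zero_le_one]
  simp [Fin.forall_fin_two]

theorem norm_fin_one (v : Fin 1 → ℝ) : ‖v‖ = |v 0| := by
  apply le_antisymm
  · rw [pi_norm_le_iff_of_nonneg (abs_nonneg _)]
    intro i
    rw [Subsingleton.elim i 0]
    rfl
  · exact norm_le_pi_norm v 0

theorem norm_eq_fin_two (v : Fin 2 → ℝ) (h : ‖v‖ = 1) : |v 0| = 1 ∨ |v 1| = 1 := by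
  have h1 := (norm_le_fin_two v).mp h.le
  by_contra h2
  push Not at h2
  exact absurd ((norm_fin_two v).mpr ⟨lt_of_le_of_ne h1.1 h2.1, lt_of_le_of_ne h1.2 h2.2⟩)
    (by rw [h]; exact lt_irrefl _)

theorem abs_two_sc (a : ℝ) : |2 * sc a| < 1 := by
  rw [abs_mul, abs_of_pos (by norm_num : (0 : ℝ) < 2)]
  linarith [abs_sc_lt a]

theorem p_half_eq {x a : ℝ} (hx : |x| < 1) (h : p (x / 2) = a) : x = 2 * sc a := by
  have h1 : p (x / 2) = p (sc a) := by rw [h, p_sc]
  have h2 := p_injOn (abs_half_lt hx) (abs_sc_lt a) h1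
  linarith

theorem NCW_plane : NCW (ℝ × ℝ) := by
  refine ⟨Unit, inferInstance, fun _ => 2, fun _ v => sm (p (v 0 / 2)) (p (v 1 / 2)),
    ?_, ?_, ?_, ?_⟩
  · intro _
    exact (continuous_sm (continuous_p.comp (by fun_prop))
      (continuous_p.comp (by fun_prop))).continuousOn
  · rintro ⟨a, b⟩
    refine ⟨⟨(), ![2 * sc a, 2 * sc b]⟩, ⟨?_, ?_⟩, ?_⟩
    · rw [norm_fin_two]
      exact ⟨abs_two_sc a, abs_two_sc b⟩
    · show sm (p (2 * sc a / 2)) (p (2 * sc b / 2)) = _
      rw [mul_div_cancel_left₀ _ (by norm_num), mul_div_cancel_left₀ _ (by norm_num), p_sc, p_sc]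
      rfl
    · rintro ⟨_, v⟩ ⟨h1, h2⟩
      simp only at h1 h2
      rw [norm_fin_two] at h1
      rw [p_of_lt (abs_half_lt h1.1), p_of_lt (abs_half_lt h1.2)] at h2
      have h3 := OnePoint.coe_injective h2
      have h4 : p (v 0 / 2) = (a : OnePoint ℝ) := by
        rw [p_of_lt (abs_half_lt h1.1)]
        exact congrArg _ (congrArg Prod.fst h3)
      have h5 : p (v 1 / 2) = (b : OnePoint ℝ) := by
        rw [p_of_lt (abs_half_lt h1.2)]
        exact congrArg _ (congrArg Prod.snd h3)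
      have h6 : v = ![2 * sc a, 2 * sc b] := by
        funext i
        fin_cases i
        · exact p_half_eq h1.1 h4
        · exact p_half_eq h1.2 h5
      rw [h6]
  · intro _ v hv
    rw [norm_fin_two] at hv
    show sm (p (v 0 / 2)) (p (v 1 / 2)) ≠ ∞
    rw [p_of_lt (abs_half_lt hv.1), p_of_lt (abs_half_lt hv.2)]
    exact OnePoint.coe_ne_infty _
  · intro _ v hv
    left
    show sm (p (v 0 / 2)) (p (v 1 / 2)) = ∞
    rcases norm_eq_fin_two v hv with h | h
    · rw [p_of_le (x := v 0 / 2)]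
      · rfl
      · rw [abs_div, h]
        norm_num
    · rw [p_of_le (x := v 1 / 2), sm_infty_right]
      rw [abs_div, h]
      norm_num

/-- a complex with two cells -/
theorem NCW_of_two {Q : Type} [TopologicalSpace Q] {m n : ℕ} (hmn : m < n)
    (Ψ1 : (Fin m → ℝ) → OnePoint Q) (Ψ2 : (Fin n → ℝ) → OnePoint Q) (c1 : Continuous Ψ1)
    (c2 : Continuous Ψ2)
    (cov : ∀ x : Q, ((∃! v, ‖v‖ < 1 ∧ Ψ1 v = x) ∧ ¬ ∃ v, ‖v‖ < 1 ∧ Ψ2 v = x) ∨
      ((¬ ∃ v, ‖v‖ < 1 ∧ Ψ1 v = x) ∧ ∃! v, ‖v‖ < 1 ∧ Ψ2 v = x))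
    (i1 : ∀ v, ‖v‖ < 1 → Ψ1 v ≠ ∞) (i2 : ∀ v, ‖v‖ < 1 → Ψ2 v ≠ ∞)
    (b1 : ∀ v, ‖v‖ = 1 → Ψ1 v = ∞)
    (b2 : ∀ v, ‖v‖ = 1 → Ψ2 v = ∞ ∨ ∃ w, ‖w‖ < 1 ∧ Ψ1 w = Ψ2 v) : NCW Q := by
  let d : Bool → ℕ := fun b => match b with
    | false => m
    | true => n
  let Ψ : ∀ i, (Fin (d i) → ℝ) → OnePoint Q := fun i => match i with
    | false => Ψ1
    | true => Ψ2
  refine ⟨Bool, inferInstance, d, Ψ, ?_, ?_, ?_, ?_⟩
  · rintro (_ | _)
    · exact c1.continuousOn
    · exact c2.continuousOn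
  · intro x
    rcases cov x with ⟨⟨v, ⟨h1, h2⟩, h3⟩, h4⟩ | ⟨h4, ⟨v, ⟨h1, h2⟩, h3⟩⟩
    · refine ⟨⟨false, v⟩, ⟨h1, h2⟩, ?_⟩
      rintro ⟨_ | _, w⟩ ⟨g1, g2⟩
      · have : w = v := h3 w ⟨g1, g2⟩
        rw [this]
      · exact absurd ⟨w, g1, g2⟩ h4
    · refine ⟨⟨true, v⟩, ⟨h1, h2⟩, ?_⟩
      rintro ⟨_ | _, w⟩ ⟨g1, g2⟩
      · exact absurd ⟨w, g1, g2⟩ h4
      · have : w = v := h3 w ⟨g1, g2⟩
        rw [this]
  · rintro (_ | _) v hv
    · exact i1 v hv
    · exact i2 v hv
  · rintro (_ | _) v hv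
    · exact Or.inl (b1 v hv)
    · rcases b2 v hv with h | ⟨w, h1, h2⟩
      · exact Or.inl h
      · exact Or.inr ⟨false, w, hmn, h1, h2⟩

/-- the characteristic map of the one-cell of the mapping cone -/
noncomputable def Psi1 (v : Fin 1 → ℝ) : OnePoint Do := iD (p (v 0 / 2))

/-- the characteristic map of the two-cell of the mapping cone -/
noncomputable def Psi2 (v : Fin 2 → ℝ) : OnePoint Do :=
  kap (p (v 0 / 2), Set.projIcc 0 1 zero_le_one ((v 1 + 1) / 2))

theorem projIcc_interior {x : ℝ} (hx : |x| ≤ 1) :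
    ((Set.projIcc (0 : ℝ) 1 zero_le_one ((x + 1) / 2) : unitInterval) : ℝ) = (x + 1) / 2 := by
  rw [abs_le] at hx
  rw [Set.projIcc_of_mem zero_le_one (show (x + 1) / 2 ∈ Set.Icc (0 : ℝ) 1 from
    ⟨by linarith [hx.1], by linarith [hx.2]⟩)]

theorem qD_Psi2 (v : Fin 2 → ℝ) (hv : ‖v‖ < 1) :
    qD (Psi2 v) = sm (p (v 0 / 2)) (p (v 1 / 2)) := by
  rw [norm_fin_two] at hv
  show qD (kap (p (v 0 / 2), Set.projIcc 0 1 zero_le_one ((v 1 + 1) / 2))) = _
  rw [qD_kap]
  simp only
  rw [projIcc_interior hv.2.le]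
  congr 2
  ring

theorem iD_injective : Function.Injective iD := by
  intro a b h
  have h1 := congrArg toD h
  rw [toD_iD, toD_iD] at h1
  have h2 := congrArg Prod.snd h1
  simp only at h2
  rw [p_zero] at h2
  induction a using OnePoint.rec with
  | infty =>
    induction b using OnePoint.rec with
    | infty => rfl
    | coe b => exact absurd h2.symm (OnePoint.coe_ne_infty _)
  | coe a =>
    induction b using OnePoint.rec with
    | infty => exact absurd h2 (OnePoint.coe_ne_infty _)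
    | coe b =>
      have h3 := OnePoint.coe_injective h2
      exact congrArg _ (congrArg Prod.fst h3)

theorem Psi1_ne {v : Fin 1 → ℝ} (hv : ‖v‖ < 1) : Psi1 v ≠ ∞ := by
  intro h
  rw [← iD_infty] at h
  have h1 := iD_injective h
  rw [p_eq_infty] at h1
  rw [norm_fin_one] at hv
  exact absurd h1 (not_le.mpr (abs_half_lt hv))

theorem qD_Psi2_ne {v : Fin 2 → ℝ} (hv : ‖v‖ < 1) : qD (Psi2 v) ≠ ∞ := by
  rw [qD_Psi2 v hv]
  rw [norm_fin_two] at hv
  intro h
  rcases sm_eq_infty.mp h with h4 | h4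
  · exact absurd (p_eq_infty.mp h4) (not_le.mpr (abs_half_lt hv.1))
  · exact absurd (p_eq_infty.mp h4) (not_le.mpr (abs_half_lt hv.2))

theorem Psi1_eq (y : ℝ) : Psi1 (fun _ => 2 * sc y) = iD (y : OnePoint ℝ) := by
  unfold Psi1
  rw [mul_div_cancel_left₀ _ (by norm_num), p_sc]

theorem norm_Psi1 (y : ℝ) : ‖(fun _ => 2 * sc y : Fin 1 → ℝ)‖ < 1 := by
  rw [norm_fin_one]
  exact abs_two_sc y

theorem NCW_Do : NCW Do := by
  refine NCW_of_two (show 1 < 2 by norm_num) Psi1 Psi2 ?_ ?_ ?_ (fun v hv => Psi1_ne hv) ?_ ?_ ?_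
  · exact continuous_iD.comp (continuous_p.comp (by fun_prop))
  · exact continuous_kap.comp ((continuous_p.comp (by fun_prop)).prodMk
      (continuous_projIcc.comp (by fun_prop)))
  · intro x
    by_cases hq : qD (x : OnePoint Do) = ∞
    · -- one-cell
      obtain ⟨⟨s, u⟩, hsu⟩ := kap_surjective (x : OnePoint Do)
      have hx : ∃ y : ℝ, iD (y : OnePoint ℝ) = x := by
        rw [← hsu, qD_kap, sm_eq_infty] at hq
        rcases hq with hq | hq
        · simp only at hq
          rw [hq, kap_infty] at hsu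
          exact absurd hsu.symm (OnePoint.coe_ne_infty _)
        · rw [p_eq_infty, le_abs] at hq
          have h1 := u.2.1
          have h2 := u.2.2
          rcases hq with hq | hq
          · have hu : u = 1 := Subtype.ext (by
              show (u : ℝ) = 1
              simp only at hq
              linarith)
            rw [hu, kap_one] at hsu
            have hne : H4 s ≠ ∞ := by
              intro h
              rw [h, iD_infty] at hsu
              exact absurd hsu.symm (OnePoint.coe_ne_infty _)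
            obtain ⟨y, hy⟩ := OnePoint.ne_infty_iff_exists.mp hne
            exact ⟨y, by rw [hy]; exact hsu⟩
          · have hu : u = 0 := Subtype.ext (by
              show (u : ℝ) = 0
              simp only at hq
              linarith)
            rw [hu, kap_zero] at hsu
            exact absurd hsu.symm (OnePoint.coe_ne_infty _)
      obtain ⟨y, hy⟩ := hx
      left
      refine ⟨⟨fun _ => 2 * sc y, ⟨norm_Psi1 y, by rw [Psi1_eq, hy]⟩, ?_⟩, ?_⟩
      · rintro v ⟨h1, h2⟩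
        rw [norm_fin_one] at h1
        rw [← hy] at h2
        have h3 := p_half_eq h1 (iD_injective h2)
        funext i
        rw [Subsingleton.elim i 0]
        exact h3
      · rintro ⟨v, h1, h2⟩
        rw [← h2] at hq
        exact qD_Psi2_ne h1 hq
    · -- two-cell
      obtain ⟨⟨s, u⟩, hsu⟩ := kap_surjective (x : OnePoint Do)
      have hq' := hq
      rw [← hsu, qD_kap, sm_eq_infty, not_or] at hq'
      simp only at hq'
      obtain ⟨s, rfl⟩ := OnePoint.ne_infty_iff_exists.mp hq'.1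
      have hu : |(u : ℝ) - 1 / 2| < 1 / 2 := by
        by_contra h
        exact hq'.2 (p_of_le (not_lt.mp h))
      have hu2 : |2 * (u : ℝ) - 1| < 1 := by
        rw [abs_lt] at hu ⊢
        constructor <;> linarith
      right
      refine ⟨?_, ⟨![2 * sc s, 2 * u - 1], ⟨?_, ?_⟩, ?_⟩⟩
      · rintro ⟨v, h1, h2⟩
        rw [← h2] at hq
        exact hq (qD_iD _)
      · rw [norm_fin_two]
        exact ⟨abs_two_sc s, hu2⟩
      · show kap (p (2 * sc s / 2), Set.projIcc 0 1 zero_le_one ((2 * (u : ℝ) - 1 + 1) / 2)) = x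
        rw [mul_div_cancel_left₀ _ (by norm_num), p_sc, ← hsu]
        congr 2
        rw [show (2 * (u : ℝ) - 1 + 1) / 2 = u by ring]
        exact Set.projIcc_of_mem zero_le_one u.2
      · rintro v ⟨h1, h2⟩
        have h1' := (norm_fin_two v).mp h1
        have h3 := qD_Psi2 v h1
        rw [h2, ← hsu, qD_kap] at h3
        simp only at h3
        rw [p_of_lt hu, p_of_lt (abs_half_lt h1'.1), p_of_lt (abs_half_lt h1'.2)] at h3
        have h4 := OnePoint.coe_injective h3
        have h5 : p (v 0 / 2) = (s : OnePoint ℝ) := by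
          rw [p_of_lt (abs_half_lt h1'.1)]
          exact (congrArg _ (congrArg Prod.fst h4)).symm
        have h6 : p (v 1 / 2) = p ((u : ℝ) - 1 / 2) := by
          rw [p_of_lt (abs_half_lt h1'.2), p_of_lt hu]
          exact (congrArg _ (congrArg Prod.snd h4)).symm
        have h7 := p_injOn (abs_half_lt h1'.2) hu h6
        funext i
        fin_cases i
        · exact p_half_eq h1'.1 h5
        · show v 1 = 2 * u - 1
          linarith
  · intro v hv h
    exact qD_Psi2_ne hv (by rw [h, qD_infty])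
  · intro v hv
    unfold Psi1
    rw [p_of_le, iD_infty]
    rw [norm_fin_one] at hv
    rw [abs_div, hv]
    norm_num
  · intro v hv
    have hle := (norm_le_fin_two v).mp (le_of_eq hv)
    rcases norm_eq_fin_two v hv with h | h
    · left
      unfold Psi2
      rw [p_of_le, kap_infty]
      rw [abs_div, h]
      norm_num
    · rcases (abs_eq (by norm_num)).mp h with h1 | h1
      · have hu : Set.projIcc (0 : ℝ) 1 zero_le_one ((v 1 + 1) / 2) = 1 := by
          rw [h1]
          norm_num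
        have e : Psi2 v = iD (H4 (p (v 0 / 2))) := by
          unfold Psi2
          rw [hu, kap_one]
        rw [e]
        by_cases h2 : H4 (p (v 0 / 2)) = ∞
        · left
          rw [h2, iD_infty]
        · right
          obtain ⟨y, hy⟩ := OnePoint.ne_infty_iff_exists.mp h2
          exact ⟨fun _ => 2 * sc y, norm_Psi1 y, by rw [Psi1_eq, hy]⟩
      · left
        have hu : Set.projIcc (0 : ℝ) 1 zero_le_one ((v 1 + 1) / 2) = 0 := by
          rw [h1]
          norm_num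
        unfold Psi2
        rw [hu, kap_zero]

end Pool.Agent.N508.GH
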