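import Pool.Agent.N508.GH.Cells

/-!
# The cell structure of the sign sphere, and of the example
-/

set_option autoImplicit false
set_option linter.unusedSectionVars false

namespace Pool.Agent.N508.GH

open Set Topology OnePoint Filter

/-- a complex with two equivariant cells -/
theorem CW_of_two (P : GSpace C2) {m n : ℕ} (hmn : m < n) (H1 H2 : ClosedSubgroup C2.carrier)
    (Φ1 : (orbit H1).carrier → (Fin m → ℝ) → OnePoint P.carrier)
    (Φ2 : (orbit H2).carrier → (Fin n → ℝ) → OnePoint P.carrier)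
    (c1 : Continuous fun z : (orbit H1).carrier × (Fin m → ℝ) => Φ1 z.1 z.2)
    (c2 : Continuous fun z : (orbit H2).carrier × (Fin n → ℝ) => Φ2 z.1 z.2)
    (e1 : ∀ (g : C2.carrier) a v, Φ1 (g • a) v = P.smulPlus g (Φ1 a v))
    (e2 : ∀ (g : C2.carrier) a v, Φ2 (g • a) v = P.smulPlus g (Φ2 a v))
    (cov : ∀ x : P.carrier,
      ((∃! z : (orbit H1).carrier × (Fin m → ℝ), ‖z.2‖ < 1 ∧ Φ1 z.1 z.2 = x) ∧
        ¬ ∃ z : (orbit H2).carrier × (Fin n → ℝ), ‖z.2‖ < 1 ∧ Φ2 z.1 z.2 = x) ∨
      ((¬ ∃ z : (orbit H1).carrier × (Fin m → ℝ), ‖z.2‖ < 1 ∧ Φ1 z.1 z.2 = x) ∧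
        ∃! z : (orbit H2).carrier × (Fin n → ℝ), ‖z.2‖ < 1 ∧ Φ2 z.1 z.2 = x))
    (i1 : ∀ a v, ‖v‖ < 1 → Φ1 a v ≠ ∞) (i2 : ∀ a v, ‖v‖ < 1 → Φ2 a v ≠ ∞)
    (b1 : ∀ a v, ‖v‖ = 1 → Φ1 a v = ∞)
    (b2 : ∀ a v, ‖v‖ = 1 → Φ2 a v = ∞ ∨ ∃ b w, ‖w‖ < 1 ∧ Φ1 b w = Φ2 a v) : P.IsFiniteCW := by
  let d : Bool → ℕ := fun b => match b with
    | false => m
    | true => n
  let H : Bool → ClosedSubgroup C2.carrier := fun b => match b with
    | false => H1
    | true => H2
  let Φ : ∀ i, (orbit (H i)).carrier → (Fin (d i) → ℝ) → OnePoint P.carrier :=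
    fun i => match i with
    | false => Φ1
    | true => Φ2
  refine ⟨Bool, inferInstance, d, H, Φ, ?_, ?_, ?_, ?_, ?_⟩
  · rintro (_ | _)
    · exact c1.continuousOn
    · exact c2.continuousOn
  · rintro (_ | _) g a v _
    · exact e1 g a v
    · exact e2 g a v
  · intro x
    rcases cov x with ⟨⟨v, ⟨h1, h2⟩, h3⟩, h4⟩ | ⟨h4, ⟨v, ⟨h1, h2⟩, h3⟩⟩
    · refine ⟨⟨false, v⟩, ⟨h1, h2⟩, ?_⟩
      rintro ⟨_ | _, w⟩ ⟨g1, g2⟩
      · have : w = v := h3 w ⟨g1, g2⟩
        rw [this]
      · exact absurd ⟨w, g1, g2⟩ h4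
    · refine ⟨⟨true, v⟩, ⟨h1, h2⟩, ?_⟩
      rintro ⟨_ | _, w⟩ ⟨g1, g2⟩
      · exact absurd ⟨w, g1, g2⟩ h4
      · have : w = v := h3 w ⟨g1, g2⟩
        rw [this]
  · rintro (_ | _) a v hv
    · exact i1 a v hv
    · exact i2 a v hv
  · rintro (_ | _) a v hv
    · exact Or.inl (b1 a v hv)
    · rcases b2 a v hv with h | ⟨b, w, h1, h2⟩
      · exact Or.inl h
      · exact Or.inr ⟨false, b, w, hmn, h1, h2⟩

/-- the whole group -/
noncomputable def topC : ClosedSubgroup C2.carrier := ⟨⊤, isClosed_univ⟩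

/-- the trivial subgroup -/
noncomputable def botC : ClosedSubgroup C2.carrier := ⟨⊥, isClosed_discrete _⟩

/-- the trivial coset -/
noncomputable def eB1 : (orbit botC).carrier :=
  (QuotientGroup.mk (1 : C2.carrier) : C2.carrier ⧸ (⊥ : Subgroup C2.carrier))

theorem gm_ne_one : gm ≠ 1 := by
  intro h
  have : (-1 : ℤˣ) = 1 := h
  exact absurd this (by decide)

theorem botC_cases (a : (orbit botC).carrier) : a = eB1 ∨ a = gm • eB1 := by
  obtain ⟨g, rfl⟩ := QuotientGroup.mk_surjective a
  rcases C2_cases g with rfl | rfl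
  · exact Or.inl rfl
  · right
    show (QuotientGroup.mk gm : C2.carrier ⧸ (⊥ : Subgroup C2.carrier)) =
      QuotientGroup.mk (gm * 1)
    rw [mul_one]

theorem gm_eB1_ne : gm • eB1 ≠ eB1 := by
  intro h
  have h1 : (QuotientGroup.mk (gm * 1) : C2.carrier ⧸ (⊥ : Subgroup C2.carrier)) =
      QuotientGroup.mk 1 := h
  rw [QuotientGroup.eq, mul_one, mul_one, inv_mem_iff, Subgroup.mem_bot] at h1
  exact gm_ne_one h1

/-- the parametrization of the half line -/
noncomputable def rho (r : ℝ) : OnePoint ℝ := p ((r + 1) / 4)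

theorem continuous_rho : Continuous rho := continuous_p.comp (by fun_prop)

theorem rho_pos {r : ℝ} (hr : |r| < 1) : ∃ x : ℝ, 0 < x ∧ rho r = x := by
  rw [abs_lt] at hr
  have h1 : |(r + 1) / 4| < 1 / 2 := by
    rw [abs_lt]
    constructor <;> linarith
  refine ⟨_, ?_, p_of_lt h1⟩
  apply Real.tan_pos_of_pos_of_lt_pi_div_two
  · have := Real.pi_pos
    have h2 : 0 < (r + 1) / 4 := by linarith
    positivity
  · have := Real.pi_pos
    nlinarith

theorem rho_four {x : ℝ} (hx : 0 < x) : |4 * sc x - 1| < 1 ∧ rho (4 * sc x - 1) = x := by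
  have h1 := abs_sc_pos_iff.mpr hx
  have h2 := (abs_lt.mp (abs_sc_lt x)).2
  constructor
  · rw [abs_lt]
    constructor <;> linarith
  · unfold rho
    rw [show (4 * sc x - 1 + 1) / 4 = sc x by ring, p_sc]

theorem rho_eq {r x : ℝ} (hr : |r| < 1) (h : rho r = x) : r = 4 * sc x - 1 := by
  have h1 : p ((r + 1) / 4) = p (sc x) := by rw [p_sc]; exact h
  rw [abs_lt] at hr
  have h2 := p_injOn (by rw [abs_lt]; constructor <;> linarith) (abs_sc_lt x) h1
  linarith

open Classical in
/-- the characteristic map of the one-cell -/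
noncomputable def Phi2 (a : (orbit botC).carrier) (v : Fin 1 → ℝ) : OnePoint ℝ :=
  if a = eB1 then rho (v 0) else ng (rho (v 0))

theorem Phi2_one (v : Fin 1 → ℝ) : Phi2 eB1 v = rho (v 0) := if_pos rfl

theorem Phi2_gm (v : Fin 1 → ℝ) : Phi2 (gm • eB1) v = ng (rho (v 0)) := if_neg gm_eB1_ne

theorem norm_zero_lt : ‖(0 : Fin 0 → ℝ)‖ < 1 := by
  rw [norm_zero]
  exact one_pos

theorem isFiniteCW_sgn : sgn.sphere.IsFiniteCW := by
  have ne0 : ∀ (a : (orbit botC).carrier) (v : Fin 1 → ℝ), ‖v‖ < 1 →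
      ∃ x : ℝ, x ≠ 0 ∧ Phi2 a v = x := by
    intro a v hv
    rw [norm_fin_one] at hv
    obtain ⟨x, hx, h⟩ := rho_pos hv
    rcases botC_cases a with rfl | rfl
    · exact ⟨x, hx.ne', by rw [Phi2_one, h]⟩
    · exact ⟨-x, by simpa using hx.ne', by rw [Phi2_gm, h, ng_coe]⟩
  refine CW_of_two sgn.sphere (show 0 < 1 by norm_num) topC botC
    (fun _ _ => OnePoint.some (0 : ℝ)) Phi2 continuous_const ?_ ?_ ?_ ?_ ?_ ?_ ?_ ?_
  · have hd : DiscreteTopology (orbit botC).carrier := by
      have : Finite (orbit botC).carrier :=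
        inferInstanceAs (Finite (C2.carrier ⧸ (⊥ : Subgroup C2.carrier)))
      infer_instance
    have hc : Continuous fun z : (orbit botC).carrier × (Fin 1 → ℝ) => Phi2 z.1 z.2 := by
      rw [continuous_prod_of_discrete_left]
      intro a
      rcases botC_cases a with rfl | rfl
      · have : (fun v => Phi2 eB1 v) = fun v : Fin 1 → ℝ => rho (v 0) := funext Phi2_one
        show Continuous fun v => Phi2 eB1 v
        rw [this]
        exact continuous_rho.comp (continuous_apply 0)
      · have : (fun v => Phi2 (gm • eB1) v) = fun v : Fin 1 → ℝ => ng (rho (v 0)) :=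
          funext Phi2_gm
        show Continuous fun v => Phi2 (gm • eB1) v
        rw [this]
        exact continuous_ng.comp (continuous_rho.comp (continuous_apply 0))
    exact hc
  · intro g a v
    rcases C2_cases g with rfl | rfl
    · rw [smulPlus_one]
    · have := smulPlus_sgn ((0 : ℝ) : OnePoint ℝ)
      rw [ng_coe, neg_zero] at this
      exact this.symm
  · intro g a v
    rcases C2_cases g with rfl | rfl
    · exact (congrArg (fun b => Phi2 b v) (one_smul C2.carrier a)).trans
        (smulPlus_one sgn.sphere (Phi2 a v)).symm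
    · have h1 : ∀ z : OnePoint ℝ, sgn.sphere.smulPlus gm z = ng z := smulPlus_sgn
      refine Eq.trans ?_ (h1 (Phi2 a v)).symm
      rcases botC_cases a with rfl | rfl
      · rw [Phi2_gm, Phi2_one]
      · rw [Phi2_gm, ng_ng, smul_smul, gm_mul_gm, one_smul, Phi2_one]
  · intro x
    obtain ⟨x, rfl⟩ : ∃ y : ℝ, y = x := ⟨x, rfl⟩
    rcases lt_trichotomy x 0 with hx | hx | hx
    · right
      refine ⟨?_, (gm • eB1, fun _ => 4 * sc (-x) - 1), ⟨?_, ?_⟩, ?_⟩
      · rintro ⟨z, -, hz⟩
        have := OnePoint.coe_injective hz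
        exact hx.ne' this
      · show ‖(fun _ => 4 * sc (-x) - 1 : Fin 1 → ℝ)‖ < 1
        rw [norm_fin_one]
        exact (rho_four (neg_pos.mpr hx)).1
      · show Phi2 (gm • eB1) _ = OnePoint.some x
        rw [Phi2_gm, (rho_four (neg_pos.mpr hx)).2, ng_coe, neg_neg]
      · rintro ⟨a, v⟩ ⟨h1, h2⟩
        simp only at h1
        have h2' : Phi2 a v = OnePoint.some x := h2
        rw [norm_fin_one] at h1
        rcases botC_cases a with rfl | rfl
        · exfalso
          rw [Phi2_one] at h2'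
          obtain ⟨y, hy, h3⟩ := rho_pos h1
          rw [h3] at h2'
          have := OnePoint.coe_injective h2'
          linarith
        · rw [Phi2_gm] at h2'
          have h3 : rho (v 0) = ((-x : ℝ) : OnePoint ℝ) := by
            rw [← ng_ng (rho (v 0)), h2']
            rfl
          have h4 := rho_eq h1 h3
          have : v = fun _ => 4 * sc (-x) - 1 := by
            funext i
            rw [Subsingleton.elim i 0]
            exact h4
          rw [this]
    · left
      subst hx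
      refine ⟨⟨((QuotientGroup.mk (1 : C2.carrier) : C2.carrier ⧸ (⊤ : Subgroup C2.carrier)), 0),
        ⟨norm_zero_lt, rfl⟩, ?_⟩, ?_⟩
      · rintro ⟨a, v⟩ -
        have ha : a = (QuotientGroup.mk (1 : C2.carrier) :
            C2.carrier ⧸ (⊤ : Subgroup C2.carrier)) := by
          have : Subsingleton (C2.carrier ⧸ (⊤ : Subgroup C2.carrier)) :=
            QuotientGroup.subsingleton_quotient_top
          exact this.elim _ _
        rw [ha, Subsingleton.elim v 0]
      · rintro ⟨⟨a, v⟩, h1, h2⟩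
        obtain ⟨y, hy, h3⟩ := ne0 a v h1
        have h2' : Phi2 a v = OnePoint.some (0 : ℝ) := h2
        rw [h3] at h2'
        exact hy (OnePoint.coe_injective h2')
    · right
      refine ⟨?_, (eB1, fun _ => 4 * sc x - 1), ⟨?_, ?_⟩, ?_⟩
      · rintro ⟨z, -, hz⟩
        have := OnePoint.coe_injective hz
        exact hx.ne this
      · show ‖(fun _ => 4 * sc x - 1 : Fin 1 → ℝ)‖ < 1
        rw [norm_fin_one]
        exact (rho_four hx).1
      · show Phi2 eB1 _ = OnePoint.some x
        rw [Phi2_one, (rho_four hx).2]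
      · rintro ⟨a, v⟩ ⟨h1, h2⟩
        simp only at h1
        have h2' : Phi2 a v = OnePoint.some x := h2
        rw [norm_fin_one] at h1
        rcases botC_cases a with rfl | rfl
        · rw [Phi2_one] at h2'
          have h4 := rho_eq h1 h2'
          have : v = fun _ => 4 * sc x - 1 := by
            funext i
            rw [Subsingleton.elim i 0]
            exact h4
          rw [this]
        · exfalso
          rw [Phi2_gm] at h2'
          obtain ⟨y, hy, h3⟩ := rho_pos h1
          rw [h3, ng_coe] at h2'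
          have := OnePoint.coe_injective h2'
          linarith
  · intro a v _
    exact OnePoint.coe_ne_infty _
  · intro a v hv
    obtain ⟨y, hy, h3⟩ := ne0 a v hv
    have h3' : Phi2 a v ≠ ∞ := by
      rw [h3]
      exact OnePoint.coe_ne_infty _
    exact h3'
  · intro a v hv
    rw [Subsingleton.elim v 0, norm_zero] at hv
    exact absurd hv (by norm_num)
  · intro a v hv
    rw [norm_fin_one] at hv
    rcases (abs_eq (by norm_num)).mp hv with h | h
    · left
      have h1 : rho (v 0) = ∞ := by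
        unfold rho
        rw [h]
        exact p_of_le (by rw [abs_of_pos] <;> norm_num)
      show Phi2 a v = ∞
      rcases botC_cases a with rfl | rfl
      · rw [Phi2_one, h1]
      · rw [Phi2_gm, h1]
        rfl
    · right
      have h1 : rho (v 0) = ((0 : ℝ) : OnePoint ℝ) := by
        unfold rho
        rw [h]
        norm_num
        exact p_zero
      refine ⟨(QuotientGroup.mk (1 : C2.carrier) : C2.carrier ⧸ (⊤ : Subgroup C2.carrier)), 0,
        norm_zero_lt, ?_⟩
      show OnePoint.some (0 : ℝ) = Phi2 a v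
      rcases botC_cases a with rfl | rfl
      · rw [Phi2_one, h1]
      · rw [Phi2_gm, h1, ng_coe, neg_zero]

theorem isFiniteCW_XX : XX.IsFiniteCW := isFiniteCW_prod _ _ isFiniteCW_sgn NCW_Do

theorem isFiniteCW_YY : YY.IsFiniteCW := isFiniteCW_prod _ _ isFiniteCW_sgn NCW_plane

end Pool.Agent.N508.GH
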