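import Mathlib

/-!
# Functionals on lists

Cochains are functions on lists of points. `ins s` is the product with a function `s` (summed over
the places of a list with alternating signs); `ins 1` is the coboundary. `pr φ ψ` is the dual of
the prism operator.
-/

set_option autoImplicit false

namespace Pool.Agent.N508.Ch

section Basic

variable {R : Type*} [CommRing R] {E L : Type*}

/-- sum over the places of the list, with alternating signs, of the value of `s` at the place times
the value of the functional at the remaining list -/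
def ins (s : E → R) : List E → (List E → R) → R
  | [], _ => 0
  | x :: l, Ω => s x * Ω l - ins s l (fun m => Ω (x :: m))

theorem ins_nil (s : E → R) (Ω : List E → R) : ins s [] Ω = 0 := rfl

theorem ins_cons (s : E → R) (x : E) (l : List E) (Ω : List E → R) :
    ins s (x :: l) Ω = s x * Ω l - ins s l (fun m => Ω (x :: m)) := rfl

theorem ins_congr (s s' : E → R) (l : List E) (Ω Ω' : List E → R)
    (hs : ∀ x ∈ l, s x = s' x) (h : ∀ m, (∀ x ∈ m, x ∈ l) → Ω m = Ω' m) :
    ins s l Ω = ins s' l Ω' := by
  induction l generalizing Ω Ω' with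
  | nil => rfl
  | cons x l ih =>
    rw [ins_cons, ins_cons, hs x (by simp), h l (by intro y hy; simp [hy]),
      ih (fun m => Ω (x :: m)) (fun m => Ω' (x :: m)) (fun y hy => hs y (by simp [hy]))
        (fun m hm => h _ (by
          intro y hy
          rcases List.mem_cons.mp hy with rfl | hy
          · simp
          · exact List.mem_cons_of_mem _ (hm y hy)))]

theorem ins_zero' (s : E → R) (l : List E) : ins s l (fun _ => 0) = 0 := by
  induction l with
  | nil => rfl
  | cons x l ih => rw [ins_cons, ih]; ring

theorem ins_zero_left (l : List E) (Ω : List E → R) : ins (fun _ => (0 : R)) l Ω = 0 := by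
  induction l generalizing Ω with
  | nil => rfl
  | cons x l ih => rw [ins_cons, ih]; ring

theorem ins_add (s : E → R) (l : List E) (Ω Ω' : List E → R) :
    ins s l (fun m => Ω m + Ω' m) = ins s l Ω + ins s l Ω' := by
  induction l generalizing Ω Ω' with
  | nil => simp [ins_nil]
  | cons x l ih => rw [ins_cons, ins_cons, ins_cons, ih]; ring

theorem ins_sub (s : E → R) (l : List E) (Ω Ω' : List E → R) :
    ins s l (fun m => Ω m - Ω' m) = ins s l Ω - ins s l Ω' := by
  induction l generalizing Ω Ω' with
  | nil => simp [ins_nil]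
  | cons x l ih => rw [ins_cons, ins_cons, ins_cons, ih]; ring

theorem ins_mul (s : E → R) (l : List E) (a : R) (Ω : List E → R) :
    ins s l (fun m => a * Ω m) = a * ins s l Ω := by
  induction l generalizing Ω with
  | nil => simp [ins_nil]
  | cons x l ih => rw [ins_cons, ins_cons, ih]; ring

theorem ins_neg (s : E → R) (l : List E) (Ω : List E → R) :
    ins s l (fun m => - Ω m) = - ins s l Ω := by
  have := ins_mul s l (-1) Ω
  simpa using this

theorem ins_add_left (s t : E → R) (l : List E) (Ω : List E → R) :
    ins (fun x => s x + t x) l Ω = ins s l Ω + ins t l Ω := by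
  induction l generalizing Ω with
  | nil => simp [ins_nil]
  | cons x l ih => rw [ins_cons, ins_cons, ins_cons, ih]; ring

theorem ins_sum_left {Y : Type*} (A : Finset Y) (s : Y → E → R) (l : List E) (Ω : List E → R) :
    ins (fun x => ∑ y ∈ A, s y x) l Ω = ∑ y ∈ A, ins (s y) l Ω := by
  classical
  induction A using Finset.induction_on with
  | empty => simpa using ins_zero_left l Ω
  | insert a A ha ih =>
    rw [Finset.sum_insert ha, ← ih, ← ins_add_left]
    congr 1
    funext x
    rw [Finset.sum_insert ha]

/-- the functional `ins s` of a functional -/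
def I (s : E → R) (Ω : List E → R) : List E → R := fun l => ins s l Ω

theorem ins_anti (s t : E → R) (l : List E) (Ω : List E → R) :
    ins s l (I t Ω) + ins t l (I s Ω) = 0 := by
  induction l generalizing Ω with
  | nil => simp [ins_nil]
  | cons x l ih =>
    have h := ih (fun m => Ω (x :: m))
    have e1 : ins s l (fun m => I t Ω (x :: m)) =
        t x * ins s l Ω - ins s l (I t (fun m => Ω (x :: m))) := by
      have : (fun m => I t Ω (x :: m)) =
          fun m => t x * Ω m - I t (fun m => Ω (x :: m)) m := by
        funext m; rfl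
      rw [this, ins_sub, ins_mul]
    have e2 : ins t l (fun m => I s Ω (x :: m)) =
        s x * ins t l Ω - ins t l (I s (fun m => Ω (x :: m))) := by
      have : (fun m => I s Ω (x :: m)) =
          fun m => s x * Ω m - I s (fun m => Ω (x :: m)) m := by
        funext m; rfl
      rw [this, ins_sub, ins_mul]
    rw [ins_cons, ins_cons, e1, e2]
    simp only [I] at h ⊢
    linear_combination h

theorem ins_self (s : E → R) (l : List E) (Ω : List E → R) : ins s l (I s Ω) = 0 := by
  induction l generalizing Ω with
  | nil => rfl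
  | cons x l ih =>
    have h := ih (fun m => Ω (x :: m))
    have e1 : ins s l (fun m => I s Ω (x :: m)) =
        s x * ins s l Ω - ins s l (I s (fun m => Ω (x :: m))) := by
      have : (fun m => I s Ω (x :: m)) =
          fun m => s x * Ω m - I s (fun m => Ω (x :: m)) m := by
        funext m; rfl
      rw [this, ins_sub, ins_mul]
    rw [ins_cons, e1, h]
    simp only [I]
    ring

theorem mul_ins_eq_zero (a : R) (t : E → R) (l : List E) (Ω : List E → R)
    (h : ∀ x ∈ l, a * t x = 0) : a * ins t l Ω = 0 := by
  induction l generalizing Ω with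
  | nil => simp [ins_nil]
  | cons x l ih =>
    rw [ins_cons, mul_sub, ih _ (fun y hy => h y (by simp [hy])), ← mul_assoc, h x (by simp)]
    ring

theorem ins_ins_eq_zero (s t : E → R) (l : List E) (Ω : List E → R)
    (h : ∀ x ∈ l, ∀ y ∈ l, s x * t y = 0) : ins s l (I t Ω) = 0 := by
  induction l generalizing Ω with
  | nil => rfl
  | cons x l ih =>
    have h' := ih (fun m => Ω (x :: m)) (fun y hy z hz => h y (by simp [hy]) z (by simp [hz]))
    have e1 : ins s l (fun m => I t Ω (x :: m)) =
        t x * ins s l Ω - ins s l (I t (fun m => Ω (x :: m))) := by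
      have : (fun m => I t Ω (x :: m)) =
          fun m => t x * Ω m - I t (fun m => Ω (x :: m)) m := by
        funext m; rfl
      rw [this, ins_sub, ins_mul]
    rw [ins_cons, e1, h']
    simp only [I]
    rw [mul_ins_eq_zero (s x) t l Ω (fun y hy => h x (by simp) y (by simp [hy])),
      mul_ins_eq_zero (t x) s l Ω (fun y hy => by
        rw [mul_comm]; exact h y (by simp [hy]) x (by simp))]
    ring

theorem ins_map (s : L → R) (φ : E → L) (l : List E) (Ω : List L → R) :
    ins s (l.map φ) Ω = ins (fun x => s (φ x)) l (fun m => Ω (m.map φ)) := by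
  induction l generalizing Ω with
  | nil => rfl
  | cons x l ih => rw [List.map_cons, ins_cons, ins_cons, ih]; rfl

theorem ins_hom {R' : Type*} [CommRing R'] (f : R →+* R') (s : E → R) (l : List E)
    (Ω : List E → R) : f (ins s l Ω) = ins (fun x => f (s x)) l (fun m => f (Ω m)) := by
  induction l generalizing Ω with
  | nil => simp [ins_nil]
  | cons x l ih => rw [ins_cons, ins_cons, map_sub, map_mul, ih]

/-- the coboundary -/
def d (Ω : List E → R) : List E → R := I (fun _ => 1) Ω

/-- the dual of the prism operator -/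
def pr (φ ψ : E → L) : List E → (List L → R) → R
  | [], _ => 0
  | x :: l, Ω => Ω (φ x :: ψ x :: l.map ψ) - pr φ ψ l (fun m => Ω (φ x :: m))

theorem pr_nil (φ ψ : E → L) (Ω : List L → R) : pr φ ψ [] Ω = 0 := rfl

theorem pr_cons (φ ψ : E → L) (x : E) (l : List E) (Ω : List L → R) :
    pr φ ψ (x :: l) Ω = Ω (φ x :: ψ x :: l.map ψ) - pr φ ψ l (fun m => Ω (φ x :: m)) := rfl

theorem pr_congr (φ ψ : E → L) (l : List E) (Ω Ω' : List L → R)
    (h : ∀ m, (∀ y ∈ m, ∃ x ∈ l, y = φ x ∨ y = ψ x) → Ω m = Ω' m) :
    pr φ ψ l Ω = pr φ ψ l Ω' := by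
  induction l generalizing Ω Ω' with
  | nil => rfl
  | cons x l ih =>
    rw [pr_cons, pr_cons]
    congr 1
    · apply h
      intro y hy
      simp only [List.mem_cons, List.mem_map] at hy
      rcases hy with rfl | rfl | ⟨z, hz, rfl⟩
      · exact ⟨x, by simp, Or.inl rfl⟩
      · exact ⟨x, by simp, Or.inr rfl⟩
      · exact ⟨z, by simp [hz], Or.inr rfl⟩
    · apply ih
      intro m hm
      apply h
      intro y hy
      rcases List.mem_cons.mp hy with rfl | hy
      · exact ⟨x, by simp, Or.inl rfl⟩
      · obtain ⟨z, hz, h'⟩ := hm y hy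
        exact ⟨z, by simp [hz], h'⟩

theorem pr_zero' (φ ψ : E → L) (l : List E) : pr φ ψ l (fun _ => (0 : R)) = 0 := by
  induction l with
  | nil => rfl
  | cons x l ih => rw [pr_cons, ih]; ring

theorem pr_sub (φ ψ : E → L) (l : List E) (Ω Ω' : List L → R) :
    pr φ ψ l (fun m => Ω m - Ω' m) = pr φ ψ l Ω - pr φ ψ l Ω' := by
  induction l generalizing Ω Ω' with
  | nil => simp [pr_nil]
  | cons x l ih => rw [pr_cons, pr_cons, pr_cons, ih]; ring

theorem pr_add (φ ψ : E → L) (l : List E) (Ω Ω' : List L → R) :
    pr φ ψ l (fun m => Ω m + Ω' m) = pr φ ψ l Ω + pr φ ψ l Ω' := by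
  induction l generalizing Ω Ω' with
  | nil => simp [pr_nil]
  | cons x l ih => rw [pr_cons, pr_cons, pr_cons, ih]; ring

theorem pr_mul (φ ψ : E → L) (l : List E) (a : R) (Ω : List L → R) :
    pr φ ψ l (fun m => a * Ω m) = a * pr φ ψ l Ω := by
  induction l generalizing Ω with
  | nil => simp [pr_nil]
  | cons x l ih => rw [pr_cons, pr_cons, ih]; ring

theorem pr_map_right {M : Type*} (φ ψ : E → L) (g : L → M) (l : List E) (Ω : List M → R) :
    pr φ ψ l (fun m => Ω (m.map g)) = pr (fun x => g (φ x)) (fun x => g (ψ x)) l Ω := by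
  induction l generalizing Ω with
  | nil => rfl
  | cons x l ih =>
    rw [pr_cons, pr_cons]
    congr 1
    · simp [List.map_map, Function.comp_def]
    · exact ih (fun m => Ω (g (φ x) :: m))

theorem pr_map_left {M : Type*} (φ ψ : E → L) (g : M → E) (l : List M) (Ω : List L → R) :
    pr φ ψ (l.map g) Ω = pr (fun x => φ (g x)) (fun x => ψ (g x)) l Ω := by
  induction l generalizing Ω with
  | nil => rfl
  | cons x l ih =>
    rw [List.map_cons, pr_cons, pr_cons, ih]
    congr 1
    simp [List.map_map, Function.comp_def]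

theorem pr_hom {R' : Type*} [CommRing R'] (f : R →+* R') (φ ψ : E → L) (l : List E)
    (Ω : List L → R) : f (pr φ ψ l Ω) = pr φ ψ l (fun m => f (Ω m)) := by
  induction l generalizing Ω with
  | nil => simp [pr_nil]
  | cons x l ih => rw [pr_cons, pr_cons, map_sub, ih]

/-- the prism formula -/
theorem pr_d (φ ψ : E → L) (l : List E) (Ω : List L → R) :
    pr φ ψ l (d Ω) + ins (fun _ => 1) l (fun m => pr φ ψ m Ω) = Ω (l.map ψ) - Ω (l.map φ) := by
  induction l generalizing Ω with
  | nil => simp [pr_nil, ins_nil]
  | cons x l ih =>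
    have h := ih (fun m => Ω (φ x :: m))
    have e1 : pr φ ψ l (fun m => d Ω (φ x :: m)) =
        pr φ ψ l Ω - pr φ ψ l (d (fun m => Ω (φ x :: m))) := by
      have : (fun m => d Ω (φ x :: m)) = fun m => Ω m - d (fun m => Ω (φ x :: m)) m := by
        funext m; simp [d, I, ins_cons]
      rw [this, pr_sub]
    have e2 : d Ω (φ x :: ψ x :: l.map ψ) = Ω (ψ x :: l.map ψ) - (Ω (φ x :: l.map ψ) -
        ins (fun _ => 1) (l.map ψ) (fun m => Ω (φ x :: ψ x :: m))) := by
      simp [d, I, ins_cons]
    have e3 : ins (fun _ => (1 : R)) l (fun m => pr φ ψ (x :: m) Ω) =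
        ins (fun _ => 1) (l.map ψ) (fun m => Ω (φ x :: ψ x :: m)) -
          ins (fun _ => 1) l (fun m => pr φ ψ m (fun m => Ω (φ x :: m))) := by
      have : (fun m => pr φ ψ (x :: m) Ω) = fun m => Ω (φ x :: ψ x :: m.map ψ) -
          pr φ ψ m (fun m => Ω (φ x :: m)) := by
        funext m; rfl
      rw [this, ins_sub, ins_map]
    rw [pr_cons, ins_cons, e1, e2, e3, List.map_cons, List.map_cons]
    linear_combination h

end Basic

end Pool.Agent.N508.Ch
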