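import Pool.Agent.N508.GH.Chain

/-!
# Functionals on lists of points of a cube: homotopy invariance, doubling, parity
-/

set_option autoImplicit false
set_option linter.unusedSectionVars false

namespace Pool.Agent.N508.Ch

section Ops

variable {R : Type*} [CommRing R] {ι : Type*} [DecidableEq ι]

/-- change of one coordinate -/
def upd (c : ι) (a : ℝ) (x : ι → ℝ) : ι → ℝ := Function.update x c a

@[simp] theorem upd_same (c : ι) (a : ℝ) (x : ι → ℝ) : upd c a x c = a := by simp [upd]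

theorem upd_ne {c c' : ι} (h : c' ≠ c) (a : ℝ) (x : ι → ℝ) : upd c a x c' = x c' := by
  simp [upd, h]

/-- a signed step: the sign and the two ends -/
abbrev Step := ℤ × ℝ × ℝ

/-- the operator of a signed path in the coordinate `c` -/
def Eop : List Step → ι → (List (ι → ℝ) → R) → List (ι → ℝ) → R
  | [], _, _, _ => 0
  | p :: S, c, Ω, l => p.1 • pr (upd c p.2.1) (upd c p.2.2) l Ω + Eop S c Ω l

theorem Eop_nil_left (c : ι) (Ω : List (ι → ℝ) → R) (l : List (ι → ℝ)) : Eop [] c Ω l = 0 := rfl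

theorem Eop_cons (p : Step) (S : List Step) (c : ι) (Ω : List (ι → ℝ) → R) (l : List (ι → ℝ)) :
    Eop (p :: S) c Ω l = p.1 • pr (upd c p.2.1) (upd c p.2.2) l Ω + Eop S c Ω l := rfl

/-- evaluation at the chain of a product of signed paths, first the outermost coordinate -/
def D (S : ι → List Step) : List ι → (List (ι → ℝ) → R) → R
  | [], Ω => Ω [0]
  | c :: cs, Ω => D S cs (Eop (S c) c Ω)

theorem D_nil (S : ι → List Step) (Ω : List (ι → ℝ) → R) : D S [] Ω = Ω [0] := rfl

theorem D_cons (S : ι → List Step) (c : ι) (cs : List ι) (Ω : List (ι → ℝ) → R) :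
    D S (c :: cs) Ω = D S cs (Eop (S c) c Ω) := rfl

theorem Eop_append (S T : List Step) (c : ι) (Ω : List (ι → ℝ) → R) (l : List (ι → ℝ)) :
    Eop (S ++ T) c Ω l = Eop S c Ω l + Eop T c Ω l := by
  induction S with
  | nil => simp [Eop_nil_left]
  | cons p S ih => rw [List.cons_append, Eop_cons, Eop_cons, ih, add_assoc]

theorem Eop_perm {S T : List Step} (h : S.Perm T) (c : ι) (Ω : List (ι → ℝ) → R)
    (l : List (ι → ℝ)) : Eop S c Ω l = Eop T c Ω l := by
  induction h with
  | nil => rfl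
  | cons x _ ih => rw [Eop_cons, Eop_cons, ih]
  | swap x y l => rw [Eop_cons, Eop_cons, Eop_cons, Eop_cons]; abel
  | trans _ _ ih1 ih2 => rw [ih1, ih2]

theorem Eop_congr (S : List Step) (c : ι) (Ω Ω' : List (ι → ℝ) → R) (l : List (ι → ℝ))
    (h : ∀ p ∈ S, ∀ m, (∀ y ∈ m, ∃ x ∈ l, y = upd c p.2.1 x ∨ y = upd c p.2.2 x) → Ω m = Ω' m) :
    Eop S c Ω l = Eop S c Ω' l := by
  induction S with
  | nil => rfl
  | cons p S ih =>
    rw [Eop_cons, Eop_cons, ih (fun q hq => h q (by simp [hq])),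
      pr_congr _ _ _ _ _ (h p (by simp))]

theorem Eop_add (S : List Step) (c : ι) (Ω Ω' : List (ι → ℝ) → R) (l : List (ι → ℝ)) :
    Eop S c (fun m => Ω m + Ω' m) l = Eop S c Ω l + Eop S c Ω' l := by
  induction S with
  | nil => simp [Eop_nil_left]
  | cons p S ih => rw [Eop_cons, Eop_cons, Eop_cons, ih, pr_add, smul_add]; abel

theorem Eop_sub (S : List Step) (c : ι) (Ω Ω' : List (ι → ℝ) → R) (l : List (ι → ℝ)) :
    Eop S c (fun m => Ω m - Ω' m) l = Eop S c Ω l - Eop S c Ω' l := by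
  induction S with
  | nil => simp [Eop_nil_left]
  | cons p S ih => rw [Eop_cons, Eop_cons, Eop_cons, ih, pr_sub, smul_sub]; abel

theorem Eop_mul (S : List Step) (c : ι) (a : R) (Ω : List (ι → ℝ) → R) (l : List (ι → ℝ)) :
    Eop S c (fun m => a * Ω m) l = a * Eop S c Ω l := by
  induction S with
  | nil => simp [Eop_nil_left]
  | cons p S ih => rw [Eop_cons, Eop_cons, ih, pr_mul, mul_add, mul_smul_comm]

theorem Eop_zero (S : List Step) (c : ι) (l : List (ι → ℝ)) :
    Eop S c (fun _ => (0 : R)) l = 0 := by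
  induction S with
  | nil => rfl
  | cons p S ih => rw [Eop_cons, ih, pr_zero', smul_zero, add_zero]

theorem Eop_nil (S : List Step) (c : ι) (Ω : List (ι → ℝ) → R) : Eop S c Ω [] = 0 := by
  induction S with
  | nil => rfl
  | cons p S ih => rw [Eop_cons, ih, pr_nil, smul_zero, add_zero]

theorem Eop_hom {R' : Type*} [CommRing R'] (f : R →+* R') (S : List Step) (c : ι)
    (Ω : List (ι → ℝ) → R) (l : List (ι → ℝ)) :
    f (Eop S c Ω l) = Eop S c (fun m => f (Ω m)) l := by
  induction S with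
  | nil => simp [Eop_nil_left]
  | cons p S ih => rw [Eop_cons, Eop_cons, map_add, ih, map_zsmul, pr_hom]

theorem D_add (S : ι → List Step) (cs : List ι) (Ω Ω' : List (ι → ℝ) → R) :
    D S cs (fun m => Ω m + Ω' m) = D S cs Ω + D S cs Ω' := by
  induction cs generalizing Ω Ω' with
  | nil => rfl
  | cons c cs ih =>
    rw [D_cons, D_cons, D_cons, ← ih]
    congr 1
    funext l
    rw [Eop_add]

theorem D_sub (S : ι → List Step) (cs : List ι) (Ω Ω' : List (ι → ℝ) → R) :
    D S cs (fun m => Ω m - Ω' m) = D S cs Ω - D S cs Ω' := by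
  induction cs generalizing Ω Ω' with
  | nil => rfl
  | cons c cs ih =>
    rw [D_cons, D_cons, D_cons, ← ih]
    congr 1
    funext l
    rw [Eop_sub]

theorem D_mul (S : ι → List Step) (cs : List ι) (a : R) (Ω : List (ι → ℝ) → R) :
    D S cs (fun m => a * Ω m) = a * D S cs Ω := by
  induction cs generalizing Ω with
  | nil => rfl
  | cons c cs ih =>
    rw [D_cons, D_cons, ← ih]
    congr 1
    funext l
    rw [Eop_mul]

theorem D_zero (S : ι → List Step) (cs : List ι) : D S cs (fun _ => (0 : R)) = 0 := by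
  induction cs with
  | nil => rfl
  | cons c cs ih =>
    rw [D_cons]
    have : Eop (S c) c (fun _ => (0 : R)) = fun _ => 0 := by
      funext l; exact Eop_zero _ _ _
    rw [this, ih]

theorem D_hom {R' : Type*} [CommRing R'] (f : R →+* R') (S : ι → List Step) (cs : List ι)
    (Ω : List (ι → ℝ) → R) : f (D S cs Ω) = D S cs (fun m => f (Ω m)) := by
  induction cs generalizing Ω with
  | nil => rfl
  | cons c cs ih =>
    rw [D_cons, D_cons, ih]
    congr 1
    funext l
    rw [Eop_hom]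

/-- lists of points of the cube which are close together, with zeros in the places of `Z` -/
def Sm (δ : ℝ) (Z : Set ι) (m : List (ι → ℝ)) : Prop :=
  (∀ y ∈ m, (∀ c, |y c| ≤ 1 / 2) ∧ ∀ c ∈ Z, y c = 0) ∧
    ∀ y ∈ m, ∀ y' ∈ m, ∀ c, |y c - y' c| ≤ δ

/-- the steps are short and inside the interval -/
def Fine (δ : ℝ) (S : List Step) : Prop :=
  ∀ p ∈ S, |p.2.1| ≤ 1 / 2 ∧ |p.2.2| ≤ 1 / 2 ∧ |p.2.1 - p.2.2| ≤ δ

theorem Sm.sub {δ : ℝ} {Z : Set ι} {m m' : List (ι → ℝ)} (h : Sm δ Z m)
    (h' : ∀ y ∈ m', y ∈ m) : Sm δ Z m' :=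
  ⟨fun y hy => h.1 y (h' y hy), fun y hy y' hy' => h.2 y (h' y hy) y' (h' y' hy')⟩

theorem Sm.mono {δ : ℝ} {Z Z' : Set ι} {m : List (ι → ℝ)} (h : Sm δ Z m)
    (h' : Z' ⊆ Z) : Sm δ Z' m :=
  ⟨fun y hy => ⟨(h.1 y hy).1, fun c hc => (h.1 y hy).2 c (h' hc)⟩, h.2⟩

theorem Sm.step {δ : ℝ} (hδ : 0 ≤ δ) {Z : Set ι} {c : ι} (hc : c ∉ Z) {S : List Step}
    (hS : Fine δ S) {p : Step} (hp : p ∈ S) {l m : List (ι → ℝ)} (hl : Sm δ Z l)
    (hm : ∀ y ∈ m, ∃ x ∈ l, y = upd c p.2.1 x ∨ y = upd c p.2.2 x) : Sm δ Z m := by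
  obtain ⟨h1, h2, h3⟩ := hS p hp
  have key : ∀ y ∈ m, ∃ x ∈ l, ∃ a, (a = p.2.1 ∨ a = p.2.2) ∧ y = upd c a x := by
    intro y hy
    obtain ⟨x, hx, h | h⟩ := hm y hy
    · exact ⟨x, hx, _, Or.inl rfl, h⟩
    · exact ⟨x, hx, _, Or.inr rfl, h⟩
  constructor
  · intro y hy
    obtain ⟨x, hx, a, ha, rfl⟩ := key y hy
    constructor
    · intro c'
      by_cases hc' : c' = c
      · subst hc'
        rw [upd_same]
        rcases ha with rfl | rfl
        · exact h1
        · exact h2
      · rw [upd_ne hc']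
        exact (hl.1 x hx).1 c'
    · intro c' hc'Z
      have hc' : c' ≠ c := by
        rintro rfl
        exact hc hc'Z
      rw [upd_ne hc']
      exact (hl.1 x hx).2 c' hc'Z
  · intro y hy y' hy' c'
    obtain ⟨x, hx, a, ha, rfl⟩ := key y hy
    obtain ⟨x', hx', a', ha', rfl⟩ := key y' hy'
    by_cases hc' : c' = c
    · subst hc'
      rw [upd_same, upd_same]
      rcases ha with rfl | rfl <;> rcases ha' with rfl | rfl
      · simpa using hδ
      · exact h3
      · rw [abs_sub_comm]; exact h3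
      · simpa using hδ
    · rw [upd_ne hc', upd_ne hc']
      exact hl.2 x hx x' hx' c'

theorem D_congr {δ : ℝ} (hδ : 0 ≤ δ) (Z : Set ι) (S : ι → List Step) (cs : List ι)
    (hS : ∀ c ∈ cs, Fine δ (S c)) (hZ : ∀ c ∈ cs, c ∉ Z) (Ω Ω' : List (ι → ℝ) → R)
    (h : ∀ m, Sm δ Z m → Ω m = Ω' m) : D S cs Ω = D S cs Ω' := by
  induction cs generalizing Ω Ω' with
  | nil =>
    apply h
    constructor
    · intro y hy
      rw [List.mem_singleton] at hy
      subst hy
      simp
    · intro y hy y' hy'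
      rw [List.mem_singleton] at hy hy'
      subst hy hy'
      intro c
      simpa using hδ
  | cons c cs ih =>
    rw [D_cons, D_cons]
    apply ih (fun c' hc' => hS c' (by simp [hc'])) (fun c' hc' => hZ c' (by simp [hc']))
    intro l hl
    apply Eop_congr
    intro p hp m hm
    exact h m (hl.step hδ (hZ c (by simp)) (hS c (by simp)) hp hm)

/-- the functional vanishes on lists in one of the two faces given by `c` -/
def Van (c : ι) (Ω : List (ι → ℝ) → R) : Prop :=
  ∀ l : List (ι → ℝ), (∀ x ∈ l, x c = 1 / 2) ∨ (∀ x ∈ l, x c = -(1 / 2)) → Ω l = 0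

theorem Van.Eop {c c' : ι} (h : c ≠ c') {Ω : List (ι → ℝ) → R} (hΩ : Van c Ω) (S : List Step) :
    Van c (Eop S c' Ω) := by
  intro l hl
  have : Ch.Eop S c' Ω l = Ch.Eop S c' (fun _ => (0 : R)) l := by
    apply Eop_congr
    intro p _ m hm
    apply hΩ
    rcases hl with hl | hl
    · left
      intro x hx
      obtain ⟨z, hz, rfl | rfl⟩ := hm x hx
      · rw [upd_ne h]; exact hl z hz
      · rw [upd_ne h]; exact hl z hz
    · right
      intro x hx
      obtain ⟨z, hz, rfl | rfl⟩ := hm x hx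
      · rw [upd_ne h]; exact hl z hz
      · rw [upd_ne h]; exact hl z hz
  rw [this, Eop_zero]

/-- the total difference of a function along a signed path -/
def tot {A : Type} [AddCommGroup A] (f : ℝ → A) : List Step → A
  | [] => 0
  | p :: S => p.1 • (f p.2.2 - f p.2.1) + tot f S

theorem tot_append {A : Type} [AddCommGroup A] (f : ℝ → A) (S T : List Step) :
    tot f (S ++ T) = tot f S + tot f T := by
  induction S with
  | nil => simp [tot]
  | cons p S ih => rw [List.cons_append, tot, tot, ih, add_assoc]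

/-- a signed path from `a` to `b` -/
def IsPath (a b : ℝ) (S : List Step) : Prop :=
  ∀ (A : Type) [AddCommGroup A] (f : ℝ → A), tot f S = f b - f a

end Ops

section Path

variable {R : Type} [CommRing R] {ι : Type*} [DecidableEq ι]

theorem Eop_d_tot (S : List Step) (c : ι) (Ω : List (ι → ℝ) → R) (l : List (ι → ℝ)) :
    Eop S c (d Ω) l + d (Eop S c Ω) l = tot (fun t => Ω (l.map (upd c t))) S := by
  induction S with
  | nil =>
    have : d (Eop [] c Ω) l = 0 := ins_zero' _ _
    rw [this]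
    simp [Eop_nil_left, tot]
  | cons p S ih =>
    have e1 : d (Eop (p :: S) c Ω) l =
        p.1 • ins (fun _ => (1 : R)) l (fun l => pr (upd c p.2.1) (upd c p.2.2) l Ω) +
        d (Eop S c Ω) l := by
      have : Eop (p :: S) c Ω = fun l => (p.1 : R) * pr (upd c p.2.1) (upd c p.2.2) l Ω +
          Eop S c Ω l := by
        funext l; rw [Eop_cons, zsmul_eq_mul]
      unfold d I
      rw [this, ins_add, ins_mul, zsmul_eq_mul]
    rw [e1, Eop_cons, tot, ← ih, ← pr_d (upd c p.2.1) (upd c p.2.2) l Ω, smul_add]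
    abel

theorem Eop_d {a b : ℝ} {S : List Step} (hS : IsPath a b S) (c : ι)
    (Ω : List (ι → ℝ) → R) (l : List (ι → ℝ)) :
    Eop S c (d Ω) l + d (Eop S c Ω) l = Ω (l.map (upd c b)) - Ω (l.map (upd c a)) := by
  rw [Eop_d_tot, hS]

/-- the evaluation of a coboundary vanishes -/
theorem D_d (S : ι → List Step) (cs : List ι) (hcs : cs.Nodup)
    (hS : ∀ c ∈ cs, IsPath (-(1 / 2)) (1 / 2) (S c)) (Ω : List (ι → ℝ) → R) (h0 : Ω [] = 0)
    (hV : ∀ c ∈ cs, Van c Ω) : D S cs (d Ω) = 0 := by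
  induction cs generalizing Ω with
  | nil => simp [D_nil, d, I, ins_cons, ins_nil, h0]
  | cons c cs ih =>
    have hnd := List.nodup_cons.mp hcs
    have e : Eop (S c) c (d Ω) = fun l => - d (Eop (S c) c Ω) l := by
      funext l
      have h := Eop_d (hS c (by simp)) c Ω l
      have h1 : Ω (l.map (upd c (1 / 2))) = 0 := by
        apply hV c (by simp)
        left
        intro x hx
        obtain ⟨y, _, rfl⟩ := List.mem_map.mp hx
        exact upd_same _ _ _
      have h2 : Ω (l.map (upd c (-(1 / 2)))) = 0 := by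
        apply hV c (by simp)
        right
        intro x hx
        obtain ⟨y, _, rfl⟩ := List.mem_map.mp hx
        exact upd_same _ _ _
      rw [h1, h2] at h
      linear_combination h
    rw [D_cons, e]
    have h3 := ih hnd.2 (fun c' hc' => hS c' (by simp [hc'])) (Eop (S c) c Ω) (Eop_nil _ _ _)
      (fun c' hc' => (hV c' (by simp [hc'])).Eop (by
        rintro rfl
        exact hnd.1 hc') _)
    have h4 := D_mul S cs (-1) (d (Eop (S c) c Ω))
    simp only [neg_mul, one_mul] at h4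
    rw [h4, h3, neg_zero]

/-- homotopy invariance -/
theorem D_homotopy {δ : ℝ} (hδ : 0 ≤ δ) (Z : Set ι) (S : ι → List Step) (cs : List ι)
    (hcs : cs.Nodup) (τ : ι) (hτ : τ ∉ cs) (hτZ : τ ∉ Z)
    (hS : ∀ c ∈ cs, IsPath (-(1 / 2)) (1 / 2) (S c)) (hF : ∀ c ∈ cs, Fine δ (S c))
    (hZ : ∀ c ∈ cs, c ∉ Z)
    (T : List Step) (hT : IsPath (-(1 / 2)) (1 / 2) T) (hTF : Fine δ T)
    (Ω : List (ι → ℝ) → R) (hV : ∀ c ∈ cs, Van c Ω)
    (hd : ∀ m, Sm δ Z m → d Ω m = 0) :
    D S cs (fun m => Ω (m.map (upd τ (1 / 2)))) = D S cs (fun m => Ω (m.map (upd τ (-(1 / 2))))) := by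
  have h1 : D S cs (Eop T τ (d Ω)) = 0 := by
    rw [← D_zero (R := R) S cs]
    apply D_congr hδ Z S cs hF hZ
    intro l hl
    rw [← Eop_zero (R := R) T τ l]
    apply Eop_congr
    intro p hp m hm
    exact hd m (hl.step hδ hτZ hTF hp hm)
  have h2 : D S cs (d (Eop T τ Ω)) = 0 := by
    apply D_d S cs hcs hS _ (Eop_nil _ _ _)
    intro c hc
    exact (hV c hc).Eop (by rintro rfl; exact hτ hc) _
  have h3 : D S cs (fun l => Eop T τ (d Ω) l + d (Eop T τ Ω) l) = 0 := by
    rw [D_add, h1, h2, add_zero]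
  have h4 : (fun l => Eop T τ (d Ω) l + d (Eop T τ Ω) l) =
      fun l => Ω (l.map (upd τ (1 / 2))) - Ω (l.map (upd τ (-(1 / 2)))) := by
    funext l
    exact Eop_d hT τ Ω l
  rw [h4, D_sub] at h3
  linear_combination h3

end Path

end Pool.Agent.N508.Ch
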