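import Pool.Agent.N508.GH.Chain2

/-!
# Doubling of a coordinate; the sign involution
-/

set_option autoImplicit false
set_option linter.unusedSectionVars false

namespace Pool.Agent.N508.Ch

section Dbl

variable {R : Type} [CommRing R] {ι : Type*} [DecidableEq ι]

/-- the doubling map of the interval `[-1/2, 1/2]` with its ends identified -/
noncomputable def dg (x : ℝ) : ℝ := if 0 ≤ x then 2 * x - 1 / 2 else 2 * x + 1 / 2

/-- doubling of the coordinate `c` -/
noncomputable def G (c : ι) (x : ι → ℝ) : ι → ℝ := upd c (dg (x c)) x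

/-- normalization of the ends -/
noncomputable def nuc (c : ι) (x : ι → ℝ) : ι → ℝ := if x c = 1 / 2 then upd c (-(1 / 2)) x else x

/-- a reflected and reversed step -/
def rneg (p : Step) : Step := (-p.1, -p.2.1, -p.2.2)

/-- the step in the upper half of the interval which is mapped to the given one by doubling -/
noncomputable def hlf (p : Step) : Step := (p.1, (p.2.1 + 1 / 2) / 2, (p.2.2 + 1 / 2) / 2)

/-- the preimage of a symmetric path under doubling -/
noncomputable def dbl (S : List Step) : List Step := S.map hlf ++ (S.map hlf).map rneg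

/-- a path and its reflection -/
def Symm (S : List Step) : Prop := (S.map rneg).Perm S

theorem rneg_rneg (p : Step) : rneg (rneg p) = p := by
  simp [rneg]

theorem symm_of (e : List Step) : Symm (e ++ e.map rneg) := by
  unfold Symm
  rw [List.map_append, List.map_map]
  have : rneg ∘ rneg = id := by funext p; simp [rneg_rneg]
  rw [this, List.map_id]
  exact List.perm_append_comm

theorem upd_upd (c : ι) (a b : ℝ) (x : ι → ℝ) : upd c a (upd c b x) = upd c a x := by
  simp [upd]

theorem upd_comm {c c' : ι} (h : c ≠ c') (a b : ℝ) (x : ι → ℝ) :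
    upd c a (upd c' b x) = upd c' b (upd c a x) := by
  simp only [upd]
  exact Function.update_comm h.symm _ _ _

theorem G_upd_ne {c c' : ι} (h : c ≠ c') (a : ℝ) (x : ι → ℝ) :
    G c (upd c' a x) = upd c' a (G c x) := by
  unfold G
  rw [upd_ne h, upd_comm h]

theorem nuc_upd_ne {c c' : ι} (h : c ≠ c') (a : ℝ) (x : ι → ℝ) :
    nuc c (upd c' a x) = upd c' a (nuc c x) := by
  unfold nuc
  rw [upd_ne h]
  split_ifs
  · rw [upd_comm h]
  · rfl

/-- invariance under the identification of the ends -/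
def NuInv (c : ι) (Ω : List (ι → ℝ) → R) : Prop := ∀ l, Ω (l.map (nuc c)) = Ω l

theorem Eop_comm_map (S : List Step) (c : ι) (g : (ι → ℝ) → ι → ℝ)
    (hg : ∀ a x, g (upd c a x) = upd c a (g x)) (Ω : List (ι → ℝ) → R) (l : List (ι → ℝ)) :
    Eop S c (fun m => Ω (m.map g)) l = Eop S c Ω (l.map g) := by
  induction S with
  | nil => rfl
  | cons p S ih =>
    rw [Eop_cons, Eop_cons, ih, pr_map_right, pr_map_left]
    simp only [hg]

theorem NuInv.Eop {c c' : ι} (h : c ≠ c') {Ω : List (ι → ℝ) → R} (hΩ : NuInv c Ω)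
    (S : List Step) : NuInv c (Eop S c' Ω) := by
  intro l
  rw [← Eop_comm_map S c' (nuc c) (fun a x => nuc_upd_ne h a x)]
  have : (fun m => Ω (m.map (nuc c))) = Ω := by funext m; exact hΩ m
  rw [this]

theorem dg_hlf (a : ℝ) (ha : |a| ≤ 1 / 2) : dg ((a + 1 / 2) / 2) = a := by
  have h := abs_le.mp ha
  unfold dg
  rw [if_pos (by linarith)]
  ring

theorem nuc_G_neg (c : ι) (a : ℝ) (ha : |a| ≤ 1 / 2) (x : ι → ℝ) :
    nuc c (G c (upd c (-((a + 1 / 2) / 2)) x)) = nuc c (upd c (-a) x) := by
  have h := abs_le.mp ha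
  unfold G
  rw [upd_same, upd_upd]
  by_cases h0 : a = -(1 / 2)
  · subst h0
    have e1 : dg (-((-(1 / 2) + 1 / 2) / 2)) = -(1 / 2) := by
      unfold dg
      rw [if_pos (by norm_num)]
      norm_num
    rw [e1]
    unfold nuc
    rw [upd_same, upd_same, if_neg (by norm_num), if_pos (by norm_num), upd_upd]
  · have : ¬ (0 ≤ -((a + 1 / 2) / 2)) := by
      intro h1
      apply h0
      linarith
    have e1 : dg (-((a + 1 / 2) / 2)) = -a := by
      unfold dg
      rw [if_neg this]
      ring
    rw [e1]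

theorem Eop_dbl (S : List Step) (hS : Symm S) (hb : ∀ p ∈ S, |p.2.1| ≤ 1 / 2 ∧ |p.2.2| ≤ 1 / 2)
    (c : ι) (Ω : List (ι → ℝ) → R) (hΩ : NuInv c Ω) (l : List (ι → ℝ)) :
    Eop (dbl S) c (fun m => Ω (m.map (G c))) l = 2 * Eop S c Ω l := by
  have h1 : ∀ T : List Step, (∀ p ∈ T, |p.2.1| ≤ 1 / 2 ∧ |p.2.2| ≤ 1 / 2) →
      Eop (T.map hlf) c (fun m => Ω (m.map (G c))) l = Eop T c Ω l := by
    intro T hT
    induction T with
    | nil => rfl
    | cons p T ih =>
      rw [List.map_cons, Eop_cons, Eop_cons, ih (fun q hq => hT q (by simp [hq])), pr_map_right]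
      have hp := hT p (by simp)
      have e1 : ∀ x : ι → ℝ, G c (upd c (hlf p).2.1 x) = upd c p.2.1 x := by
        intro x
        unfold G hlf
        simp only
        rw [upd_same, upd_upd, dg_hlf _ hp.1]
      have e2 : ∀ x : ι → ℝ, G c (upd c (hlf p).2.2 x) = upd c p.2.2 x := by
        intro x
        unfold G hlf
        simp only
        rw [upd_same, upd_upd, dg_hlf _ hp.2]
      simp only [e1, e2]
      rfl
  have h2 : ∀ T : List Step, (∀ p ∈ T, |p.2.1| ≤ 1 / 2 ∧ |p.2.2| ≤ 1 / 2) →
      Eop ((T.map hlf).map rneg) c (fun m => Ω (m.map (G c))) l = Eop (T.map rneg) c Ω l := by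
    intro T hT
    induction T with
    | nil => rfl
    | cons p T ih =>
      rw [List.map_cons, List.map_cons, List.map_cons, Eop_cons, Eop_cons,
        ih (fun q hq => hT q (by simp [hq])), pr_map_right]
      have hp := hT p (by simp)
      have e0 : Ω = fun m => Ω (m.map (nuc c)) := by funext m; exact (hΩ m).symm
      have e3 : pr (fun x => G c (upd c (rneg (hlf p)).2.1 x))
          (fun x => G c (upd c (rneg (hlf p)).2.2 x)) l Ω =
          pr (upd c (rneg p).2.1) (upd c (rneg p).2.2) l Ω := by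
        conv_lhs => rw [e0]
        conv_rhs => rw [e0]
        rw [pr_map_right, pr_map_right]
        have e1 : ∀ x : ι → ℝ, nuc c (G c (upd c (rneg (hlf p)).2.1 x)) =
            nuc c (upd c (rneg p).2.1 x) := fun x => nuc_G_neg c p.2.1 hp.1 x
        have e2 : ∀ x : ι → ℝ, nuc c (G c (upd c (rneg (hlf p)).2.2 x)) =
            nuc c (upd c (rneg p).2.2 x) := fun x => nuc_G_neg c p.2.2 hp.2 x
        simp only [e1, e2]
      rw [e3]
      rfl
  unfold dbl
  rw [Eop_append, h1 S hb, h2 S hb, Eop_perm hS]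
  ring

theorem D_congr_S (S S' : ι → List Step) (cs : List ι) (h : ∀ c ∈ cs, S c = S' c)
    (Ω : List (ι → ℝ) → R) : D S cs Ω = D S' cs Ω := by
  induction cs generalizing Ω with
  | nil => rfl
  | cons c cs ih =>
    rw [D_cons, D_cons, h c (by simp), ih (fun c' hc' => h c' (by simp [hc']))]

/-- doubling a coordinate doubles the value -/
theorem D_dbl (S S' : ι → List Step) (cs : List ι) (hcs : cs.Nodup) (c : ι) (hc : c ∈ cs)
    (hS' : S' c = dbl (S c)) (hS'' : ∀ c' ∈ cs, c' ≠ c → S' c' = S c')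
    (hS : Symm (S c)) (hb : ∀ p ∈ S c, |p.2.1| ≤ 1 / 2 ∧ |p.2.2| ≤ 1 / 2)
    (Ω : List (ι → ℝ) → R) (hΩ : NuInv c Ω) :
    D S' cs (fun m => Ω (m.map (G c))) = 2 * D S cs Ω := by
  induction cs generalizing Ω with
  | nil => simp at hc
  | cons c' cs ih =>
    have hnd := List.nodup_cons.mp hcs
    rw [D_cons, D_cons]
    by_cases h : c' = c
    · subst h
      rw [hS']
      have e : Eop (dbl (S c')) c' (fun m => Ω (m.map (G c'))) = fun l => 2 * Eop (S c') c' Ω l := by
        funext l
        exact Eop_dbl (S c') hS hb c' Ω hΩ l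
      rw [e, D_mul]
      congr 1
      apply D_congr_S
      intro c2 hc3
      exact hS'' c2 (by simp [hc3]) (by rintro rfl; exact hnd.1 hc3)
    · have hc2 : c ∈ cs := by
        rcases List.mem_cons.mp hc with h' | h'
        · exact absurd h'.symm h
        · exact h'
      rw [hS'' c' (by simp) h]
      have e : Eop (S c') c' (fun m => Ω (m.map (G c))) = fun m => Eop (S c') c' Ω (m.map (G c)) := by
        funext l
        exact Eop_comm_map (S c') c' (G c) (fun a x => G_upd_ne (Ne.symm h) a x) Ω l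
      rw [e]
      exact ih hnd.2 hc2 (fun c'' hc'' hne => hS'' c'' (by simp [hc'']) hne) _
        (hΩ.Eop (Ne.symm h) _)

end Dbl

section Sign

variable {ι : Type*} [DecidableEq ι]

/-- change of the signs of the coordinates in `Sg` -/
noncomputable def gam (Sg : Set ι) [DecidablePred (· ∈ Sg)] (x : ι → ℝ) : ι → ℝ :=
  fun c => if c ∈ Sg then - x c else x c

variable (Sg : Set ι) [DecidablePred (· ∈ Sg)]

theorem gam_gam (x : ι → ℝ) : gam Sg (gam Sg x) = x := by
  funext c
  unfold gam
  split_ifs <;> simp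

theorem gam_upd_of_mem {c : ι} (hc : c ∈ Sg) (a : ℝ) (x : ι → ℝ) :
    gam Sg (upd c a x) = upd c (-a) (gam Sg x) := by
  funext c'
  by_cases h : c' = c
  · subst h
    simp [gam, hc]
  · rw [upd_ne h]
    simp only [gam, upd_ne h]

theorem gam_upd_of_not_mem {c : ι} (hc : c ∉ Sg) (a : ℝ) (x : ι → ℝ) :
    gam Sg (upd c a x) = upd c a (gam Sg x) := by
  funext c'
  by_cases h : c' = c
  · subst h
    simp [gam, hc]
  · rw [upd_ne h]
    simp only [gam, upd_ne h]

theorem z2_neg (x : ZMod 2) : -x = x := by revert x; decide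

theorem z2_smul_neg (n : ℤ) (x : ZMod 2) : (-n) • x = n • x := by
  rw [neg_smul, z2_neg]

/-- the operator of the reflected path -/
theorem Eop_rneg {c : ι} (hc : c ∈ Sg) (S : List Step) (Ω : List (ι → ℝ) → ZMod 2)
    (l : List (ι → ℝ)) :
    Eop (S.map rneg) c Ω l = Eop S c (fun m => Ω (m.map (gam Sg))) (l.map (gam Sg)) := by
  induction S with
  | nil => rfl
  | cons p S ih =>
    rw [List.map_cons, Eop_cons, Eop_cons, ih, pr_map_right, pr_map_left]
    simp only [gam_upd_of_mem Sg hc, gam_gam]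
    congr 1
    exact z2_smul_neg _ _

theorem Eop_gam {c : ι} (hc : c ∈ Sg) (S : List Step) (hS : Symm S)
    (Ω : List (ι → ℝ) → ZMod 2) (l : List (ι → ℝ)) :
    Eop S c (fun m => Ω (m.map (gam Sg))) l = Eop S c Ω (l.map (gam Sg)) := by
  have h := Eop_rneg Sg hc S Ω (l.map (gam Sg))
  rw [Eop_perm hS, List.map_map] at h
  have e : gam Sg ∘ gam Sg = id := by funext x; exact gam_gam Sg x
  rw [e, List.map_id] at h
  exact h.symm

/-- the chain is invariant modulo two -/
theorem D_gam (S : ι → List Step) (cs : List ι) (hS : ∀ c ∈ cs, c ∈ Sg → Symm (S c))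
    (Ω : List (ι → ℝ) → ZMod 2) : D S cs (fun m => Ω (m.map (gam Sg))) = D S cs Ω := by
  induction cs generalizing Ω with
  | nil =>
    rw [D_nil, D_nil]
    have : gam Sg (0 : ι → ℝ) = 0 := by
      funext c
      simp [gam]
    simp [this]
  | cons c cs ih =>
    rw [D_cons, D_cons]
    by_cases hc : c ∈ Sg
    · have e : Eop (S c) c (fun m => Ω (m.map (gam Sg))) =
          fun m => Eop (S c) c Ω (m.map (gam Sg)) := by
        funext l
        exact Eop_gam Sg hc (S c) (hS c (by simp) hc) Ω l
      rw [e]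
      exact ih (fun c' hc' => hS c' (by simp [hc'])) _
    · have e : Eop (S c) c (fun m => Ω (m.map (gam Sg))) =
          fun m => Eop (S c) c Ω (m.map (gam Sg)) := by
        funext l
        exact Eop_comm_map (S c) c (gam Sg) (fun a x => gam_upd_of_not_mem Sg hc a x) Ω l
      rw [e]
      exact ih (fun c' hc' => hS c' (by simp [hc'])) _

/-- one step of the reduction to the fixed points -/
theorem D_sign_step {δ : ℝ} (hδ : 0 ≤ δ) (Z : Set ι) (S : ι → List Step) (c : ι) (cs : List ι)
    (hcs : (c :: cs).Nodup) (hc : c ∈ Sg)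
    (e : List Step) (he : IsPath 0 (1 / 2) e) (hSc : S c = e ++ e.map rneg)
    (hS : ∀ c' ∈ cs, IsPath (-(1 / 2)) (1 / 2) (S c')) (hF : ∀ c' ∈ cs, Fine δ (S c'))
    (heF : Fine δ e) (hsym : ∀ c' ∈ cs, c' ∈ Sg → Symm (S c')) (hZ : ∀ c' ∈ cs, c' ∉ Z)
    (hcZ : c ∉ Z)
    (κ κ' : List (ι → ℝ) → ZMod 2) (hV : ∀ c' ∈ c :: cs, Van c' κ)
    (hκ : ∀ m, Sm δ Z m → d κ m = κ' m + κ' (m.map (gam Sg))) :
    D S (c :: cs) κ' = D S cs κ := by
  have hnd := List.nodup_cons.mp hcs
  have h1 : D S (c :: cs) κ' = D S cs (fun l => Eop e c κ' l +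
      Eop e c (fun m => κ' (m.map (gam Sg))) (l.map (gam Sg))) := by
    rw [D_cons]
    congr 1
    funext l
    rw [hSc, Eop_append, Eop_rneg Sg hc]
  have h2 : D S cs (fun l => Eop e c (fun m => κ' (m.map (gam Sg))) (l.map (gam Sg))) =
      D S cs (Eop e c (fun m => κ' (m.map (gam Sg)))) := D_gam Sg S cs hsym _
  rw [h1, D_add, h2, ← D_add]
  have h3 : D S cs (fun m => Eop e c κ' m + Eop e c (fun m => κ' (m.map (gam Sg))) m) =
      D S cs (Eop e c (d κ)) := by
    apply D_congr hδ Z S cs hF hZ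
    intro l hl
    rw [← Eop_add]
    apply Eop_congr
    intro p hp m hm
    exact (hκ m (hl.step hδ hcZ heF hp hm)).symm
  rw [h3]
  have h4 : D S cs (d (Eop e c κ)) = 0 := by
    apply D_d S cs hnd.2 hS _ (Eop_nil _ _ _)
    intro c' hc'
    exact (hV c' (by simp [hc'])).Eop (by rintro rfl; exact hnd.1 hc') _
  have h5 : (fun l => Eop e c (d κ) l + d (Eop e c κ) l) =
      fun l => κ (l.map (upd c (1 / 2))) - κ (l.map (upd c 0)) := by
    funext l
    exact Eop_d he c κ l
  have h6 : D S cs (Eop e c (d κ)) =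
      D S cs (fun l => κ (l.map (upd c (1 / 2))) - κ (l.map (upd c 0))) := by
    rw [← h5, D_add, h4, add_zero]
  rw [h6]
  -- the first term vanishes, the second is `κ` on lists with zero coordinate `c`
  have h7 : D S cs (fun l => κ (l.map (upd c (1 / 2))) - κ (l.map (upd c 0))) =
      D S cs κ := by
    apply D_congr hδ {c} S cs hF
    · intro c' hc' h
      rw [Set.mem_singleton_iff] at h
      subst h
      exact hnd.1 hc'
    · intro m hm
      have e1 : κ (m.map (upd c (1 / 2))) = 0 := by
        apply hV c (by simp)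
        left
        intro x hx
        obtain ⟨y, _, rfl⟩ := List.mem_map.mp hx
        exact upd_same _ _ _
      have e2 : m.map (upd c 0) = m := by
        conv_rhs => rw [← List.map_id m]
        apply List.map_congr_left
        intro y hy
        have := (hm.1 y hy).2 c (by simp)
        funext c'
        by_cases h : c' = c
        · subst h
          rw [upd_same, id, this]
        · rw [upd_ne h, id]
      rw [e1, e2, zero_sub, z2_neg]
  exact h7

end Sign

end Pool.Agent.N508.Ch
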