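import Pool.Agent.N508.GH.Chain3

/-!
# Labels, the degree functional and its parity
-/

set_option autoImplicit false
set_option linter.unusedSectionVars false

namespace Pool.Agent.N508.Ch

section Path

/-- a symmetric path: a path from `0` to `1/2` and its reflection -/
def Good (δ : ℝ) (S : List Step) : Prop :=
  ∃ e : List Step, IsPath 0 (1 / 2) e ∧ Fine δ e ∧ S = e ++ e.map rneg

theorem tot_map_rneg {A : Type} [AddCommGroup A] (f : ℝ → A) (S : List Step) :
    tot f (S.map rneg) = - tot (fun t => f (-t)) S := by
  induction S with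
  | nil => simp [tot]
  | cons p S ih =>
    rw [List.map_cons, tot, tot, ih]
    simp only [rneg]
    rw [neg_smul]
    abel

theorem tot_map_hlf {A : Type} [AddCommGroup A] (f : ℝ → A) (S : List Step) :
    tot f (S.map hlf) = tot (fun t => f ((t + 1 / 2) / 2)) S := by
  induction S with
  | nil => simp [tot]
  | cons p S ih =>
    rw [List.map_cons, tot, tot, ih]
    rfl

theorem Fine.append {δ : ℝ} {S T : List Step} (hS : Fine δ S) (hT : Fine δ T) :
    Fine δ (S ++ T) := by
  intro p hp
  rcases List.mem_append.mp hp with h | h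
  · exact hS p h
  · exact hT p h

theorem Fine.map_rneg {δ : ℝ} {S : List Step} (hS : Fine δ S) : Fine δ (S.map rneg) := by
  intro p hp
  obtain ⟨q, hq, rfl⟩ := List.mem_map.mp hp
  obtain ⟨h1, h2, h3⟩ := hS q hq
  refine ⟨by simpa [rneg] using h1, by simpa [rneg] using h2, ?_⟩
  have : (rneg q).2.1 - (rneg q).2.2 = -(q.2.1 - q.2.2) := by simp [rneg]; ring
  rw [this, abs_neg]
  exact h3

theorem Fine.map_hlf {δ : ℝ} {S : List Step} (hS : Fine δ S) : Fine δ (S.map hlf) := by
  intro p hp
  obtain ⟨q, hq, rfl⟩ := List.mem_map.mp hp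
  obtain ⟨h1, h2, h3⟩ := hS q hq
  have h1' := abs_le.mp h1
  have h2' := abs_le.mp h2
  have h3' := abs_le.mp h3
  have h4 : 0 ≤ δ := (abs_nonneg _).trans h3
  refine ⟨?_, ?_, ?_⟩
  · rw [abs_le]; simp only [hlf]; constructor <;> linarith
  · rw [abs_le]; simp only [hlf]; constructor <;> linarith
  · rw [abs_le]; simp only [hlf]; constructor <;> linarith

theorem Good.fine {δ : ℝ} {S : List Step} (h : Good δ S) : Fine δ S := by
  obtain ⟨e, _, h2, rfl⟩ := h
  exact h2.append h2.map_rneg

theorem Good.symm {δ : ℝ} {S : List Step} (h : Good δ S) : Symm S := by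
  obtain ⟨e, _, _, rfl⟩ := h
  exact symm_of e

theorem Good.path {δ : ℝ} {S : List Step} (h : Good δ S) : IsPath (-(1 / 2)) (1 / 2) S := by
  obtain ⟨e, h1, _, rfl⟩ := h
  intro A _ f
  rw [tot_append, tot_map_rneg, h1 A f, h1 A (fun t => f (-t))]
  simp

theorem Good.dbl {δ : ℝ} {S : List Step} (h : Good δ S) : Good δ (dbl S) := by
  refine ⟨S.map hlf, ?_, h.fine.map_hlf, rfl⟩
  intro A _ f
  rw [tot_map_hlf, h.path A]
  norm_num

theorem Good.bound {δ : ℝ} {S : List Step} (h : Good δ S) :
    ∀ p ∈ S, |p.2.1| ≤ 1 / 2 ∧ |p.2.2| ≤ 1 / 2 :=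
  fun p hp => ⟨(h.fine p hp).1, (h.fine p hp).2.1⟩

theorem exists_good {δ : ℝ} (hδ : 0 < δ) : ∃ S, Good δ S := by
  obtain ⟨N, hN⟩ := exists_nat_gt (1 / (2 * δ))
  have hN0 : 0 < (N : ℝ) := lt_trans (by positivity) hN
  have hN1 : 1 < N * (2 * δ) := by
    rw [div_lt_iff₀ (by positivity)] at hN
    exact hN
  refine ⟨_, (List.range N).map (fun k : ℕ => ((1 : ℤ), (k : ℝ) / (2 * N),
    ((k + 1 : ℕ) : ℝ) / (2 * N))), ?_, ?_, rfl⟩
  · intro A _ f
    have : ∀ n : ℕ, tot f ((List.range n).map (fun k : ℕ => ((1 : ℤ), (k : ℝ) / (2 * N),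
        ((k + 1 : ℕ) : ℝ) / (2 * N)))) = f ((n : ℝ) / (2 * N)) - f 0 := by
      intro n
      induction n with
      | zero => simp [tot]
      | succ n ih =>
        rw [List.range_succ, List.map_append, tot_append, ih]
        simp [tot]
    rw [this N]
    congr 2
    field_simp
  · intro p hp
    obtain ⟨k, hk, rfl⟩ := List.mem_map.mp hp
    have hk' : (k : ℝ) + 1 ≤ N := by
      exact_mod_cast List.mem_range.mp hk
    have hk0 : (0 : ℝ) ≤ k := Nat.cast_nonneg k
    simp only
    push_cast
    refine ⟨?_, ?_, ?_⟩
    · rw [abs_of_nonneg (by positivity), div_le_iff₀ (by positivity)]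
      linarith
    · rw [abs_of_nonneg (by positivity), div_le_iff₀ (by positivity)]
      linarith
    · have : (k : ℝ) / (2 * N) - (k + 1) / (2 * N) = -(1 / (2 * N)) := by ring
      rw [this, abs_neg, abs_of_nonneg (by positivity), div_le_iff₀ (by positivity)]
      linarith

end Path

section Label

variable {R : Type} [CommRing R] {ι : Type} [DecidableEq ι]

/-- labels -/
abbrev Lab (ι : Type) := Option ι × Bool

/-- the antipode of a label -/
def anti (y : Lab ι) : Lab ι := (y.1, !y.2)

/-- the indicator function of a label -/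
def ind (R : Type) [CommRing R] {E : Type*} (lam : E → Lab ι) (y : Lab ι) : E → R :=
  fun x => if lam x = y then 1 else 0

/-- the indicator of the empty list -/
def eps (R : Type) [CommRing R] {E : Type*} : List E → R := fun l => if l.length = 0 then 1 else 0

/-- the degree functional -/
def Om (R : Type) [CommRing R] {E : Type*} (lam : E → Lab ι) : List ι → List E → R
  | [] => I (ind R lam (none, false)) (eps R)
  | c :: cs => I (ind R lam (some c, true)) (Om R lam cs)

/-- no two labels of the list are antipodal -/
def AF {E : Type*} (lam : E → Lab ι) (l : List E) : Prop :=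
  ∀ x ∈ l, ∀ x' ∈ l, lam x ≠ anti (lam x')

theorem AF.sub {E : Type*} {lam : E → Lab ι} {l l' : List E} (h : AF lam l)
    (h' : ∀ x ∈ l', x ∈ l) : AF lam l' :=
  fun x hx x' hx' => h x (h' x hx) x' (h' x' hx')

variable {E : Type*} (lam : E → Lab ι)

theorem Om_nil_list (cs : List ι) : Om R lam cs [] = 0 := by
  cases cs <;> rfl

theorem Om_map {E' : Type*} (g : E' → E) (cs : List ι) (l : List E') :
    Om R lam cs (l.map g) = Om R (fun x => lam (g x)) cs l := by
  induction cs generalizing l with
  | nil =>
    simp only [Om, I]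
    rw [ins_map]
    congr 1
    funext m
    simp [eps]
  | cons c cs ih =>
    simp only [Om, I]
    rw [ins_map]
    congr 1
    funext m
    exact ih m

theorem Om_congr {lam' : E → Lab ι} (cs : List ι) (l : List E) (h : ∀ x ∈ l, lam x = lam' x) :
    Om R lam cs l = Om R lam' cs l := by
  induction cs generalizing l with
  | nil =>
    simp only [Om, I]
    apply ins_congr
    · intro x hx
      simp only [ind, h x hx]
    · intro m _
      rfl
  | cons c cs ih =>
    simp only [Om, I]
    apply ins_congr
    · intro x hx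
      simp only [ind, h x hx]
    · intro m hm
      exact ih m (fun x hx => h x (hm x hx))

theorem Om_cast (cs : List ι) (l : List E) : ((Om ℤ lam cs l : ℤ) : ZMod 2) = Om (ZMod 2) lam cs l := by
  have : ∀ z : ℤ, (z : ZMod 2) = Int.castRingHom (ZMod 2) z := fun z => rfl
  induction cs generalizing l with
  | nil =>
    simp only [Om, I]
    rw [this, ins_hom]
    congr 1
    · funext x
      simp only [ind]
      split_ifs <;> simp
    · funext m
      simp only [eps]
      split_ifs <;> simp
  | cons c cs ih =>
    simp only [Om, I]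
    rw [this, ins_hom]
    congr 1
    · funext x
      simp only [ind]
      split_ifs <;> simp
    · funext m
      exact ih m

theorem anti_anti (y : Lab ι) : anti (anti y) = y := by
  simp [anti]

theorem ins_ind_anti (t : Lab ι) (l : List E) (hl : AF lam l) (Ω : List E → R) :
    ins (ind R lam (anti t)) l (I (ind R lam t) Ω) = 0 := by
  apply ins_ins_eq_zero
  intro x hx y hy
  simp only [ind]
  split_ifs with h1 h2
  · exfalso
    exact hl x hx y hy (by rw [h1, h2])
  · simp
  · simp
  · simp

/-- the product with (the antipode of) a target vanishes -/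
theorem ins_target (cs : List ι) (y : Lab ι) (l : List E) (hl : AF lam l)
    (hy : y.1 = none ∨ ∃ c ∈ cs, y.1 = some c) : ins (ind R lam y) l (Om R lam cs) = 0 := by
  have key : ∀ (t : Lab ι) (Ω : List E → R) (l : List E), AF lam l → y.1 = t.1 →
      ins (ind R lam y) l (I (ind R lam t) Ω) = 0 := by
    intro t Ω l hl h
    by_cases h2 : y.2 = t.2
    · have : y = t := Prod.ext h h2
      rw [this]
      exact ins_self _ _ _
    · have : y = anti t := by
        refine Prod.ext h ?_
        simp only [anti]
        revert h2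
        cases y.2 <;> cases t.2 <;> simp
      rw [this]
      exact ins_ind_anti lam t l hl Ω
  induction cs generalizing l with
  | nil =>
    rcases hy with hy | ⟨c, hc, _⟩
    · exact key (none, false) _ l hl hy
    · simp at hc
  | cons c cs ih =>
    by_cases h : y.1 = some c
    · exact key (some c, true) _ l hl h
    · have h1 := ins_anti (ind R lam y) (ind R lam (some c, true)) l (Om R lam cs)
      have h2 : ins (ind R lam (some c, true)) l (I (ind R lam y) (Om R lam cs)) = 0 := by
        rw [← ins_zero' (R := R) (ind R lam (some c, true)) l]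
        apply ins_congr
        · intro x _; rfl
        · intro m hm
          apply ih m (hl.sub hm)
          rcases hy with hy | ⟨c', hc', hy⟩
          · exact Or.inl hy
          · right
            rcases List.mem_cons.mp hc' with rfl | hc'
            · exact absurd hy h
            · exact ⟨c', hc', hy⟩
      rw [h2, add_zero] at h1
      exact h1

/-- the set of the labels with a coordinate in the list (or none) -/
def labs (cs : List ι) : Finset (Lab ι) :=
  (insert none (cs.map some).toFinset) ×ˢ (Finset.univ : Finset Bool)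

theorem mem_labs (cs : List ι) (y : Lab ι) : y ∈ labs cs ↔ (y.1 = none ∨ ∃ c ∈ cs, y.1 = some c) := by
  simp only [labs, Finset.mem_product, Finset.mem_insert, List.mem_toFinset, List.mem_map,
    Finset.mem_univ, and_true]
  constructor
  · rintro (h | ⟨c, hc, h⟩)
    · exact Or.inl h
    · exact Or.inr ⟨c, hc, h.symm⟩
  · rintro (h | ⟨c, hc, h⟩)
    · exact Or.inl h
    · exact Or.inr ⟨c, hc, h.symm⟩

theorem sum_ind (A : Finset (Lab ι)) (x : E) (h : lam x ∈ A) : ∑ y ∈ A, ind R lam y x = 1 := by
  simp only [ind]
  rw [Finset.sum_ite_eq]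
  simp [h]

theorem ins_one (A : Finset (Lab ι)) (l : List E) (h : ∀ x ∈ l, lam x ∈ A) (Ω : List E → R) :
    ins (fun _ => 1) l Ω = ∑ y ∈ A, ins (ind R lam y) l Ω := by
  rw [← ins_sum_left]
  apply ins_congr
  · intro x hx
    exact (sum_ind lam A x (h x hx)).symm
  · intro m _
    rfl

/-- the degree functional is a cocycle on lists without antipodal labels -/
theorem d_Om (cs : List ι) (l : List E) (hl : AF lam l)
    (h : ∀ x ∈ l, (lam x).1 = none ∨ ∃ c ∈ cs, (lam x).1 = some c) :
    d (Om R lam cs) l = 0 := by
  unfold d I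
  rw [ins_one lam (labs cs) l (fun x hx => (mem_labs cs _).mpr (h x hx))]
  apply Finset.sum_eq_zero
  intro y hy
  exact ins_target lam cs y l hl ((mem_labs cs y).mp hy)

theorem Om_eq_zero (cs : List ι) (l : List E) (h : ∀ x ∈ l, lam x ≠ (none, false)) :
    Om R lam cs l = 0 := by
  induction cs generalizing l with
  | nil =>
    simp only [Om, I]
    rw [← ins_zero_left l (eps R)]
    apply ins_congr
    · intro x hx
      simp [ind, h x hx]
    · intro m _
      rfl
  | cons c cs ih =>
    simp only [Om, I]
    rw [← ins_zero' (R := R) (ind R lam (some c, true)) l]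
    apply ins_congr
    · intro x _; rfl
    · intro m hm
      exact ih m (fun x hx => h x (hm x hx))

end Label

section Fan

variable {ι : Type} [DecidableEq ι] {E : Type*} (lam : E → Lab ι)

/-- the indicator of the label with coordinate `c` and sign the parity of `b` -/
def sgi (c : ι) (b : ℕ) : E → ZMod 2 := ind (ZMod 2) lam (some c, decide (b % 2 = 0))

/-- sums over alternating patterns of sign labels -/
def Al (triv : List ι) (p : ℕ) : List ι → ℕ → List E → ZMod 2
  | _, 0 => Om (ZMod 2) lam triv
  | [], _ + 1 => fun _ => 0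
  | c :: l, r + 1 => fun m => Al triv p l (r + 1) m +
      I (sgi lam c (p + l.length + r)) (Al triv p l r) m

theorem Al_zero (triv : List ι) (p : ℕ) (l : List ι) : Al lam triv p l 0 = Om (ZMod 2) lam triv := by
  cases l <;> rfl

theorem Al_cons (triv : List ι) (p : ℕ) (c : ι) (l : List ι) (r : ℕ) :
    Al lam triv p (c :: l) (r + 1) = fun m => Al lam triv p l (r + 1) m +
      I (sgi lam c (p + l.length + r)) (Al lam triv p l r) m := rfl

theorem Al_gt (triv : List ι) (p : ℕ) (l : List ι) (r : ℕ) (h : l.length < r) :
    Al lam triv p l r = fun _ => 0 := by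
  induction l generalizing r with
  | nil =>
    cases r with
    | zero => simp at h
    | succ r => rfl
  | cons c l ih =>
    cases r with
    | zero => simp at h
    | succ r =>
      simp only [List.length_cons] at h
      rw [Al_cons, ih (r + 1) (by omega), ih r (by omega)]
      funext m
      simp only [I, ins_zero', add_zero]

theorem Al_top (triv : List ι) (l : List ι) :
    Al lam triv 0 l l.length = Om (ZMod 2) lam (l ++ triv) := by
  induction l with
  | nil => rfl
  | cons c l ih =>
    rw [List.length_cons, Al_cons, Al_gt lam triv 0 l (l.length + 1) (by omega), ih]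
    funext m
    simp only [zero_add, List.cons_append, Om, sgi]
    have : decide ((l.length + l.length) % 2 = 0) = true := by
      simp only [decide_eq_true_eq]
      omega
    rw [this]

/-- sum of the products with the sign labels -/
def SS : List ι → List E → (List E → ZMod 2) → ZMod 2
  | [], _, _ => 0
  | c :: l, m, Ω => ins (ind (ZMod 2) lam (some c, true)) m Ω +
      ins (ind (ZMod 2) lam (some c, false)) m Ω + SS l m Ω

theorem z2_self (x : ZMod 2) : x + x = 0 := by revert x; decide

theorem ins_comm2 (s t : E → ZMod 2) (l : List E) (Ω : List E → ZMod 2) :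
    ins s l (I t Ω) = ins t l (I s Ω) := by
  have h1 := ins_anti s t l Ω
  have h2 := z2_self (ins t l (I s Ω))
  linear_combination h1 - h2

theorem SS_add (l : List ι) (m : List E) (Ω Ω' : List E → ZMod 2) :
    SS lam l m (fun m => Ω m + Ω' m) = SS lam l m Ω + SS lam l m Ω' := by
  induction l with
  | nil => simp [SS]
  | cons c l ih => simp only [SS, ih, ins_add]; ring

theorem SS_comm (u : E → ZMod 2) (l : List ι) (m : List E) (Ω : List E → ZMod 2) :
    SS lam l m (I u Ω) = ins u m (fun m' => SS lam l m' Ω) := by
  induction l with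
  | nil => simp [SS, ins_zero']
  | cons c l ih =>
    simp only [SS, ih]
    rw [ins_comm2, ins_comm2 (ind (ZMod 2) lam (some c, false)), ins_add, ins_add]
    rfl

theorem SS_congr (l : List ι) (m : List E) (Ω Ω' : List E → ZMod 2)
    (h : ∀ m', (∀ x ∈ m', x ∈ m) → Ω m' = Ω' m') : SS lam l m Ω = SS lam l m Ω' := by
  induction l with
  | nil => rfl
  | cons c l ih =>
    simp only [SS, ih]
    rw [ins_congr _ _ m Ω Ω' (fun x _ => rfl) h, ins_congr _ _ m Ω Ω' (fun x _ => rfl) h]

theorem sgi_pair (c : ι) (b b' : ℕ) (h : (b + b') % 2 = 1) (m : List E) (Ω : List E → ZMod 2) :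
    ins (ind (ZMod 2) lam (some c, true)) m Ω + ins (ind (ZMod 2) lam (some c, false)) m Ω =
      ins (sgi lam c b) m Ω + ins (sgi lam c b') m Ω := by
  unfold sgi
  rcases Nat.mod_two_eq_zero_or_one b with hb | hb
  · have hb' : b' % 2 = 1 := by omega
    simp [hb, hb']
  · have hb' : b' % 2 = 0 := by omega
    simp only [hb, hb', one_ne_zero, decide_false, decide_true]
    ring

theorem sgi_sq (c : ι) (b : ℕ) (u : Bool) (m : List E) (hm : AF lam m) (Ω : List E → ZMod 2) :
    ins (ind (ZMod 2) lam (some c, u)) m (I (sgi lam c b) Ω) = 0 := by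
  unfold sgi
  by_cases h : u = decide (b % 2 = 0)
  · rw [h]
    exact ins_self _ _ _
  · have : ((some c, u) : Lab ι) = anti (some c, decide (b % 2 = 0)) := by
      simp only [anti]
      congr 1
      revert h
      cases u <;> cases decide (b % 2 = 0) <;> simp
    rw [this]
    exact ins_ind_anti lam _ m hm Ω

/-- the main identity for alternating patterns -/
theorem SS_Al (triv : List ι) (l : List ι) (p : ℕ) (hp : p < 2) (r : ℕ) (m : List E)
    (hm : AF lam m) :
    SS lam l m (Al lam triv p l r) = Al lam triv 0 l (r + 1) m + Al lam triv 1 l (r + 1) m := by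
  induction l generalizing p r m with
  | nil => simp [SS, Al]
  | cons c l ih =>
    cases r with
    | zero =>
      have h := ih p hp 0 m hm
      rw [Al_zero] at h ⊢
      simp only [SS]
      rw [h, Al_cons, Al_cons, Al_zero, Al_zero]
      simp only [I]
      rw [sgi_pair lam c (0 + l.length + 0) (1 + l.length + 0) (by omega)]
      ring
    | succ r =>
      have h1 := ih p hp (r + 1) m hm
      have h2 : ∀ m' : List E, AF lam m' → SS lam l m' (Al lam triv p l r) =
          Al lam triv 0 l (r + 1) m' + Al lam triv 1 l (r + 1) m' := fun m' hm' => ih p hp r m' hm'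
      rw [Al_cons, SS_add]
      simp only [SS]
      have e1 : SS lam l m (I (sgi lam c (p + l.length + r)) (Al lam triv p l r)) =
          ins (sgi lam c (p + l.length + r)) m
            (fun m' => Al lam triv 0 l (r + 1) m' + Al lam triv 1 l (r + 1) m') := by
        rw [SS_comm]
        apply ins_congr
        · intro x _; rfl
        · intro m' hm'
          exact h2 m' (hm.sub hm')
      have e2 : ins (ind (ZMod 2) lam (some c, true)) m
          (I (sgi lam c (p + l.length + r)) (Al lam triv p l r)) = 0 := sgi_sq lam c _ _ m hm _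
      have e3 : ins (ind (ZMod 2) lam (some c, false)) m
          (I (sgi lam c (p + l.length + r)) (Al lam triv p l r)) = 0 := sgi_sq lam c _ _ m hm _
      have e4 := sgi_pair lam c (p + l.length + r) (p + l.length + (r + 1)) (by omega) m
        (Al lam triv p l (r + 1))
      rw [e1, ins_add, e2, e3, h1, Al_cons, Al_cons]
      simp only [I]
      have par : ∀ b b' : ℕ, b % 2 = b' % 2 → sgi lam c b = sgi lam c b' := by
        intro b b' hb
        unfold sgi
        rw [hb]
      have e5 := z2_self (ins (sgi lam c (p + l.length + r)) m (Al lam triv p l (r + 1)))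
      interval_cases p
      · rw [par (1 + l.length + (r + 1)) (0 + l.length + r) (by omega)]
        linear_combination e4 + e5
      · rw [par (0 + l.length + (r + 1)) (1 + l.length + r) (by omega)]
        linear_combination e4 + e5

/-- the product with a trivial label vanishes -/
theorem ins_triv_Al (triv : List ι) (l : List ι) (p r : ℕ) (y : Lab ι) (m : List E)
    (hm : AF lam m) (hy : y.1 = none ∨ ∃ c ∈ triv, y.1 = some c) :
    ins (ind (ZMod 2) lam y) m (Al lam triv p l r) = 0 := by
  induction l generalizing r m with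
  | nil =>
    cases r with
    | zero => exact ins_target lam triv y m hm hy
    | succ r => exact ins_zero' _ _
  | cons c l ih =>
    cases r with
    | zero => exact ins_target lam triv y m hm hy
    | succ r =>
      rw [Al_cons, ins_add, ih (r + 1) m hm, ins_comm2]
      have : ins (sgi lam c (p + l.length + r)) m
          (I (ind (ZMod 2) lam y) (Al lam triv p l r)) = 0 := by
        rw [← ins_zero' (R := ZMod 2) (sgi lam c (p + l.length + r)) m]
        apply ins_congr
        · intro x _; rfl
        · intro m' hm'
          exact ih r m' (hm.sub hm')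
      rw [this, add_zero]

theorem sum_sign (sgs : List ι) (hn : sgs.Nodup) (m : List E) (Ω : List E → ZMod 2) :
    ∑ y ∈ ((sgs.map some).toFinset ×ˢ (Finset.univ : Finset Bool)),
      ins (ind (ZMod 2) lam y) m Ω = SS lam sgs m Ω := by
  induction sgs with
  | nil => simp [SS]
  | cons c l ih =>
    have hnd := List.nodup_cons.mp hn
    have hc : (some c : Option ι) ∉ (l.map some).toFinset := by
      simp [hnd.1]
    have h1 := ih hnd.2
    rw [Finset.sum_product] at h1
    rw [List.map_cons, List.toFinset_cons, Finset.sum_product, Finset.sum_insert hc, h1]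
    simp [SS]

/-- the coboundary of the sum over alternating patterns -/
theorem d_Al (sgs triv : List ι) (hn : sgs.Nodup) (hdis : ∀ c ∈ sgs, c ∉ triv) (r : ℕ)
    (m : List E) (hm : AF lam m)
    (h : ∀ x ∈ m, (lam x).1 = none ∨ ∃ c ∈ sgs ++ triv, (lam x).1 = some c) :
    d (Al lam triv 0 sgs r) m = Al lam triv 0 sgs (r + 1) m + Al lam triv 1 sgs (r + 1) m := by
  have hA : labs (sgs ++ triv) = labs triv ∪
      ((sgs.map some).toFinset ×ˢ (Finset.univ : Finset Bool)) := by
    ext y
    rw [mem_labs, Finset.mem_union, mem_labs]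
    simp only [List.mem_append, Finset.mem_product, List.mem_toFinset, List.mem_map,
      Finset.mem_univ, and_true]
    constructor
    · rintro (h | ⟨c, hc | hc, h⟩)
      · exact Or.inl (Or.inl h)
      · exact Or.inr ⟨c, hc, h.symm⟩
      · exact Or.inl (Or.inr ⟨c, hc, h⟩)
    · rintro ((h | ⟨c, hc, h⟩) | ⟨c, hc, h⟩)
      · exact Or.inl h
      · exact Or.inr ⟨c, Or.inr hc, h⟩
      · exact Or.inr ⟨c, Or.inl hc, h.symm⟩
  have hdj : Disjoint (labs triv)
      ((sgs.map some).toFinset ×ˢ (Finset.univ : Finset Bool)) := by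
    rw [Finset.disjoint_left]
    intro y hy hy'
    rw [mem_labs] at hy
    simp only [Finset.mem_product, List.mem_toFinset, List.mem_map, Finset.mem_univ,
      and_true] at hy'
    obtain ⟨c, hc, h'⟩ := hy'
    rcases hy with hy | ⟨c', hc', hy⟩
    · rw [hy] at h'
      simp at h'
    · rw [hy] at h'
      simp only [Option.some.injEq] at h'
      subst h'
      exact hdis c hc hc'
  unfold d I
  rw [ins_one lam (labs (sgs ++ triv)) m (fun x hx => (mem_labs _ _).mpr (h x hx)), hA,
    Finset.sum_union hdj, sum_sign lam sgs hn, SS_Al lam triv sgs 0 (by norm_num) r m hm]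
  have : ∑ y ∈ labs triv, ins (ind (ZMod 2) lam y) m (Al lam triv 0 sgs r) = 0 := by
    apply Finset.sum_eq_zero
    intro y hy
    exact ins_triv_Al lam triv sgs 0 r y m hm ((mem_labs triv y).mp hy)
  rw [this, zero_add]

theorem Al_eq_zero (triv : List ι) (l : List ι) (p r : ℕ) (m : List E)
    (h : ∀ x ∈ m, lam x ≠ (none, false)) : Al lam triv p l r m = 0 := by
  induction l generalizing r m with
  | nil =>
    cases r with
    | zero => exact Om_eq_zero lam triv m h
    | succ r => rfl
  | cons c l ih =>
    cases r with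
    | zero => exact Om_eq_zero lam triv m h
    | succ r =>
      rw [Al_cons]
      simp only [I]
      rw [ih (r + 1) m h]
      have : ins (sgi lam c (p + l.length + r)) m (Al lam triv p l r) = 0 := by
        rw [← ins_zero' (R := ZMod 2) (sgi lam c (p + l.length + r)) m]
        apply ins_congr
        · intro x _; rfl
        · intro m' hm'
          exact ih r m' (fun x hx => h x (hm' x hx))
      rw [this, add_zero]

/-- the action of the involution on labels -/
def gl (Sg : Set ι) [DecidablePred (· ∈ Sg)] (y : Lab ι) : Lab ι :=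
  match y.1 with
  | none => y
  | some c => if c ∈ Sg then anti y else y

theorem gl_none (Sg : Set ι) [DecidablePred (· ∈ Sg)] (b : Bool) : gl Sg (none, b) = (none, b) := rfl

theorem gl_some (Sg : Set ι) [DecidablePred (· ∈ Sg)] (c : ι) (b : Bool) :
    gl Sg (some c, b) = if c ∈ Sg then (some c, !b) else (some c, b) := rfl

theorem gl_fst (Sg : Set ι) [DecidablePred (· ∈ Sg)] (y : Lab ι) : (gl Sg y).1 = y.1 := by
  obtain ⟨y1, y2⟩ := y
  cases y1 with
  | none => rfl
  | some c => rw [gl_some]; split_ifs <;> rfl

theorem gl_gl (Sg : Set ι) [DecidablePred (· ∈ Sg)] (y : Lab ι) : gl Sg (gl Sg y) = y := by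
  obtain ⟨y1, y2⟩ := y
  cases y1 with
  | none => rfl
  | some c => rw [gl_some]; split_ifs with h <;> rw [gl_some] <;> simp [h]

theorem ind_gl {R : Type} [CommRing R] (Sg : Set ι) [DecidablePred (· ∈ Sg)] (g : E → E)
    (hg : ∀ x, lam (g x) = gl Sg (lam x)) (y : Lab ι) (x : E) :
    ind R lam y (g x) = ind R lam (gl Sg y) x := by
  simp only [ind, hg]
  by_cases h : lam x = gl Sg y
  · rw [if_pos h, if_pos (by rw [h, gl_gl])]
  · rw [if_neg h, if_neg]
    intro h'
    apply h
    rw [← h', gl_gl]

theorem Om_gl {R : Type} [CommRing R] (Sg : Set ι) [DecidablePred (· ∈ Sg)] (g : E → E)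
    (hg : ∀ x, lam (g x) = gl Sg (lam x)) (triv : List ι) (ht : ∀ c ∈ triv, c ∉ Sg)
    (m : List E) : Om R lam triv (m.map g) = Om R lam triv m := by
  induction triv generalizing m with
  | nil =>
    simp only [Om, I]
    rw [ins_map]
    congr 1
    · funext x
      rw [ind_gl lam Sg g hg, gl_none]
    · funext m
      simp [eps]
  | cons c cs ih =>
    simp only [Om, I]
    rw [ins_map]
    congr 1
    · funext x
      rw [ind_gl lam Sg g hg, gl_some, if_neg (ht c (by simp))]
    · funext m
      exact ih (fun c' hc' => ht c' (by simp [hc'])) m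

theorem Al_gl (Sg : Set ι) [DecidablePred (· ∈ Sg)] (g : E → E)
    (hg : ∀ x, lam (g x) = gl Sg (lam x)) (triv : List ι) (ht : ∀ c ∈ triv, c ∉ Sg)
    (l : List ι) (hl : ∀ c ∈ l, c ∈ Sg) (r : ℕ) (m : List E) :
    Al lam triv 0 l r (m.map g) = Al lam triv 1 l r m := by
  induction l generalizing r m with
  | nil =>
    cases r with
    | zero => exact Om_gl lam Sg g hg triv ht m
    | succ r => rfl
  | cons c l ih =>
    cases r with
    | zero => exact Om_gl lam Sg g hg triv ht m
    | succ r =>
      rw [Al_cons, Al_cons]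
      simp only [I]
      rw [ih (fun c' hc' => hl c' (by simp [hc'])) (r + 1) m, ins_map]
      congr 2
      · funext x
        unfold sgi
        rw [ind_gl lam Sg g hg, gl_some, if_pos (hl c (by simp))]
        congr 2
        rcases Nat.mod_two_eq_zero_or_one (0 + l.length + r) with h | h
        · have h' : (1 + l.length + r) % 2 = 1 := by omega
          rw [h, h']
          simp
        · have h' : (1 + l.length + r) % 2 = 0 := by omega
          rw [h, h']
          simp
      · funext m
        exact ih (fun c' hc' => hl c' (by simp [hc'])) r m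

end Fan

section Parity

variable {ι : Type} [DecidableEq ι]

/-- the parity theorem -/
theorem parity {δ : ℝ} (hδ : 0 ≤ δ) (Sg : Set ι) [DecidablePred (· ∈ Sg)]
    (S : ι → List Step) (sgs triv : List ι) (hnd : (sgs ++ triv).Nodup)
    (hsg : ∀ c ∈ sgs, c ∈ Sg) (ht : ∀ c ∈ triv, c ∉ Sg)
    (hS : ∀ c ∈ sgs ++ triv, Good δ (S c))
    (lam : (ι → ℝ) → Lab ι)
    (hlab : ∀ x, (lam x).1 = none ∨ ∃ c ∈ sgs ++ triv, (lam x).1 = some c)
    (hgl : ∀ x, lam (gam Sg x) = gl Sg (lam x))
    (hAF : ∀ m, Sm δ ∅ m → AF lam m)
    (hbd : ∀ x, ∀ c ∈ sgs ++ triv, |x c| = 1 / 2 → lam x = (none, true)) :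
    D S (sgs ++ triv) (Om (ZMod 2) lam (sgs ++ triv)) = D S triv (Om (ZMod 2) lam triv) := by
  have hdis : ∀ c ∈ sgs, c ∉ triv := fun c hc hc' => ht c hc' (hsg c hc)
  have key : ∀ l : List ι, (l ++ triv).Nodup → (∀ c ∈ l, c ∈ sgs) →
      D S (l ++ triv) (Al lam triv 0 sgs l.length) = D S triv (Om (ZMod 2) lam triv) := by
    intro l
    induction l with
    | nil =>
      intro _ _
      simp only [List.nil_append, List.length_nil, Al_zero]
    | cons c l ih =>
      intro h1 h2
      rw [List.cons_append] at h1 ⊢
      have hnd' := List.nodup_cons.mp h1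
      rw [← ih hnd'.2 (fun c' hc' => h2 c' (by simp [hc']))]
      have hmem : ∀ c' ∈ l ++ triv, c' ∈ sgs ++ triv := by
        intro c' hc'
        rcases List.mem_append.mp hc' with h | h
        · exact List.mem_append.mpr (Or.inl (h2 c' (by simp [h])))
        · exact List.mem_append.mpr (Or.inr h)
      have hc : c ∈ sgs := h2 c (by simp)
      obtain ⟨e, he1, he2, he3⟩ := hS c (List.mem_append.mpr (Or.inl hc))
      rw [List.length_cons]
      apply D_sign_step Sg hδ ∅ S c (l ++ triv) h1 (hsg c hc) e he1 he3
        (fun c' hc' => (hS c' (hmem c' hc')).path) (fun c' hc' => (hS c' (hmem c' hc')).fine) he2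
        (fun c' hc' _ => (hS c' (hmem c' hc')).symm) (by simp) (by simp)
      · intro c' hc' m hm
        apply Al_eq_zero
        intro x hx h
        have hc'' : c' ∈ sgs ++ triv := by
          rcases List.mem_cons.mp hc' with rfl | h
          · exact List.mem_append.mpr (Or.inl hc)
          · exact hmem c' h
        have : |x c'| = 1 / 2 := by
          rcases hm with hm | hm
          · rw [hm x hx]; norm_num
          · rw [hm x hx]; norm_num
        rw [hbd x c' hc'' this] at h
        simp at h
      · intro m hm
        rw [d_Al lam sgs triv (List.Nodup.of_append_left hnd) hdis l.length m (hAF m hm)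
          (fun x _ => hlab x), Al_gl lam Sg (gam Sg) hgl triv ht sgs hsg]
  have h := key sgs hnd (fun c hc => hc)
  rwa [Al_top] at h

end Parity

end Pool.Agent.N508.Ch
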