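import Pool.Agent.N508.GH.Chain4

/-!
# The contradiction for labelled cubes
-/

set_option autoImplicit false
set_option linter.unusedSectionVars false

namespace Pool.Agent.N508.Ch

section Deg

variable {ι : Type} [DecidableEq ι]

/-- the basic properties of a labelling of the cube -/
structure GoodLab (δ : ℝ) (cs : List ι) (lam : (ι → ℝ) → Lab ι) : Prop where
  lab : ∀ x, (lam x).1 = none ∨ ∃ c ∈ cs, (lam x).1 = some c
  af : ∀ m, Sm δ ∅ m → AF lam m
  bd : ∀ x, ∀ c ∈ cs, |x c| = 1 / 2 → lam x = (none, true)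

theorem GoodLab.nuc {δ : ℝ} {cs : List ι} {lam : (ι → ℝ) → Lab ι} (h : GoodLab δ cs lam)
    {c : ι} (hc : c ∈ cs) (x : ι → ℝ) : lam (nuc c x) = lam x := by
  unfold Ch.nuc
  split_ifs with h1
  · rw [h.bd x c hc (by rw [h1]; norm_num), h.bd _ c hc (by rw [upd_same]; norm_num)]
  · rfl

theorem GoodLab.G_nuc {δ : ℝ} {cs : List ι} {lam : (ι → ℝ) → Lab ι} (h : GoodLab δ cs lam)
    {c : ι} (hc : c ∈ cs) (x : ι → ℝ) : lam (G c (Ch.nuc c x)) = lam (G c x) := by
  unfold Ch.nuc
  split_ifs with h1
  · have e1 : (G c (upd c (-(1 / 2)) x)) c = -(1 / 2) := by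
      unfold G
      rw [upd_same, upd_same]
      unfold dg
      rw [if_neg (by norm_num)]
      norm_num
    have e2 : (G c x) c = 1 / 2 := by
      unfold G
      rw [upd_same, h1]
      unfold dg
      rw [if_pos (by norm_num)]
      norm_num
    rw [h.bd _ c hc (by rw [e1]; norm_num), h.bd _ c hc (by rw [e2]; norm_num)]
  · rfl

theorem nuc_G_comm {c c' : ι} (h : c ≠ c') (x : ι → ℝ) : G c (nuc c' x) = nuc c' (G c x) := by
  unfold nuc
  have e : (G c x) c' = x c' := by
    unfold G
    rw [upd_ne h.symm]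
  rw [e]
  split_ifs
  · rw [G_upd_ne h]
  · rfl

/-- There is no homotopy (`lK`, with homotopy coordinate `τ`) of equivariant labelled maps between
the identity (`lI`) preceded by the doubling of a sign coordinate and of a trivial coordinate, and
an equivariant map (`lA`) preceded by the quadrupling of a trivial coordinate. -/
theorem no_homotopy {δ : ℝ} (hδ : 0 < δ) (sgs triv : List ι) (hnd : (sgs ++ triv).Nodup)
    (τ : ι) (hτ : τ ∉ sgs ++ triv) (cx cS : ι) (hcx : cx ∈ sgs) (hcS : cS ∈ triv)
    (Sg Sg' : Set ι) [DecidablePred (· ∈ Sg)] [DecidablePred (· ∈ Sg')]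
    (hSg : ∀ c, c ∈ Sg ↔ c ∈ sgs) (hSg' : ∀ c, c ∈ Sg' ↔ c ∈ sgs ++ triv)
    (lK lA lI : (ι → ℝ) → Lab ι)
    (hK : GoodLab δ (sgs ++ triv) lK) (hA : GoodLab δ (sgs ++ triv) lA)
    (hI : GoodLab δ (sgs ++ triv) lI)
    (hKg : ∀ x, lK (gam Sg x) = gl Sg (lK x)) (hAg : ∀ x, lA (gam Sg x) = gl Sg (lA x))
    (hIg : ∀ x, lI (gam Sg' x) = gl Sg' (lI x)) (hI0 : lI 0 = (none, false))
    (hK0 : ∀ x, (∀ c, |x c| ≤ 1 / 2) → lK (upd τ (-(1 / 2)) x) = lI (G cx (G cS x)))
    (hK1 : ∀ x, (∀ c, |x c| ≤ 1 / 2) → lK (upd τ (1 / 2) x) = lA (G cS (G cS x))) : False := by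
  obtain ⟨J, hJ⟩ := exists_good hδ
  have hne : cx ≠ cS := by
    rintro rfl
    exact (List.nodup_append.mp hnd).2.2 cx hcx cx hcS rfl
  have hcx' : cx ∈ sgs ++ triv := List.mem_append.mpr (Or.inl hcx)
  have hcS' : cS ∈ sgs ++ triv := List.mem_append.mpr (Or.inr hcS)
  have hnt : triv.Nodup := List.Nodup.of_append_right hnd
  have hdis : ∀ c ∈ sgs, c ∉ triv := fun c hc hc' => (List.nodup_append.mp hnd).2.2 c hc c hc' rfl
  have hδ' := hδ.le
  -- the four systems of paths
  let S : ι → List Step := fun c => if c = cx then dbl J else if c = cS then dbl (dbl J) else J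
  let S' : ι → List Step := fun c => if c = cx then dbl J else if c = cS then dbl J else J
  let S2 : ι → List Step := fun c => if c = cS then dbl J else J
  let S3 : ι → List Step := fun c => if c = cx then dbl J else J
  have hSG : ∀ c, Good δ (S c) := by
    intro c
    simp only [S]
    split_ifs
    · exact hJ.dbl
    · exact hJ.dbl.dbl
    · exact hJ
  have hS'G : ∀ c, Good δ (S' c) := by
    intro c
    simp only [S']
    split_ifs
    · exact hJ.dbl
    · exact hJ.dbl
    · exact hJ
  have hS2G : ∀ c, Good δ (S2 c) := by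
    intro c
    simp only [S2]
    split_ifs
    · exact hJ.dbl
    · exact hJ
  have hS3G : ∀ c, Good δ (S3 c) := by
    intro c
    simp only [S3]
    split_ifs
    · exact hJ.dbl
    · exact hJ
  have S_cS : S cS = dbl (S' cS) := by simp [S, S', hne.symm]
  have S_ne : ∀ c, c ≠ cS → S c = S' c := by
    intro c hc
    simp [S, S', hc]
  have S'_cx : S' cx = dbl (S2 cx) := by simp [S', S2, hne]
  have S'_ne2 : ∀ c, c ≠ cx → S' c = S2 c := by
    intro c hc
    simp [S', S2, hc]
  have S'_cS : S' cS = dbl (S3 cS) := by simp [S', S3, hne.symm]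
  have S'_ne3 : ∀ c, c ≠ cS → S' c = S3 c := by
    intro c hc
    simp [S', S3, hc]
  -- vanishing on the boundary
  have hVan : ∀ lam : (ι → ℝ) → Lab ι, GoodLab δ (sgs ++ triv) lam → ∀ cs : List ι,
      ∀ c ∈ sgs ++ triv, Van c (Om ℤ lam cs) := by
    intro lam hlam cs c hc m hm
    apply Om_eq_zero
    intro x hx
    have : |x c| = 1 / 2 := by
      rcases hm with hm | hm
      · rw [hm x hx]; norm_num
      · rw [hm x hx]; norm_num
    rw [hlam.bd x c hc this]
    simp
  -- the homotopy
  have main : D S (sgs ++ triv) (fun m => Om ℤ lK (sgs ++ triv) (m.map (upd τ (1 / 2)))) =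
      D S (sgs ++ triv) (fun m => Om ℤ lK (sgs ++ triv) (m.map (upd τ (-(1 / 2))))) := by
    apply D_homotopy hδ' ∅ S (sgs ++ triv) hnd τ hτ (by simp) (fun c _ => (hSG c).path)
      (fun c _ => (hSG c).fine) (by simp) J hJ.path hJ.fine
    · exact hVan lK hK _
    · intro m hm
      exact d_Om lK _ m (hK.af m hm) (fun x _ => hK.lab x)
  have left : D S (sgs ++ triv) (fun m => Om ℤ lK (sgs ++ triv) (m.map (upd τ (-(1 / 2))))) =
      4 * D S2 (sgs ++ triv) (Om ℤ lI (sgs ++ triv)) := by
    have e1 : D S (sgs ++ triv) (fun m => Om ℤ lK (sgs ++ triv) (m.map (upd τ (-(1 / 2))))) =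
        D S (sgs ++ triv) (fun m => (fun m => Om ℤ lI (sgs ++ triv) (m.map (G cx)))
          (m.map (G cS))) := by
      apply D_congr hδ' ∅ S _ (fun c _ => (hSG c).fine) (by simp)
      intro m hm
      simp only
      rw [List.map_map, Om_map, Om_map]
      apply Om_congr
      intro x hx
      exact hK0 x (hm.1 x hx).1
    have h1 := D_dbl S' S (sgs ++ triv) hnd cS hcS' S_cS (fun c _ hc => S_ne c hc)
      (hS'G cS).symm (hS'G cS).bound (fun m => Om ℤ lI (sgs ++ triv) (m.map (G cx))) (by
        intro l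
        simp only
        rw [List.map_map, Om_map, Om_map]
        apply Om_congr
        intro x _
        simp only [Function.comp]
        rw [nuc_G_comm hne, hI.nuc hcS'])
    have h2 := D_dbl S2 S' (sgs ++ triv) hnd cx hcx' S'_cx (fun c _ hc => S'_ne2 c hc)
      (hS2G cx).symm (hS2G cx).bound (Om ℤ lI (sgs ++ triv)) (by
        intro l
        rw [Om_map]
        apply Om_congr
        intro x _
        exact hI.nuc hcx' x)
    rw [e1, h1, h2]
    ring
  have right : D S (sgs ++ triv) (fun m => Om ℤ lK (sgs ++ triv) (m.map (upd τ (1 / 2)))) =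
      4 * D S3 (sgs ++ triv) (Om ℤ lA (sgs ++ triv)) := by
    have e1 : D S (sgs ++ triv) (fun m => Om ℤ lK (sgs ++ triv) (m.map (upd τ (1 / 2)))) =
        D S (sgs ++ triv) (fun m => (fun m => Om ℤ lA (sgs ++ triv) (m.map (G cS)))
          (m.map (G cS))) := by
      apply D_congr hδ' ∅ S _ (fun c _ => (hSG c).fine) (by simp)
      intro m hm
      simp only
      rw [List.map_map, Om_map, Om_map]
      apply Om_congr
      intro x hx
      exact hK1 x (hm.1 x hx).1
    have h1 := D_dbl S' S (sgs ++ triv) hnd cS hcS' S_cS (fun c _ hc => S_ne c hc)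
      (hS'G cS).symm (hS'G cS).bound (fun m => Om ℤ lA (sgs ++ triv) (m.map (G cS))) (by
        intro l
        simp only
        rw [List.map_map, Om_map, Om_map]
        apply Om_congr
        intro x _
        exact hA.G_nuc hcS' x)
    have h2 := D_dbl S3 S' (sgs ++ triv) hnd cS hcS' S'_cS (fun c _ hc => S'_ne3 c hc)
      (hS3G cS).symm (hS3G cS).bound (Om ℤ lA (sgs ++ triv)) (by
        intro l
        rw [Om_map]
        apply Om_congr
        intro x _
        exact hA.nuc hcS' x)
    rw [e1, h1, h2]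
    ring
  have degeq : D S2 (sgs ++ triv) (Om ℤ lI (sgs ++ triv)) =
      D S3 (sgs ++ triv) (Om ℤ lA (sgs ++ triv)) := by
    rw [left, right] at main
    linarith
  -- the fixed points
  have hZ : ∀ c ∈ triv, c ∉ {c | c ∈ sgs} := fun c hc hc' => hdis c hc' hc
  have mainf : D S triv (fun m => Om ℤ lK triv (m.map (upd τ (1 / 2)))) =
      D S triv (fun m => Om ℤ lK triv (m.map (upd τ (-(1 / 2))))) := by
    apply D_homotopy hδ' {c | c ∈ sgs} S triv hnt τ
      (fun h => hτ (List.mem_append.mpr (Or.inr h)))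
      (fun h => hτ (List.mem_append.mpr (Or.inl h))) (fun c _ => (hSG c).path)
      (fun c _ => (hSG c).fine) hZ J hJ.path hJ.fine
    · intro c hc
      exact hVan lK hK _ c (List.mem_append.mpr (Or.inr hc))
    · intro m hm
      apply d_Om lK _ m (hK.af m (hm.mono (by simp)))
      intro x hx
      have hx0 := (hm.1 x hx).2
      have hfix : gam Sg x = x := by
        funext c
        unfold gam
        split_ifs with h
        · rw [hx0 c ((hSg c).mp h), neg_zero]
        · rfl
      have h1 := hKg x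
      rw [hfix] at h1
      rcases hK.lab x with h | ⟨c, hc, h⟩
      · exact Or.inl h
      · right
        refine ⟨c, ?_, h⟩
        rcases List.mem_append.mp hc with h2 | h2
        · exfalso
          have h3 : lK x = (some c, (lK x).2) := Prod.ext h rfl
          rw [h3, gl_some, if_pos ((hSg c).mpr h2)] at h1
          have := congrArg Prod.snd h1
          simp only at this
          revert this
          cases (lK x).2 <;> simp
        · exact h2
  have leftf : D S triv (fun m => Om ℤ lK triv (m.map (upd τ (-(1 / 2))))) = 0 := by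
    rw [← D_zero (R := ℤ) S triv]
    apply D_congr hδ' {c | c ∈ sgs} S triv (fun c _ => (hSG c).fine) hZ
    intro m hm
    rw [Om_map]
    apply Om_eq_zero
    intro x hx
    obtain ⟨h1, h2⟩ := hm.1 x hx
    rw [hK0 x h1]
    have h3 : (G cx (G cS x)) cx = -(1 / 2) := by
      have h4 : (G cS x) cx = 0 := by
        unfold G
        rw [upd_ne hne]
        exact h2 cx hcx
      unfold G at h4 ⊢
      rw [upd_same, h4]
      unfold dg
      rw [if_pos le_rfl]
      norm_num
    rw [hI.bd _ cx hcx' (by rw [h3]; norm_num)]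
    simp
  have rightf : D S triv (fun m => Om ℤ lK triv (m.map (upd τ (1 / 2)))) =
      4 * D S3 triv (Om ℤ lA triv) := by
    have e1 : D S triv (fun m => Om ℤ lK triv (m.map (upd τ (1 / 2)))) =
        D S triv (fun m => (fun m => Om ℤ lA triv (m.map (G cS))) (m.map (G cS))) := by
      apply D_congr hδ' ∅ S _ (fun c _ => (hSG c).fine) (by simp)
      intro m hm
      simp only
      rw [List.map_map, Om_map, Om_map]
      apply Om_congr
      intro x hx
      exact hK1 x (hm.1 x hx).1
    have h1 := D_dbl S' S triv hnt cS hcS S_cS (fun c _ hc => S_ne c hc)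
      (hS'G cS).symm (hS'G cS).bound (fun m => Om ℤ lA triv (m.map (G cS))) (by
        intro l
        simp only
        rw [List.map_map, Om_map, Om_map]
        apply Om_congr
        intro x _
        exact hA.G_nuc hcS' x)
    have h2 := D_dbl S3 S' triv hnt cS hcS S'_cS (fun c _ hc => S'_ne3 c hc)
      (hS3G cS).symm (hS3G cS).bound (Om ℤ lA triv) (by
        intro l
        rw [Om_map]
        apply Om_congr
        intro x _
        exact hA.nuc hcS' x)
    rw [e1, h1, h2]
    ring
  have degf : D S3 triv (Om ℤ lA triv) = 0 := by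
    rw [leftf, rightf] at mainf
    linarith
  -- parity
  have cast : ∀ (T : ι → List Step) (cs cs' : List ι) (lam : (ι → ℝ) → Lab ι),
      ((D T cs (Om ℤ lam cs') : ℤ) : ZMod 2) = D T cs (Om (ZMod 2) lam cs') := by
    intro T cs cs' lam
    have h := D_hom (Int.castRingHom (ZMod 2)) T cs (Om ℤ lam cs')
    have e : (fun m => Int.castRingHom (ZMod 2) (Om ℤ lam cs' m)) = Om (ZMod 2) lam cs' := by
      funext m
      exact Om_cast lam cs' m
    rw [e] at h
    exact h
  have p1 := parity hδ' Sg S3 sgs triv hnd (fun c hc => (hSg c).mpr hc)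
    (fun c hc h => hdis c ((hSg c).mp h) hc) (fun c _ => hS3G c) lA hA.lab hAg hA.af hA.bd
  have p2 := parity hδ' Sg' S2 (sgs ++ triv) [] (by simpa using hnd)
    (fun c hc => (hSg' c).mpr hc) (by simp) (fun c _ => hS2G c) lI (by simpa using hI.lab) hIg
    hI.af (by simpa using hI.bd)
  rw [List.append_nil] at p2
  rw [← cast, ← cast, degf] at p1
  rw [← cast, degeq, p1] at p2
  have : D S2 [] (Om (ZMod 2) lI []) = 1 := by
    rw [D_nil]
    simp [Om, I, ins_cons, ins_nil, ind, hI0, eps]
  rw [this] at p2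
  simp at p2

end Deg

end Pool.Agent.N508.Ch
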