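import Pool.Agent.N508.GH.Top1

/-!
# Stable maps between finite based `G`-CW complexes

Let `G` be a compact Lie group. A based compact Hausdorff `G`-space is written as the one-point
compactification `P⁺ = OnePoint P` of a locally compact Hausdorff `G`-space `P` (the complement of
the base point `∞`, which is fixed by `G`). In this language the smash product `P⁺ ∧ Q⁺` is
`(P × Q)⁺`, the sphere `S^V` of a representation is `V⁺`, and the orbit `G/H` with a disjoint base
point is `(G/H)⁺`, as `G/H` is compact.

For finite based `G`-CW complexes `X`, `Y` the group `[X, Y]_G` of maps of suspension spectra in the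
genuine equivariant stable homotopy category is the colimit, over the representations `V` of `G`,
of the sets of based homotopy classes of based `G`-maps `S^V ∧ X → S^V ∧ Y`. So the class of a based
`G`-map `f : X → Y` is zero if and only if `1 ∧ f : S^V ∧ X → S^V ∧ Y` is null-homotopic through
based `G`-maps for some `V`.
-/

set_option autoImplicit false

namespace Pool.Agent.N508.GH

section

open scoped Manifold ContDiff

/-- A compact Lie group. (The finite groups are those of dimension `0`.) -/
structure CompactLieGroup where
  /-- the underlying set -/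
  carrier : Type
  [group : Group carrier]
  [top : TopologicalSpace carrier]
  [topGroup : IsTopologicalGroup carrier]
  [t2 : T2Space carrier]
  [compact : CompactSpace carrier]
  /-- the dimension -/
  dim : ℕ
  [charted : ChartedSpace (EuclideanSpace ℝ (Fin dim)) carrier]
  [lie : LieGroup (𝓡 dim) ∞ carrier]

end

open scoped OnePoint

attribute [instance] CompactLieGroup.group CompactLieGroup.top CompactLieGroup.topGroup
  CompactLieGroup.t2 CompactLieGroup.compact CompactLieGroup.charted CompactLieGroup.lie

variable {G : CompactLieGroup}

/-- A locally compact Hausdorff space `P` with a continuous action of `G`. It stands for the based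
`G`-space `P⁺ = OnePoint P`, with base point `∞`. -/
structure GSpace (G : CompactLieGroup) where
  /-- the underlying set of `P` -/
  carrier : Type
  [top : TopologicalSpace carrier]
  [t2 : T2Space carrier]
  [locallyCompact : LocallyCompactSpace carrier]
  [act : MulAction G.carrier carrier]
  [cont : ContinuousSMul G.carrier carrier]

attribute [instance] GSpace.top GSpace.t2 GSpace.locallyCompact GSpace.act GSpace.cont

/-- The action of `g` on `P⁺`, fixing the base point. -/
def GSpace.smulPlus (P : GSpace G) (g : G.carrier) : OnePoint P.carrier → OnePoint P.carrier :=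
  OnePoint.map fun x => g • x

/-- A based `G`-map `P⁺ → Q⁺`. -/
structure GMap (P Q : GSpace G) where
  /-- the underlying map -/
  toFun : OnePoint P.carrier → OnePoint Q.carrier
  continuous_toFun : Continuous toFun
  map_base : toFun ∞ = ∞
  map_smul : ∀ (g : G.carrier) (x : OnePoint P.carrier),
    toFun (P.smulPlus g x) = Q.smulPlus g (toFun x)

/-- The based `G`-map `f` is null-homotopic through based `G`-maps. -/
def GMap.IsNull {P Q : GSpace G} (f : GMap P Q) : Prop :=
  ∃ F : unitInterval → GMap P Q,
    Continuous (fun z : unitInterval × OnePoint P.carrier => (F z.1).toFun z.2) ∧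
    (∀ x, (F 0).toFun x = f.toFun x) ∧ ∀ x, (F 1).toFun x = ∞

/-- The composite of two based `G`-maps, first `f`, then `g`. -/
def GMap.comp {P Q R : GSpace G} (g : GMap Q R) (f : GMap P Q) : GMap P R where
  toFun x := g.toFun (f.toFun x)
  continuous_toFun := g.continuous_toFun.comp f.continuous_toFun
  map_base := by rw [f.map_base, g.map_base]
  map_smul a x := by rw [f.map_smul, g.map_smul]

/-- The product `P × Q` with the diagonal action; `(P × Q)⁺` is the smash product of `P⁺` and
`Q⁺`. -/
def GSpace.prod (P Q : GSpace G) : GSpace G where
  carrier := P.carrier × Q.carrier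

/-- The map `1 ∧ f : A⁺ ∧ P⁺ → A⁺ ∧ Q⁺`; it sends `(a, p)` to `(a, f p)`, and to the base point if
`f p` is the base point. -/
def GMap.susp (A : GSpace G) {P Q : GSpace G} (f : GMap P Q) : GMap (A.prod P) (A.prod Q) where
  toFun z := z.elim ∞ fun z => (f.toFun z.2).elim ∞ fun q => OnePoint.some (z.1, q)
  continuous_toFun := continuous_one_smash f.continuous_toFun f.map_base
  map_base := rfl
  map_smul a z := by
    induction z using OnePoint.rec with
    | infty => rfl
    | coe z =>
      have h := f.map_smul a (z.2 : OnePoint P.carrier)
      show ((f.toFun (P.smulPlus a z.2)).elim ∞ fun q => OnePoint.some (a • z.1, q)) = _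
      rw [h, OnePoint.elim_some]
      generalize f.toFun (z.2 : OnePoint P.carrier) = w
      induction w using OnePoint.rec with
      | infty => rfl
      | coe w => rfl

/-- A finite dimensional real representation of `G`. -/
structure Rep (G : CompactLieGroup) where
  /-- the underlying vector space -/
  carrier : Type
  [normed : NormedAddCommGroup carrier]
  [space : NormedSpace ℝ carrier]
  [finite : FiniteDimensional ℝ carrier]
  [act : DistribMulAction G.carrier carrier]
  [linear : SMulCommClass G.carrier ℝ carrier]
  [cont : ContinuousSMul G.carrier carrier]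

attribute [instance] Rep.normed Rep.space Rep.finite Rep.act Rep.linear Rep.cont

/-- The space of a representation `V`; it stands for the sphere `S^V = V⁺`. -/
def Rep.sphere (V : Rep G) : GSpace G where
  carrier := V.carrier
  locallyCompact := by
    have := FiniteDimensional.proper ℝ V.carrier
    infer_instance

/-- The class of `f` in the group of stable maps is zero: some suspension of `f` by the sphere of a
representation is null-homotopic through based `G`-maps. -/
def GMap.IsStablyNull {P Q : GSpace G} (f : GMap P Q) : Prop :=
  ∃ V : Rep G, (f.susp V.sphere).IsNull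

/-- The euclidean space of dimension `m` with the trivial action; it stands for the sphere
`S^m`. -/
def euclid (G : CompactLieGroup) (m : ℕ) : GSpace G where
  carrier := EuclideanSpace ℝ (Fin m)
  act :=
    { smul := fun _ x => x
      one_smul := fun _ => rfl
      mul_smul := fun _ _ _ => rfl }
  cont := @ContinuousSMul.mk _ _ ⟨fun _ x => x⟩ _ _ continuous_snd

/-- The orbit `G/H`; it stands for `G/H` with a disjoint base point. -/
def orbit (H : ClosedSubgroup G.carrier) : GSpace G :=
  haveI : IsClosed (H.toSubgroup : Set G.carrier) := H.isClosed'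
  { carrier := G.carrier ⧸ H.toSubgroup }

/-- `P⁺` is a finite based `G`-CW complex: there are finitely many cells `G/H i × D^(d i)`, `H i` a
closed subgroup, with characteristic maps `Φ i : G/H i × D^(d i) → P⁺`, which are continuous and
equivariant, such that every point of `P` is in exactly one open cell (in one way), no point of
an open cell goes to the base point `∞`, and the boundary of a cell goes to the union of the base
point and the open cells of smaller dimension. (The disk `D^d` is the unit ball of `ℝ^d` for the
maximum norm.) -/
def GSpace.IsFiniteCW (P : GSpace G) : Prop :=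
  ∃ (ι : Type) (_ : Finite ι) (d : ι → ℕ) (H : ι → ClosedSubgroup G.carrier)
    (Φ : ∀ i, (orbit (H i)).carrier → (Fin (d i) → ℝ) → OnePoint P.carrier),
    (∀ i, ContinuousOn (fun z : (orbit (H i)).carrier × (Fin (d i) → ℝ) => Φ i z.1 z.2)
      {z | ‖z.2‖ ≤ 1}) ∧
    (∀ i (g : G.carrier) a v, ‖v‖ ≤ 1 → Φ i (g • a) v = P.smulPlus g (Φ i a v)) ∧
    (∀ x : P.carrier, ∃! z : (Σ i, (orbit (H i)).carrier × (Fin (d i) → ℝ)),
      ‖z.2.2‖ < 1 ∧ Φ z.1 z.2.1 z.2.2 = x) ∧
    (∀ i a v, ‖v‖ < 1 → Φ i a v ≠ ∞) ∧
    ∀ i a v, ‖v‖ = 1 → Φ i a v = ∞ ∨ ∃ j b w, d j < d i ∧ ‖w‖ < 1 ∧ Φ j b w = Φ i a v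

/-- The map `f : X → Y` induces zero on `π_n^H`, the group of stable maps `S^n ∧ (G/H)₊ → X`, where
`n = m - k`: for each based `G`-map `x : S^U ∧ S^m ∧ (G/H)₊ → S^U ∧ S^k ∧ X`, `U` a representation,
the composite of `x` with `1 ∧ 1 ∧ f : S^U ∧ S^k ∧ X → S^U ∧ S^k ∧ Y` is stably null. -/
def GMap.IsZeroOnHomotopy {X Y : GSpace G} (f : GMap X Y) (H : ClosedSubgroup G.carrier)
    (m k : ℕ) : Prop :=
  ∀ (U : Rep G) (x : GMap (U.sphere.prod ((euclid G m).prod (orbit H)))
    (U.sphere.prod ((euclid G k).prod X))),
    (((f.susp (euclid G k)).susp U.sphere).comp x).IsStablyNull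

end Pool.Agent.N508.GH
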