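import Pool.Agent.N508.GH.Top2
import Pool.Agent.N508.GH.Chain5

/-!
# The degree argument for spheres
-/

set_option autoImplicit false
set_option linter.unusedSectionVars false

namespace Pool.Agent.N508.GH

open Set Topology Filter
open OnePoint hiding some
open Pool.Agent.N508.Ch (upd upd_same upd_ne dg gam Lab anti gl gl_some gl_none GoodLab Sm AF)

variable {n : Type} [Fintype n] [Nonempty n]

/-- a coordinate where the function is maximal -/
noncomputable def amax (a : n → ℝ) : n := Classical.epsilon fun c => ∀ c', a c' ≤ a c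

theorem amax_spec (a : n → ℝ) (c : n) : a c ≤ a (amax a) := by
  have h : ∃ c, ∀ c', a c' ≤ a c := Finite.exists_max a
  exact Classical.epsilon_spec h c

open Classical in
/-- the labelling of the sphere -/
noncomputable def L (z : OnePoint (n → ℝ)) : Lab (Option n) :=
  z.elim (none, true) fun v =>
    if ‖v‖ ≤ 1 then (none, false)
    else if 2 ≤ ‖v‖ then (none, true)
    else (some (some (amax fun c => |v c|)), decide (0 < v (amax fun c => |v c|)))

/-- closed sets containing the sets with given label -/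
def CL (y : Lab (Option n)) : Set (OnePoint (n → ℝ)) :=
  match y with
  | (none, false) => (↑) '' {v : n → ℝ | ‖v‖ ≤ 1}
  | (none, true) => ((↑) '' {v : n → ℝ | ‖v‖ < 2})ᶜ
  | (some none, _) => ∅
  | (some (some c), true) => (↑) '' {v : n → ℝ | ‖v‖ ≤ 2 ∧ 1 ≤ v c}
  | (some (some c), false) => (↑) '' {v : n → ℝ | ‖v‖ ≤ 2 ∧ v c ≤ -1}

theorem isClosed_CL (y : Lab (Option n)) : IsClosed (CL y) := by
  have hball : ∀ r : ℝ, IsCompact {v : n → ℝ | ‖v‖ ≤ r} := by
    intro r
    have : {v : n → ℝ | ‖v‖ ≤ r} = Metric.closedBall 0 r := by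
      ext v
      simp
    rw [this]
    exact isCompact_closedBall 0 r
  have hcomp : ∀ s : Set (n → ℝ), IsCompact s →
      IsClosed (((↑) : (n → ℝ) → OnePoint (n → ℝ)) '' s) :=
    fun s hs => OnePoint.isClosed_image_coe.mpr ⟨hs.isClosed, hs⟩
  unfold CL
  split
  · exact hcomp _ (hball 1)
  · rw [isClosed_compl_iff, OnePoint.isOpen_image_coe]
    exact isOpen_lt continuous_norm continuous_const
  · exact isClosed_empty
  · exact hcomp _ ((hball 2).inter_right
      (isClosed_le continuous_const (continuous_apply _)))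
  · exact hcomp _ ((hball 2).inter_right
      (isClosed_le (continuous_apply _) continuous_const))

theorem abs_amax (v : n → ℝ) : |v (amax fun c => |v c|)| = ‖v‖ := by
  apply le_antisymm
  · exact norm_le_pi_norm v _
  · rw [pi_norm_le_iff_of_nonempty]
    intro c
    exact amax_spec (fun c => |v c|) c

theorem mem_CL (z : OnePoint (n → ℝ)) : z ∈ CL (L z) := by
  induction z using OnePoint.rec with
  | infty =>
    show (∞ : OnePoint (n → ℝ)) ∈ ((↑) '' {v : n → ℝ | ‖v‖ < 2})ᶜ
    exact infty_notMem_image_coe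
  | coe v =>
    unfold L
    rw [elim_some]
    split_ifs with h1 h2
    · exact ⟨v, h1, rfl⟩
    · show (v : OnePoint (n → ℝ)) ∈ ((↑) '' {v : n → ℝ | ‖v‖ < 2})ᶜ
      rintro ⟨w, hw, hwv⟩
      rw [OnePoint.coe_eq_coe] at hwv
      subst hwv
      exact absurd hw (not_lt.mpr h2)
    · push Not at h1 h2
      have h3 := abs_amax v
      by_cases h4 : 0 < v (amax fun c => |v c|)
      · rw [decide_eq_true h4]
        refine ⟨v, ⟨h2.le, ?_⟩, rfl⟩
        rw [abs_of_pos h4] at h3
        linarith
      · rw [decide_eq_false h4]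
        refine ⟨v, ⟨h2.le, ?_⟩, rfl⟩
        rw [abs_of_nonpos (not_lt.mp h4)] at h3
        linarith

theorem disjoint_CL (y : Lab (Option n)) : Disjoint (CL y) (CL (anti y)) := by
  rw [Set.disjoint_left]
  obtain ⟨o, b⟩ := y
  rcases o with _ | (_ | c)
  · cases b
    · rintro _ ⟨v, hv, rfl⟩ h
      have hv' : ‖v‖ ≤ 1 := hv
      apply h
      refine ⟨v, ?_, rfl⟩
      show ‖v‖ < 2
      linarith
    · rintro z hz ⟨v, hv, rfl⟩
      have hv' : ‖v‖ ≤ 1 := hv
      apply hz
      refine ⟨v, ?_, rfl⟩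
      show ‖v‖ < 2
      linarith
  · intro z hz
    exact absurd hz (by simp [CL])
  · cases b
    · rintro _ ⟨v, ⟨_, hv⟩, rfl⟩ ⟨w, ⟨_, hw⟩, hvw⟩
      rw [OnePoint.coe_eq_coe] at hvw
      subst hvw
      linarith
    · rintro _ ⟨v, ⟨_, hv⟩, rfl⟩ ⟨w, ⟨_, hw⟩, hvw⟩
      rw [OnePoint.coe_eq_coe] at hvw
      subst hvw
      linarith

theorem L_infty : L (∞ : OnePoint (n → ℝ)) = (none, true) := rfl

theorem L_fst (z : OnePoint (n → ℝ)) : (L z).1 = none ∨ ∃ c : n, (L z).1 = some (some c) := by
  induction z using OnePoint.rec with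
  | infty => exact Or.inl rfl
  | coe v =>
    unfold L
    rw [elim_some]
    split_ifs
    · exact Or.inl rfl
    · exact Or.inl rfl
    · exact Or.inr ⟨_, rfl⟩

theorem L_gam (sg : Set n) [DecidablePred (· ∈ sg)] (Sg : Set (Option n))
    [DecidablePred (· ∈ Sg)] (hSg : ∀ c, some c ∈ Sg ↔ c ∈ sg)
    (z : OnePoint (n → ℝ)) : L (OnePoint.map (gam sg) z) = gl Sg (L z) := by
  classical
  induction z using OnePoint.rec with
  | infty => rfl
  | coe v =>
    rw [OnePoint.map_some]
    have habs : (fun c => |gam sg v c|) = fun c => |v c| := by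
      funext c
      unfold gam
      split_ifs <;> simp
    have hnorm : ‖gam sg v‖ = ‖v‖ := by
      rw [← abs_amax (gam sg v), ← abs_amax v, habs]
      exact congrFun habs _
    unfold L
    rw [elim_some, elim_some, hnorm, habs]
    split_ifs with h1 h2
    · rfl
    · rfl
    · push Not at h1
      rw [gl_some]
      set c := amax fun c => |v c| with hc
      have h3 : |v c| = ‖v‖ := abs_amax v
      have h4 : v c ≠ 0 := by
        intro h
        rw [h, abs_zero] at h3
        linarith
      by_cases h5 : c ∈ sg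
      · rw [if_pos ((hSg c).mpr h5)]
        have e : gam sg v c = - v c := by
          unfold gam
          rw [if_pos h5]
        rw [e]
        congr 1
        rcases lt_or_gt_of_ne h4 with h6 | h6
        · rw [decide_eq_true (by linarith : 0 < - v c), decide_eq_false (by linarith)]
          rfl
        · rw [decide_eq_false (by linarith : ¬ 0 < - v c), decide_eq_true h6]
          rfl
      · rw [if_neg (fun h => h5 ((hSg c).mp h))]
        have e : gam sg v c = v c := by
          unfold gam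
          rw [if_neg h5]
        rw [e]

/-- the cube -/
def cube (ι : Type) : Set (ι → ℝ) := {x | ∀ c, |x c| ≤ 1 / 2}

theorem isCompact_cube (ι : Type) [Fintype ι] : IsCompact (cube ι) := by
  have : cube ι = Set.pi univ fun _ => Icc (-(1 / 2)) (1 / 2) := by
    ext x
    constructor
    · intro h c _
      exact abs_le.mp (h c)
    · intro h c
      exact abs_le.mpr (h c (mem_univ c))
  rw [this]
  exact isCompact_univ_pi fun _ => isCompact_Icc

theorem eventually_label {ι : Type} [Fintype ι] {K : (ι → ℝ) → OnePoint (n → ℝ)}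
    (hK : Continuous K) : ∀ᶠ δ in 𝓝[>] (0 : ℝ), ∀ x ∈ cube ι, ∀ x' ∈ cube ι,
      (∀ c, |x c - x' c| ≤ δ) → L (K x) ≠ anti (L (K x')) := by
  have h1 : ∀ y : Lab (Option n), ∀ᶠ δ in 𝓝[>] (0 : ℝ), ∀ x ∈ cube ι, ∀ x' ∈ cube ι,
      (∀ c, |x c - x' c| ≤ δ) → L (K x') = y → L (K x) ≠ anti y := by
    intro y
    have hA : IsCompact (cube ι ∩ K ⁻¹' (CL y)) :=
      (isCompact_cube ι).inter_right ((isClosed_CL y).preimage hK)
    have hB : IsCompact (cube ι ∩ K ⁻¹' (CL (anti y))) :=
      (isCompact_cube ι).inter_right ((isClosed_CL _).preimage hK)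
    have hd : Disjoint (cube ι ∩ K ⁻¹' (CL y)) (cube ι ∩ K ⁻¹' (CL (anti y))) :=
      ((disjoint_CL y).preimage K).mono inter_subset_right inter_subset_right
    obtain ⟨r, hr, h⟩ := Metric.exists_pos_forall_lt_edist hA hB.isClosed hd
    have hr' : ∀ᶠ δ in 𝓝[>] (0 : ℝ), δ < (r : ℝ) := by
      apply eventually_nhdsWithin_of_eventually_nhds
      exact eventually_lt_nhds (show (0 : ℝ) < r by exact_mod_cast hr)
    have h0 : ∀ᶠ δ in 𝓝[>] (0 : ℝ), 0 < δ := eventually_mem_nhdsWithin
    filter_upwards [hr', h0] with δ hδ hδ0 x hx x' hx' hxx h2 h3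
    have h4 := h x' ⟨hx', by rw [← h2]; exact mem_CL _⟩ x ⟨hx, by rw [← h3]; exact mem_CL _⟩
    have h5 : dist x' x ≤ δ := by
      rw [dist_pi_le_iff hδ0.le]
      intro c
      rw [Real.dist_eq, abs_sub_comm]
      exact hxx c
    have h6 : edist x' x ≤ ENNReal.ofReal δ := by
      rw [edist_dist]
      exact ENNReal.ofReal_le_ofReal h5
    have h7 : (r : ENNReal) < ENNReal.ofReal δ := lt_of_lt_of_le h4 h6
    rw [ENNReal.lt_ofReal_iff_toReal_lt (by simp)] at h7
    simp at h7
    linarith
  have h2 := Filter.eventually_all.mpr h1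
  filter_upwards [h2] with δ hδ x hx x' hx' hxx
  exact hδ (L (K x')) x hx x' hx' hxx rfl

theorem gam_upd_aux (sg : Set n) [DecidablePred (· ∈ sg)] (Sg : Set (Option n))
    [DecidablePred (· ∈ Sg)] (hSg : ∀ c, some c ∈ Sg ↔ c ∈ sg) (x : Option n → ℝ) :
    (fun c => gam Sg x (some c)) = gam sg (fun c => x (some c)) := by
  funext c
  unfold gam
  by_cases h : c ∈ sg
  · rw [if_pos h, if_pos ((hSg c).mpr h)]
  · rw [if_neg h, if_neg (fun h' => h ((hSg c).mp h'))]

theorem G_aux [DecidableEq n] (c : n) (x : Option n → ℝ) :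
    (fun c' => Pool.Agent.N508.Ch.G (some c) x (some c')) =
      Pool.Agent.N508.Ch.G c (fun c' => x (some c')) := by
  funext c'
  show upd (some c) (dg (x (some c))) x (some c') = upd c (dg (x (some c))) (fun c' => x (some c')) c'
  by_cases h : c' = c
  · subst h
    rw [upd_same, upd_same]
  · rw [upd_ne h, upd_ne (fun h' => h (Option.some_injective _ h'))]

/-- There is no equivariant homotopy between the doubling in a sign coordinate and in a trivial
coordinate, and an equivariant map preceded by the quadrupling of the trivial coordinate. -/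
theorem deg_contra [DecidableEq n] (sg : Set n) [DecidablePred (· ∈ sg)] (cx cS : n) (hcx : cx ∈ sg) (hcS : cS ∉ sg)
    (A : OnePoint (n → ℝ) → OnePoint (n → ℝ)) (hA : Continuous A) (hA0 : A ∞ = ∞)
    (hAg : ∀ z, A (OnePoint.map (gam sg) z) = OnePoint.map (gam sg) (A z))
    (K : unitInterval × OnePoint (n → ℝ) → OnePoint (n → ℝ)) (hK : Continuous K)
    (hK0 : ∀ t, K (t, ∞) = ∞)
    (hKg : ∀ t z, K (t, OnePoint.map (gam sg) z) = OnePoint.map (gam sg) (K (t, z)))
    (h0 : ∀ z, K (0, z) = Hc cx (Hc cS z)) (h1 : ∀ z, K (1, z) = A (Hc cS (Hc cS z))) :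
    False := by
  classical
  set sgs : List (Option n) := ((Finset.univ.filter (· ∈ sg)).toList).map some with hsgs
  set triv : List (Option n) := ((Finset.univ.filter (· ∉ sg)).toList).map some with htriv
  have msgs : ∀ c, c ∈ sgs ↔ ∃ c' ∈ sg, some c' = c := by
    intro c
    rw [hsgs, List.mem_map]
    simp
  have mtriv : ∀ c, c ∈ triv ↔ ∃ c', c' ∉ sg ∧ some c' = c := by
    intro c
    rw [htriv, List.mem_map]
    simp
  have hnd : (sgs ++ triv).Nodup := by
    rw [List.nodup_append]
    refine ⟨(Finset.nodup_toList _).map (Option.some_injective _),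
      (Finset.nodup_toList _).map (Option.some_injective _), ?_⟩
    intro a ha b hb hab
    obtain ⟨a', ha', rfl⟩ := (msgs a).mp ha
    obtain ⟨b', hb', rfl⟩ := (mtriv b).mp hb
    exact hb' (Option.some_injective _ hab ▸ ha')
  have mall : ∀ c, c ∈ sgs ++ triv ↔ ∃ c', some c' = c := by
    intro c
    rw [List.mem_append, msgs, mtriv]
    constructor
    · rintro (⟨c', _, h⟩ | ⟨c', _, h⟩) <;> exact ⟨c', h⟩
    · rintro ⟨c', h⟩
      by_cases hc : c' ∈ sg
      · exact Or.inl ⟨c', hc, h⟩
      · exact Or.inr ⟨c', hc, h⟩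
  let r : (Option n → ℝ) → (n → ℝ) := fun x c => x (some c)
  have hr : Continuous r := by
    apply continuous_pi
    intro c
    exact continuous_apply _
  let tm : (Option n → ℝ) → unitInterval := fun x => Set.projIcc 0 1 zero_le_one (x none + 1 / 2)
  have htm : Continuous tm :=
    continuous_projIcc.comp ((continuous_apply none).add continuous_const)
  let fK : (Option n → ℝ) → OnePoint (n → ℝ) := fun x => K (tm x, tanp n (r x))
  let fA : (Option n → ℝ) → OnePoint (n → ℝ) := fun x => A (tanp n (r x))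
  let fI : (Option n → ℝ) → OnePoint (n → ℝ) := fun x => tanp n (r x)
  have cI : Continuous fI := continuous_tanp.comp hr
  have cA : Continuous fA := hA.comp cI
  have cK : Continuous fK := hK.comp (htm.prodMk cI)
  obtain ⟨δ, hδ, dK, dA, dI⟩ : ∃ δ : ℝ, 0 < δ ∧
      (∀ x ∈ cube (Option n), ∀ x' ∈ cube (Option n), (∀ c, |x c - x' c| ≤ δ) →
        L (fK x) ≠ anti (L (fK x'))) ∧
      (∀ x ∈ cube (Option n), ∀ x' ∈ cube (Option n), (∀ c, |x c - x' c| ≤ δ) →
        L (fA x) ≠ anti (L (fA x'))) ∧
      (∀ x ∈ cube (Option n), ∀ x' ∈ cube (Option n), (∀ c, |x c - x' c| ≤ δ) →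
        L (fI x) ≠ anti (L (fI x'))) := by
    have hp : ∀ᶠ δ in 𝓝[>] (0 : ℝ), 0 < δ := eventually_mem_nhdsWithin
    exact (hp.and ((eventually_label cK).and ((eventually_label cA).and
      (eventually_label cI)))).exists
  have good : ∀ f : (Option n → ℝ) → OnePoint (n → ℝ),
      (∀ x ∈ cube (Option n), ∀ x' ∈ cube (Option n), (∀ c, |x c - x' c| ≤ δ) →
        L (f x) ≠ anti (L (f x'))) → (∀ x, tanp n (r x) = ∞ → f x = ∞) →
      GoodLab δ (sgs ++ triv) (fun x => L (f x)) := by
    intro f hf hf0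
    refine ⟨?_, ?_, ?_⟩
    · intro x
      rcases L_fst (f x) with h | ⟨c, h⟩
      · exact Or.inl h
      · exact Or.inr ⟨some c, (mall _).mpr ⟨c, rfl⟩, h⟩
    · intro m hm x hx x' hx'
      exact hf x (hm.1 x hx).1 x' (hm.1 x' hx').1 (hm.2 x hx x' hx')
    · intro x c hc hxc
      obtain ⟨c', rfl⟩ := (mall c).mp hc
      show L (f x) = _
      rw [hf0 x (tanp_of_le (c := c') hxc.ge)]
      rfl
  refine Pool.Agent.N508.Ch.no_homotopy hδ sgs triv hnd none ?_ (some cx) (some cS) ?_ ?_
    {c | ∃ c' ∈ sg, some c' = c} {c | ∃ c' : n, some c' = c} ?_ ?_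
    (fun x => L (fK x)) (fun x => L (fA x)) (fun x => L (fI x)) (good fK dK ?_) (good fA dA ?_)
    (good fI dI ?_) ?_ ?_ ?_ ?_ ?_ ?_
  · rw [mall]
    rintro ⟨c, hc⟩
    exact Option.some_ne_none c hc
  · exact (msgs _).mpr ⟨cx, hcx, rfl⟩
  · exact (mtriv _).mpr ⟨cS, hcS, rfl⟩
  · intro c
    exact (msgs c).symm
  · intro c
    exact (mall c).symm
  · intro x hx
    show K (tm x, tanp n (r x)) = ∞
    rw [hx, hK0]
  · intro x hx
    show A (tanp n (r x)) = ∞
    rw [hx, hA0]
  · intro x hx
    exact hx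
  · intro x
    have hS : ∀ c, some c ∈ {c : Option n | ∃ c' ∈ sg, some c' = c} ↔ c ∈ sg := by
      intro c
      constructor
      · rintro ⟨c', h, h'⟩
        exact Option.some_injective _ h' ▸ h
      · intro h
        exact ⟨c, h, rfl⟩
    show L (K (tm _, tanp n (r _))) = _
    have e1 : r (gam {c : Option n | ∃ c' ∈ sg, some c' = c} x) = gam sg (r x) :=
      gam_upd_aux sg _ hS x
    have e2 : tm (gam {c : Option n | ∃ c' ∈ sg, some c' = c} x) = tm x := by
      show Set.projIcc 0 1 zero_le_one (gam {c : Option n | ∃ c' ∈ sg, some c' = c} x none + 1 / 2)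
        = Set.projIcc 0 1 zero_le_one (x none + 1 / 2)
      congr 2
      unfold gam
      rw [if_neg]
      rintro ⟨c, _, hc⟩
      exact Option.some_ne_none c hc
    rw [e1, e2, tanp_gam, hKg, L_gam sg _ hS]
  · intro x
    have hS : ∀ c, some c ∈ {c : Option n | ∃ c' ∈ sg, some c' = c} ↔ c ∈ sg := by
      intro c
      constructor
      · rintro ⟨c', h, h'⟩
        exact Option.some_injective _ h' ▸ h
      · intro h
        exact ⟨c, h, rfl⟩
    show L (A (tanp n (r _))) = _
    have e1 : r (gam {c : Option n | ∃ c' ∈ sg, some c' = c} x) = gam sg (r x) :=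
      gam_upd_aux sg _ hS x
    rw [e1, tanp_gam, hAg, L_gam sg _ hS]
  · intro x
    have hS : ∀ c, some c ∈ {c : Option n | ∃ c' : n, some c' = c} ↔ c ∈ (univ : Set n) := by
      intro c
      constructor
      · intro _
        trivial
      · intro _
        exact ⟨c, rfl⟩
    show L (tanp n (r _)) = _
    have e1 : r (gam {c : Option n | ∃ c' : n, some c' = c} x) = gam univ (r x) :=
      gam_upd_aux univ _ hS x
    rw [e1, tanp_gam, L_gam univ _ hS]
  · show L (tanp n (r 0)) = _
    have e : tanp n (r 0) = ((0 : n → ℝ) : OnePoint (n → ℝ)) := by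
      rw [tanp_of_lt]
      · congr 1
        funext c
        show Real.tan (Real.pi * 0) = 0
        rw [mul_zero, Real.tan_zero]
      · intro c
        show |(0 : ℝ)| < 1 / 2
        rw [abs_zero]
        norm_num
    rw [e]
    unfold L
    rw [OnePoint.elim_some, if_pos (by rw [norm_zero]; norm_num)]
  · intro x _
    show L (K (tm _, tanp n (r _))) = L (tanp n (r _))
    have e1 : r (upd none (-(1 / 2)) x) = r x := by
      funext c
      show upd none (-(1 / 2)) x (some c) = x (some c)
      rw [upd_ne (Option.some_ne_none c)]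
    have e2 : tm (upd none (-(1 / 2)) x) = 0 := by
      show Set.projIcc 0 1 zero_le_one (upd none (-(1 / 2)) x none + 1 / 2) = 0
      rw [upd_same]
      norm_num
    have e3 : r (Pool.Agent.N508.Ch.G (some cx) (Pool.Agent.N508.Ch.G (some cS) x)) =
        Pool.Agent.N508.Ch.G cx (Pool.Agent.N508.Ch.G cS (r x)) := by
      rw [← G_aux cS x, ← G_aux cx]
    rw [e1, e2, e3, tanp_G, tanp_G, h0]
  · intro x _
    show L (K (tm _, tanp n (r _))) = L (A (tanp n (r _)))
    have e1 : r (upd none (1 / 2) x) = r x := by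
      funext c
      show upd none (1 / 2) x (some c) = x (some c)
      rw [upd_ne (Option.some_ne_none c)]
    have e2 : tm (upd none (1 / 2) x) = 1 := by
      show Set.projIcc 0 1 zero_le_one (upd none (1 / 2) x none + 1 / 2) = 1
      rw [upd_same]
      norm_num
    have e3 : r (Pool.Agent.N508.Ch.G (some cS) (Pool.Agent.N508.Ch.G (some cS) x)) =
        Pool.Agent.N508.Ch.G cS (Pool.Agent.N508.Ch.G cS (r x)) := by
      rw [← G_aux cS x, ← G_aux cS]
    rw [e1, e2, e3, tanp_G, tanp_G, h1]

end Pool.Agent.N508.GH
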