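import Pool.Agent.N508.GH.Line

/-!
# The mapping cone of the map of degree four of the circle
-/

set_option autoImplicit false
set_option linter.unusedSectionVars false

namespace Pool.Agent.N508.GH

open Set Topology OnePoint Filter

/-- the map of degree four -/
noncomputable def H4 (z : OnePoint ℝ) : OnePoint ℝ := hh (hh z)

theorem continuous_H4 : Continuous H4 := continuous_hh.comp continuous_hh

@[simp] theorem H4_infty : H4 ∞ = ∞ := by simp [H4]

theorem hh_surjective : Function.Surjective hh := by
  intro z
  induction z using OnePoint.rec with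
  | infty => exact ⟨∞, hh_infty⟩
  | coe y =>
    have h0 : 0 ≤ y ^ 2 + 1 := by positivity
    have h1 : 0 < y + Real.sqrt (y ^ 2 + 1) := by
      have h2 : |y| < Real.sqrt (y ^ 2 + 1) := by
        rw [← Real.sqrt_sq_eq_abs]
        exact Real.sqrt_lt_sqrt (by positivity) (by linarith)
      have h3 := neg_abs_le y
      linarith
    refine ⟨((y + Real.sqrt (y ^ 2 + 1) : ℝ) : OnePoint ℝ), ?_⟩
    rw [hh_coe, if_neg h1.ne']
    congr 1
    have h4 := Real.sq_sqrt h0
    field_simp
    nlinarith

theorem H4_surjective : Function.Surjective H4 := hh_surjective.comp hh_surjective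

/-- The characteristic map of the two-cell of the mapping cone, the mapping cone being embedded
in a product of two spheres. -/
noncomputable def kap0 (z : OnePoint ℝ × ℝ) : OnePoint (ℝ × ℝ) × OnePoint (ℝ × ℝ) :=
  (sm z.1 (p (z.2 - 1 / 2)), sm (H4 z.1) (p (z.2 / 2 - 1 / 2)))

theorem continuous_kap0 : Continuous kap0 :=
  (continuous_sm continuous_fst (continuous_p.comp (by fun_prop))).prodMk
    (continuous_sm (continuous_H4.comp continuous_fst) (continuous_p.comp (by fun_prop)))

/-- the base point -/
def bp : OnePoint (ℝ × ℝ) × OnePoint (ℝ × ℝ) := (∞, ∞)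

/-- the mapping cone -/
def DD : Set (OnePoint (ℝ × ℝ) × OnePoint (ℝ × ℝ)) := kap0 '' (univ ×ˢ Icc 0 1)

theorem isCompact_DD : IsCompact DD :=
  (isCompact_univ.prod isCompact_Icc).image continuous_kap0

instance : CompactSpace DD := isCompact_iff_compactSpace.mp isCompact_DD

/-- the mapping cone without the base point -/
def Do : Type := {d : OnePoint (ℝ × ℝ) × OnePoint (ℝ × ℝ) // d ∈ DD ∧ d ≠ bp}

instance : TopologicalSpace Do := instTopologicalSpaceSubtype

instance : T2Space Do := inferInstanceAs (T2Space (Subtype _))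

instance : LocallyCompactSpace Do := by
  have h : IsLocallyClosed {d : OnePoint (ℝ × ℝ) × OnePoint (ℝ × ℝ) | d ∈ DD ∧ d ≠ bp} :=
    isCompact_DD.isClosed.isLocallyClosed.inter
      (isClosed_singleton (x := bp)).isOpen_compl.isLocallyClosed
  exact h.locallyCompactSpace

/-- the inclusion of the complement of the base point in the mapping cone -/
def gD (d : Do) : DD := ⟨d.1, d.2.1⟩

theorem range_gD : range gD = {d | d.1 ≠ bp} := by
  ext d
  constructor
  · rintro ⟨d, rfl⟩
    exact d.2.2
  · intro h
    exact ⟨⟨d.1, d.2, h⟩, rfl⟩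

theorem isOpenEmbedding_gD : IsOpenEmbedding gD := by
  refine ⟨?_, ?_⟩
  · have h : IsEmbedding (Subtype.val : Do → OnePoint (ℝ × ℝ) × OnePoint (ℝ × ℝ)) :=
      IsEmbedding.subtypeVal
    exact IsEmbedding.codRestrict h DD fun d => d.2.1
  · rw [range_gD]
    exact (isClosed_singleton (x := bp)).isOpen_compl.preimage continuous_subtype_val

/-- the identification of the compactification with the mapping cone -/
def toD (z : OnePoint Do) : OnePoint (ℝ × ℝ) × OnePoint (ℝ × ℝ) := z.elim bp fun d => d.1

theorem continuous_toD : Continuous toD := by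
  have h := continuous_descend (S := Unit) isOpenEmbedding_gD
    (F := fun z => (z.2 : OnePoint (ℝ × ℝ) × OnePoint (ℝ × ℝ)))
    (continuous_subtype_val.comp continuous_snd) (z₀ := bp) (fun _ d hd => by
      rw [range_gD] at hd
      simpa using hd)
  exact h.comp (Continuous.prodMk continuous_const continuous_id : Continuous fun x => ((), x))

@[simp] theorem toD_infty : toD ∞ = bp := rfl

/-- the inverse identification -/
noncomputable def ofD (d : DD) : OnePoint Do := collapse gD d

theorem continuous_ofD : Continuous ofD := continuous_collapse isOpenEmbedding_gD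

theorem toD_ofD (d : DD) : toD (ofD d) = d.1 := by
  unfold ofD
  by_cases h : d ∈ range gD
  · obtain ⟨d, rfl⟩ := h
    rw [collapse_apply isOpenEmbedding_gD.injective]
    rfl
  · rw [collapse_of_notMem h]
    rw [range_gD] at h
    simp at h
    exact h.symm

theorem ofD_of_eq {d : DD} (h : d.1 = bp) : ofD d = ∞ := by
  apply collapse_of_notMem
  rw [range_gD]
  exact fun h' => h' h

theorem toD_injective : Function.Injective toD := by
  intro z w h
  induction z using OnePoint.rec with
  | infty =>
    induction w using OnePoint.rec with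
    | infty => rfl
    | coe w => exact absurd h.symm w.2.2
  | coe z =>
    induction w using OnePoint.rec with
    | infty => exact absurd h z.2.2
    | coe w =>
      congr 1
      exact Subtype.ext h

theorem toD_mem (z : OnePoint Do) : toD z ∈ DD := by
  induction z using OnePoint.rec with
  | infty =>
    refine ⟨(∞, 0), ⟨trivial, by simp⟩, ?_⟩
    unfold kap0
    simp [bp]
  | coe z => exact z.2.1

/-- the characteristic map of the two-cell -/
noncomputable def kap (z : OnePoint ℝ × unitInterval) : OnePoint Do :=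
  ofD ⟨kap0 (z.1, z.2), (z.1, z.2), ⟨trivial, z.2.2⟩, rfl⟩

theorem continuous_kap : Continuous kap := by
  apply continuous_ofD.comp
  apply Continuous.subtype_mk
  exact continuous_kap0.comp
    (continuous_fst.prodMk (continuous_subtype_val.comp continuous_snd))

theorem toD_kap (z : OnePoint ℝ × unitInterval) : toD (kap z) = kap0 (z.1, z.2) := toD_ofD _

theorem kap_surjective : Function.Surjective kap := by
  intro z
  obtain ⟨⟨s, u⟩, ⟨_, hu⟩, h⟩ := toD_mem z
  refine ⟨(s, ⟨u, hu⟩), ?_⟩
  apply toD_injective
  rw [toD_kap]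
  exact h

@[simp] theorem kap_infty (u : unitInterval) : kap (∞, u) = ∞ := by
  apply toD_injective
  rw [toD_kap]
  unfold kap0
  simp [bp]

theorem p_zero_sub : p (0 - 1 / 2) = ∞ := by
  rw [zero_sub, p_neg_half]

@[simp] theorem kap_zero (s : OnePoint ℝ) : kap (s, 0) = ∞ := by
  apply toD_injective
  rw [toD_kap]
  unfold kap0
  simp only [Set.Icc.coe_zero, zero_div, p_zero_sub, sm_infty_right]
  rfl

theorem kap0_one (s : OnePoint ℝ) : kap0 (s, 1) = (∞, sm (H4 s) (p 0)) := by
  unfold kap0
  simp only
  rw [show (1 : ℝ) - 1 / 2 = 1 / 2 by norm_num, show (1 : ℝ) / 2 - 1 / 2 = 0 by norm_num, p_half,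
    sm_infty_right]

theorem iD_mem (y : OnePoint ℝ) : ((∞, sm y (p 0)) : OnePoint (ℝ × ℝ) × OnePoint (ℝ × ℝ)) ∈ DD := by
  obtain ⟨s, rfl⟩ := H4_surjective y
  exact ⟨(s, 1), ⟨trivial, by simp⟩, kap0_one s⟩

/-- the inclusion of the circle -/
noncomputable def iD (y : OnePoint ℝ) : OnePoint Do := ofD ⟨(∞, sm y (p 0)), iD_mem y⟩

theorem continuous_iD : Continuous iD := by
  apply continuous_ofD.comp
  apply Continuous.subtype_mk
  exact continuous_const.prodMk (continuous_sm continuous_id continuous_const)

theorem toD_iD (y : OnePoint ℝ) : toD (iD y) = (∞, sm y (p 0)) := toD_ofD _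

@[simp] theorem iD_infty : iD ∞ = ∞ := by
  apply toD_injective
  rw [toD_iD]
  rfl

theorem kap_one (s : OnePoint ℝ) : kap (s, 1) = iD (H4 s) := by
  apply toD_injective
  rw [toD_kap, toD_iD]
  exact kap0_one s

/-- the collapse of the mapping cone to the two-sphere -/
def qD (z : OnePoint Do) : OnePoint (ℝ × ℝ) := (toD z).1

/-- the map of the mapping cone to the cone -/
def kD (z : OnePoint Do) : OnePoint (ℝ × ℝ) := (toD z).2

theorem continuous_qD : Continuous qD := continuous_fst.comp continuous_toD

theorem continuous_kD : Continuous kD := continuous_snd.comp continuous_toD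

@[simp] theorem qD_infty : qD ∞ = ∞ := rfl

@[simp] theorem kD_infty : kD ∞ = ∞ := rfl

@[simp] theorem qD_iD (y : OnePoint ℝ) : qD (iD y) = ∞ := by
  unfold qD
  rw [toD_iD]

theorem qD_kap (z : OnePoint ℝ × unitInterval) : qD (kap z) = sm z.1 (p (z.2 - 1 / 2)) := by
  unfold qD
  rw [toD_kap]
  rfl

theorem kD_kap (z : OnePoint ℝ × unitInterval) :
    kD (kap z) = sm (H4 z.1) (p (z.2 / 2 - 1 / 2)) := by
  unfold kD
  rw [toD_kap]
  rfl

end Pool.Agent.N508.GH
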