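import Pool.Agent.N508.GH.Defs
import Pool.Agent.N508.GH.Dsp

/-!
# The group of order two and the example
-/

set_option autoImplicit false
set_option linter.unusedSectionVars false

namespace Pool.Agent.N508.GH

section Group

open scoped Manifold ContDiff

instance : Unique (EuclideanSpace ℝ (Fin 0)) := ⟨⟨0⟩, fun x => Subsingleton.elim x 0⟩

theorem isManifold_units : letI : ChartedSpace (EuclideanSpace ℝ (Fin 0)) ℤˣ :=
    ChartedSpace.ofDiscreteTopology
    IsManifold (𝓡 0) ∞ ℤˣ :=
  IsManifold.of_discreteTopology _

theorem lieGroup_units : letI : ChartedSpace (EuclideanSpace ℝ (Fin 0)) ℤˣ :=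
    ChartedSpace.ofDiscreteTopology
    LieGroup (𝓡 0) ∞ ℤˣ :=
  letI : ChartedSpace (EuclideanSpace ℝ (Fin 0)) ℤˣ := ChartedSpace.ofDiscreteTopology
  haveI : IsManifold (𝓡 0) ∞ ℤˣ := isManifold_units
  { contMDiff_mul := contMDiff_of_discreteTopology
    contMDiff_inv := contMDiff_of_discreteTopology }

/-- The group of order two as a compact Lie group. -/
noncomputable def C2 : CompactLieGroup :=
  letI : ChartedSpace (EuclideanSpace ℝ (Fin 0)) ℤˣ := ChartedSpace.ofDiscreteTopology
  { carrier := ℤˣ
    dim := 0
    charted := ChartedSpace.ofDiscreteTopology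
    lie := lieGroup_units }

theorem card_C2 : Nat.card C2.carrier = 2 := by
  show Nat.card ℤˣ = 2
  simp

end Group

open Set Topology OnePoint Filter

/-- the nontrivial element -/
noncomputable def gm : C2.carrier := (-1 : ℤˣ)

theorem C2_cases (g : C2.carrier) : g = 1 ∨ g = gm := Int.units_eq_one_or g

theorem gm_mul_gm : gm * gm = 1 := by
  show (-1 : ℤˣ) * (-1 : ℤˣ) = 1
  simp

instance : DiscreteTopology C2.carrier := inferInstanceAs (DiscreteTopology ℤˣ)

instance : Finite C2.carrier := inferInstanceAs (Finite ℤˣ)

theorem neg_one_smul_real (y : ℝ) : ((-1 : ℤˣ) • y : ℝ) = -y := by simp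

/-- the sign representation -/
noncomputable def sgn : Rep C2 where
  carrier := ℝ
  act := inferInstanceAs (DistribMulAction ℤˣ ℝ)
  linear := inferInstanceAs (SMulCommClass ℤˣ ℝ ℝ)
  cont := inferInstanceAs (ContinuousSMul ℤˣ ℝ)

/-- a space with the trivial action -/
def triv (P : Type) [TopologicalSpace P] [T2Space P] [LocallyCompactSpace P] : GSpace C2 where
  carrier := P
  act :=
    { smul := fun _ x => x
      one_smul := fun _ => rfl
      mul_smul := fun _ _ _ => rfl }
  cont := @ContinuousSMul.mk _ _ ⟨fun _ x => x⟩ _ _ continuous_snd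

theorem smulPlus_one (P : GSpace C2) (x : OnePoint P.carrier) : P.smulPlus 1 x = x := by
  induction x using OnePoint.rec with
  | infty => rfl
  | coe x =>
    show (((1 : C2.carrier) • x : P.carrier) : OnePoint P.carrier) = x
    rw [one_smul]

theorem smulPlus_prod (P Q : GSpace C2) (g : C2.carrier) (x : OnePoint P.carrier)
    (y : OnePoint Q.carrier) :
    (P.prod Q).smulPlus g (sm x y) = sm (P.smulPlus g x) (Q.smulPlus g y) := by
  induction x using OnePoint.rec with
  | infty => rfl
  | coe x =>
    induction y using OnePoint.rec with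
    | infty => rfl
    | coe y => rfl

theorem smulPlus_triv {P : Type} [TopologicalSpace P] [T2Space P] [LocallyCompactSpace P]
    (g : C2.carrier) (x : OnePoint P) : (triv P).smulPlus g x = x := by
  induction x using OnePoint.rec with
  | infty => rfl
  | coe x => rfl

theorem smulPlus_sgn (x : OnePoint ℝ) : sgn.sphere.smulPlus gm x = ng x := by
  induction x using OnePoint.rec with
  | infty => rfl
  | coe x =>
    show OnePoint.some ((-1 : ℤˣ) • x) = OnePoint.some (-x)
    congr 1
    simp

/-- based maps for the group of order two -/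
def mkGMap {P Q : GSpace C2} (f : OnePoint P.carrier → OnePoint Q.carrier) (hf : Continuous f)
    (h0 : f ∞ = ∞) (hg : ∀ x, f (P.smulPlus gm x) = Q.smulPlus gm (f x)) : GMap P Q where
  toFun := f
  continuous_toFun := hf
  map_base := h0
  map_smul g x := by
    rcases C2_cases g with rfl | rfl
    · rw [smulPlus_one, smulPlus_one]
    · exact hg x

/-- the source of the example -/
noncomputable def XX : GSpace C2 := sgn.sphere.prod (triv Do)

/-- the target of the example -/
noncomputable def YY : GSpace C2 := sgn.sphere.prod (triv (ℝ × ℝ))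

/-- the map of the example -/
noncomputable def f0 : OnePoint (ℝ × Do) → OnePoint (ℝ × (ℝ × ℝ)) :=
  smash hh fun d => smash hh id (qD d)

theorem continuous_f0 : Continuous f0 :=
  continuous_smash continuous_hh
    ((continuous_smash continuous_hh continuous_id hh_infty rfl).comp continuous_qD) hh_infty rfl

theorem f0_sm (x : OnePoint ℝ) (d : OnePoint Do) :
    f0 (sm x d) = sm (hh x) (smash hh id (qD d)) := smash_sm hh_infty rfl x d

theorem f0_equi (z : OnePoint XX.carrier) : f0 (XX.smulPlus gm z) = YY.smulPlus gm (f0 z) := by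
  have key : ∀ (x : OnePoint ℝ) (d : OnePoint Do),
      f0 (XX.smulPlus gm (sm x d)) = YY.smulPlus gm (f0 (sm x d)) := by
    intro x d
    have e1 : XX.smulPlus gm (sm x d) = sm (ng x) d := by
      have := smulPlus_prod sgn.sphere (triv Do) gm x d
      rw [smulPlus_sgn, smulPlus_triv] at this
      exact this
    have e2 : ∀ (x : OnePoint ℝ) (y : OnePoint (ℝ × ℝ)),
        YY.smulPlus gm (sm x y) = sm (ng x) y := by
      intro x y
      have := smulPlus_prod sgn.sphere (triv (ℝ × ℝ)) gm x y
      rw [smulPlus_sgn, smulPlus_triv] at this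
      exact this
    rw [e1, f0_sm, f0_sm, hh_ng]
    exact (e2 _ _).symm
  induction z using OnePoint.rec with
  | infty => rfl
  | coe z => exact key (OnePoint.some z.1) (OnePoint.some z.2)

/-- the map of the example -/
noncomputable def ff : GMap XX YY := mkGMap f0 continuous_f0 rfl f0_equi

end Pool.Agent.N508.GH
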