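import Pool.Agent.N508.GH.Ghost
import Pool.Agent.N508.GH.Grp

/-!
# The null-homotopies for the free orbit
-/

set_option autoImplicit false
set_option linter.unusedSectionVars false

namespace Pool.Agent.N508.GH

open Set Topology OnePoint Filter

/-- assembling an equivariant null-homotopy on a free space -/
theorem null_free {A P Q : Type} [TopologicalSpace A] [TopologicalSpace P] [TopologicalSpace Q]
    [T2Space A] [T2Space Q] {α : A → A} {π : P → P} {β : Q → Q} (hα : Continuous α)
    (hα' : ∀ a, α (α a) = a) (hβ : Continuous β) (hβ' : ∀ a, β (β a) = a) {C : Set A}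
    (hC : IsClopen C) (hCα : ∀ a, α a ∈ C ↔ a ∉ C) {f : OnePoint P → OnePoint Q}
    (hf : HE id id f (fun _ => ∞)) (hfe : Eqv π β f) {x : OnePoint A → OnePoint P}
    (hx : Continuous x) (hxe : Eqv α π x) : HE α β (fun z => f (x z)) (fun _ => ∞) := by
  classical
  obtain ⟨N, hN, hN1, hN2, hN3⟩ := hf
  let χ : OnePoint A → OnePoint A := fun z => z.elim ∞ fun a => if a ∈ C then (a : OnePoint A) else ∞
  have cχ : Continuous χ := by
    rw [OnePoint.continuous_iff]
    constructor
    · intro s hs
      rw [Filter.mem_map]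
      have h1 : OnePoint.some ⁻¹' s ∈ coclosedCompact A := tendsto_coe_infty hs
      filter_upwards [h1] with a ha
      show (if a ∈ C then (a : OnePoint A) else ∞) ∈ s
      split_ifs
      · exact ha
      · exact mem_of_mem_nhds hs
    · show Continuous fun a => if a ∈ C then (a : OnePoint A) else ∞
      apply continuous_if
      · intro a ha
        have : frontier {a | a ∈ C} = ∅ := hC.frontier_eq
        rw [this] at ha
        exact absurd ha (notMem_empty a)
      · exact OnePoint.continuous_coe.continuousOn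
      · exact continuous_const.continuousOn
  have χ_mem : ∀ a ∈ C, χ (a : OnePoint A) = a := fun a ha => if_pos ha
  have χ_notMem : ∀ a, a ∉ C → χ (a : OnePoint A) = ∞ := fun a ha => if_neg ha
  have N0 : ∀ t, N (t, ∞) = ∞ := fun t => (hN1 t).1
  refine assemble (M := fun w => N (w.1, x (χ w.2))) hα hα' hβ hβ' ?_ ?_ ?_ ?_ ?_ ?_
  · exact hN.comp (continuous_fst.prodMk (hx.comp (cχ.comp continuous_snd)))
  · intro t
    show N (t, x ∞) = ∞
    rw [hxe.1, N0]
  · intro t z
    induction z using OnePoint.rec with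
    | infty =>
      left
      show N (t, x ∞) = ∞
      rw [hxe.1, N0]
    | coe a =>
      by_cases ha : a ∈ C
      · right
        show N (t, x (χ ((α a : A) : OnePoint A))) = ∞
        rw [χ_notMem _ (fun h => (hCα a).mp h ha), hxe.1, N0]
      · left
        show N (t, x (χ ((a : A) : OnePoint A))) = ∞
        rw [χ_notMem _ ha, hxe.1, N0]
  · intro z hz
    simp only at hz ⊢
    rw [hN2] at hz ⊢
    induction z using OnePoint.rec with
    | infty =>
      show OnePoint.map β (f (x ∞)) = f (x ∞)
      rw [hxe.1, hfe.1]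
      rfl
    | coe a =>
      by_cases ha : a ∈ C
      · rw [χ_mem a ha] at hz
        rw [OnePoint.map_some, χ_notMem _ (fun h => (hCα a).mp h ha), hxe.1, hfe.1, hz]
        rfl
      · rw [OnePoint.map_some, χ_mem _ ((hCα a).mpr ha)]
        have h1 := hxe.2 (a : OnePoint A)
        rw [OnePoint.map_some] at h1
        rw [h1, hfe.2, map_map]
        simp only [hβ', map_id']
  · intro z hz
    simp only at hz ⊢
    rw [hN2] at hz ⊢
    induction z using OnePoint.rec with
    | infty => rfl
    | coe a =>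
      by_cases ha : a ∈ C
      · rw [χ_mem a ha]
      · rw [χ_notMem a ha, hxe.1, hfe.1] at hz
        exact absurd rfl hz
  · intro z
    exact hN3 _

/-- the contraction of the cone coordinate -/
noncomputable def Gc (w : unitInterval × OnePoint ℝ) : OnePoint ℝ :=
  w.2.elim ∞ fun v => p ((1 - (w.1 : ℝ)) * (1 - 2 * |sc v|) - 1 / 2)

theorem continuous_Gc : Continuous Gc := by
  apply continuous_lift1 (S := unitInterval)
    (F := fun z => p ((1 - (z.1 : ℝ)) * (1 - 2 * |z.2|) - 1 / 2)) (z₀ := ∞)
  · exact continuous_p.comp (by fun_prop)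
  · intro s
    simp only
    rw [abs_of_pos (by norm_num : (0 : ℝ) < 1 / 2),
      show (1 - (s : ℝ)) * (1 - 2 * (1 / 2)) - 1 / 2 = -(1 / 2) by ring, p_neg_half]
  · intro s
    simp only
    rw [abs_neg, abs_of_pos (by norm_num : (0 : ℝ) < 1 / 2),
      show (1 - (s : ℝ)) * (1 - 2 * (1 / 2)) - 1 / 2 = -(1 / 2) by ring, p_neg_half]

theorem Gc_zero_p {x : ℝ} (hx : -(1 / 2) ≤ x) (hx' : x ≤ 0) :
    Gc (0, p x) = p (2 * x + 1 / 2) := by
  rcases hx.eq_or_lt with h | h
  · rw [← h, p_neg_half, show 2 * -(1 / 2) + 1 / 2 = -(1 / 2 : ℝ) by norm_num, p_neg_half]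
    rfl
  · have hlt : |x| < 1 / 2 := by
      rw [abs_lt]
      constructor <;> linarith
    rw [p_of_lt hlt]
    show p ((1 - ((0 : unitInterval) : ℝ)) * (1 - 2 * |sc (Real.tan (Real.pi * x))|) - 1 / 2) = _
    rw [sc_tan hlt, Set.Icc.coe_zero, abs_of_nonpos hx']
    congr 1
    ring

theorem Gc_one (z : OnePoint ℝ) : Gc (1, z) = ∞ := by
  induction z using OnePoint.rec with
  | infty => rfl
  | coe v =>
    show p ((1 - ((1 : unitInterval) : ℝ)) * (1 - 2 * |sc v|) - 1 / 2) = ∞
    rw [Set.Icc.coe_one, show (1 - (1 : ℝ)) * (1 - 2 * |sc v|) - 1 / 2 = -(1 / 2) by ring,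
      p_neg_half]

/-- the composite of the collapse with the suspension of the map of degree four is null-homotopic -/
theorem null_H4_q : HE id id (fun d => smash H4 id (qD d)) (fun _ => ∞) := by
  refine ⟨fun w => smash id (fun z => Gc (w.1, z)) (kD w.2), ?_, fun _ => eqv_based rfl, ?_, ?_⟩
  · have h := continuous_smash_family (F := fun z : unitInterval × OnePoint ℝ => z.2)
      continuous_snd continuous_Gc (fun _ => rfl) (fun _ => rfl)
    exact h.comp (continuous_fst.prodMk (continuous_kD.comp continuous_snd))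
  · intro z
    obtain ⟨⟨s, u⟩, rfl⟩ := kap_surjective z
    show smash id (fun z => Gc (0, z)) (kD (kap (s, u))) = smash H4 id (qD (kap (s, u)))
    rw [kD_kap, qD_kap, smash_sm H4_infty rfl, smash_sm rfl rfl]
    simp only [id]
    have h1 := u.2.1
    have h2 := u.2.2
    rw [Gc_zero_p (by linarith) (by linarith)]
    congr 2
    ring
  · intro z
    show smash id (fun z => Gc (1, z)) (kD z) = ∞
    generalize kD z = w
    induction w using OnePoint.rec with
    | infty => rfl
    | coe w =>
      rw [smash_coe, Gc_one, sm_infty_right]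

/-- reassociation -/
def eA (z : ℝ × (ℝ × ℝ)) : (ℝ × ℝ) × ℝ := ((z.1, z.2.1), z.2.2)

/-- reassociation -/
def eB (z : (ℝ × ℝ) × ℝ) : ℝ × (ℝ × ℝ) := (z.1.1, (z.1.2, z.2))

/-- the map of the example is null-homotopic without the group action -/
theorem null_f0 : HE id id f0 (fun _ => ∞) := by
  have oddh : Eqv (fun x : ℝ => -x) (fun x : ℝ => -x) hh := ⟨hh_infty, hh_ng⟩
  have h1 := rot_htpy (V := ℝ) hh continuous_hh oddh LinearMap.id
    (⟨hh_infty, fun z => by
      rw [show ((LinearMap.id : ℝ →ₗ[ℝ] ℝ) : ℝ → ℝ) = fun x => x from rfl, map_id', map_id']⟩)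
  have h2 : HE (id : ℝ × ℝ → ℝ × ℝ) (id : ℝ × ℝ → ℝ × ℝ) (smash id hh) (smash hh id) := h1
  have c1 : Continuous (smash (id : OnePoint ℝ → OnePoint ℝ) hh) :=
    continuous_smash continuous_id continuous_hh rfl hh_infty
  have h3 := h2.symm.comp_right (α := (id : ℝ × ℝ → ℝ × ℝ)) c1 (eqv_based rfl)
  have h4 := h3.smash_left (R := ℝ) (S := ℝ) continuous_id (eqv_id (id : ℝ → ℝ))
  have ceA : Continuous (OnePoint.map eA) := by
    apply continuous_map_of_leftInverse (ψ := eB)
    · unfold eA; fun_prop
    · unfold eB; fun_prop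
    · intro z; rfl
  have ceB : Continuous (OnePoint.map eB) := by
    apply continuous_map_of_leftInverse (ψ := eA)
    · unfold eB; fun_prop
    · unfold eA; fun_prop
    · intro z; rfl
  have h5 := (h4.comp_right ceA (α := (id : ℝ × (ℝ × ℝ) → ℝ × (ℝ × ℝ)))
    (eqv_map (fun z => rfl))).comp_left ceB (δ := (id : ℝ × (ℝ × ℝ) → ℝ × (ℝ × ℝ)))
    (eqv_map (fun z => rfl))
  have cq : Continuous (smash (id : OnePoint ℝ → OnePoint ℝ) qD) :=
    continuous_smash continuous_id continuous_qD rfl rfl
  have h6 := h5.comp_right (α := (id : ℝ × Do → ℝ × Do)) cq (eqv_based rfl)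
  have h7 := null_H4_q.smash_right (R := ℝ) (S := ℝ) continuous_id (eqv_id (id : ℝ → ℝ))
  have h7' : HE (id : ℝ × Do → ℝ × Do) (id : ℝ × (ℝ × ℝ) → ℝ × (ℝ × ℝ))
    (smash id (fun d => smash H4 id (qD d))) (smash id (fun _ => ∞)) := h7
  have e : ∀ a b : OnePoint ℝ, ∀ c : OnePoint ℝ, OnePoint.map eB (sm (sm a b) c) = sm a (sm b c) := by
    intro a b c
    induction a using OnePoint.rec <;> induction b using OnePoint.rec <;>
      induction c using OnePoint.rec <;> rfl
  refine (h6.congr (fun z => ?_) (fun z => ?_)).trans (h7'.congr (fun _ => rfl) (fun z => ?_))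
  · induction z using OnePoint.rec with
    | infty => rfl
    | coe z =>
      obtain ⟨x, d⟩ := z
      show OnePoint.map eB (smash (fun x => smash hh id (smash id hh x)) id (OnePoint.map eA
        (sm (x : OnePoint ℝ) (qD (d : OnePoint Do))))) =
        sm (hh (x : OnePoint ℝ)) (smash hh id (qD (d : OnePoint Do)))
      generalize qD (d : OnePoint Do) = w
      induction w using OnePoint.rec with
      | infty => rw [sm_infty_right, smash_infty, sm_infty_right]; rfl
      | coe w =>
        obtain ⟨s, v⟩ := w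
        show OnePoint.map eB (sm (smash hh id (sm (x : OnePoint ℝ) (hh (s : OnePoint ℝ))))
          (v : OnePoint ℝ)) = sm (hh (x : OnePoint ℝ)) (sm (hh (s : OnePoint ℝ)) (v : OnePoint ℝ))
        rw [smash_sm hh_infty rfl, e]
        rfl
  · induction z using OnePoint.rec with
    | infty => rfl
    | coe z =>
      obtain ⟨x, d⟩ := z
      show OnePoint.map eB (smash (fun x => smash id hh (smash id hh x)) id (OnePoint.map eA
        (sm (x : OnePoint ℝ) (qD (d : OnePoint Do))))) =
        sm (x : OnePoint ℝ) (smash H4 id (qD (d : OnePoint Do)))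
      generalize qD (d : OnePoint Do) = w
      induction w using OnePoint.rec with
      | infty => rw [sm_infty_right]; rfl
      | coe w =>
        obtain ⟨s, v⟩ := w
        show OnePoint.map eB (sm (smash id hh (sm (x : OnePoint ℝ) (hh (s : OnePoint ℝ))))
          (v : OnePoint ℝ)) = sm (x : OnePoint ℝ) (sm (H4 (s : OnePoint ℝ)) (v : OnePoint ℝ))
        rw [smash_sm rfl hh_infty, e]
        rfl
  · induction z using OnePoint.rec with
    | infty => rfl
    | coe z =>
      rw [smash_coe, sm_infty_right]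

end Pool.Agent.N508.GH
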