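import Pool.Agent.N508.GH.Rot

/-!
# The null-homotopies for the trivial orbit
-/

set_option autoImplicit false
set_option linter.unusedSectionVars false

namespace Pool.Agent.N508.GH

open Set Topology OnePoint Filter

section

variable {U : Type} [NormedAddCommGroup U] [NormedSpace ℝ U] [LocallyCompactSpace U]
  [FiniteDimensional ℝ U] {P' K : Type} [TopologicalSpace P'] [T2Space P'] [LocallyCompactSpace P']
  [TopologicalSpace K] [T2Space K] [LocallyCompactSpace K]

/-- rotation in the plane of the first and the sign coordinate -/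
noncomputable def RR (U K : Type) (t : ℝ) (z : ℝ × (U × (U × (K × (ℝ × (ℝ × ℝ)))))) :
    ℝ × (U × (U × (K × (ℝ × (ℝ × ℝ))))) :=
  ((rot t (z.1, z.2.2.2.2.1)).1,
    (z.2.1, (z.2.2.1, (z.2.2.2.1, ((rot t (z.1, z.2.2.2.2.1)).2, z.2.2.2.2.2)))))

theorem RR_RR (t : ℝ) (z : ℝ × (U × (U × (K × (ℝ × (ℝ × ℝ)))))) :
    RR U K (-t) (RR U K t z) = z := by
  obtain ⟨s, u', u, k, x, w⟩ := z
  unfold RR
  simp only [Prod.mk.eta]
  rw [rot_neg_rot]

theorem continuous_RR :
    Continuous fun w : ℝ × (ℝ × (U × (U × (K × (ℝ × (ℝ × ℝ)))))) => RR U K w.1 w.2 := by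
  have h : Continuous fun w : ℝ × (ℝ × (U × (U × (K × (ℝ × (ℝ × ℝ)))))) =>
      rot w.1 (w.2.1, w.2.2.2.2.2.1) :=
    continuous_rot_comp continuous_fst (by fun_prop)
  unfold RR
  exact (continuous_fst.comp h).prodMk (by
    refine Continuous.prodMk (by fun_prop) (Continuous.prodMk (by fun_prop)
      (Continuous.prodMk (by fun_prop) (Continuous.prodMk (continuous_snd.comp h) (by fun_prop)))))

theorem continuous_RRP :
    Continuous fun w : unitInterval × OnePoint (ℝ × (U × (U × (K × (ℝ × (ℝ × ℝ)))))) =>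
      OnePoint.map (RR U K (Real.pi * w.1)) w.2 := by
  have h : Continuous fun w : ℝ × OnePoint (ℝ × (U × (U × (K × (ℝ × (ℝ × ℝ)))))) =>
      OnePoint.map (RR U K w.1) w.2 :=
    continuous_family (S := ℝ) (φ := fun w => RR U K w.1 w.2) (ψ := fun w => RR U K (-w.1) w.2)
      continuous_RR (continuous_RR.comp (f := fun w : ℝ × (ℝ × (U × (U × (K × (ℝ × (ℝ × ℝ)))))) =>
        (-w.1, w.2)) (by fun_prop)) (fun t z => RR_RR t z)
  exact h.comp (f := fun w : unitInterval × OnePoint (ℝ × (U × (U × (K × (ℝ × (ℝ × ℝ)))))) =>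
    (Real.pi * (w.1 : ℝ), w.2)) (by fun_prop)

/-- the sign on the target without the first coordinate -/
def rK (K : Type) (z : K × (ℝ × (ℝ × ℝ))) : K × (ℝ × (ℝ × ℝ)) := (z.1, (-z.2.1, z.2.2))

theorem continuous_rK : Continuous (rK K) := by
  unfold rK
  fun_prop

theorem rK_rK (z : K × (ℝ × (ℝ × ℝ))) : rK K (rK K z) = z := by
  unfold rK
  simp

/-- the nonequivariant null-homotopy -/
theorem null_one (γ : U →ₗ[ℝ] U) (hγ : ∀ u, γ (γ u) = u)
    {y : OnePoint (U × P') → OnePoint (U × (K × (ℝ × (ℝ × ℝ))))} (hy : Continuous y)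
    (hyg : Eqv (Prod.map γ id) (Prod.map γ (rK K)) y) :
    HE id id (smash hh (smash (id : OnePoint U → OnePoint U) y)) (fun _ => ∞) := by
  refine halves (P := U × (U × P')) (Q := U × (U × (K × (ℝ × (ℝ × ℝ)))))
    (continuous_smash continuous_id hy rfl hyg.1) rfl (Prod.map id (Prod.map id (rK K)))
    (conj_htpy γ hγ hy (rK K) continuous_rK rK_rK hyg)
    (R := fun w => OnePoint.map (RR U K (Real.pi * w.1)) w.2) continuous_RRP (fun _ => rfl) ?_ ?_
  · intro z
    simp only [Set.Icc.coe_zero, mul_zero]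
    induction z using OnePoint.rec with
    | infty => rfl
    | coe z =>
      obtain ⟨s, u', u, k, x, w⟩ := z
      simp [RR]
  · intro z
    simp only [Set.Icc.coe_one, mul_one]
    induction z using OnePoint.rec with
    | infty => rfl
    | coe z =>
      obtain ⟨s, u', u, k, x, w⟩ := z
      simp [RR, rot_pi, rK]

/-- reassociation -/
def eP {P U : Type} (z : ((ℝ × ℝ) × U) × P) : ℝ × (ℝ × (U × P)) :=
  (z.1.1.1, (z.1.1.2, (z.1.2, z.2)))

/-- reassociation -/
def eQ {P U : Type} (z : ℝ × (ℝ × (U × P))) : ((ℝ × ℝ) × U) × P :=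
  (((z.1, z.2.1), z.2.2.1), z.2.2.2)

theorem eQ_sm {P U : Type} (a b : OnePoint ℝ) (c : OnePoint U) (d : OnePoint P) :
    OnePoint.map eQ (sm a (sm b (sm c d))) = sm (sm (sm a b) c) d := by
  induction a using OnePoint.rec <;> induction b using OnePoint.rec <;>
    induction c using OnePoint.rec <;> induction d using OnePoint.rec <;> rfl

/-- the sign on the source and target -/
def sW {U : Type} (γ : U → U) (z : (ℝ × ℝ) × U) : (ℝ × ℝ) × U := ((-z.1.1, z.1.2), γ z.2)

theorem map_sW {U : Type} (γ : U → U) (a b : OnePoint ℝ) (c : OnePoint U) :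
    OnePoint.map (sW γ) (sm (sm a b) c) = sm (sm (ng a) b) (OnePoint.map γ c) := by
  induction a using OnePoint.rec <;> induction b using OnePoint.rec <;>
    induction c using OnePoint.rec <;> rfl

/-- the equivariant null-homotopy -/
theorem null_two (γ : U →ₗ[ℝ] U) (hγ : ∀ u, γ (γ u) = u)
    {y : OnePoint (U × P') → OnePoint (U × (K × (ℝ × (ℝ × ℝ))))} (hy : Continuous y)
    (hyg : Eqv (Prod.map γ id) (Prod.map γ (rK K)) y) :
    HE (Prod.map (sW γ) (Prod.map γ (id : P' → P'))) (Prod.map (sW γ) (Prod.map γ (rK K)))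
      (smash (smash (smash hh hh) (id : OnePoint U → OnePoint U)) y) (fun _ => ∞) := by
  obtain ⟨N, hN, hN1, hN2, hN3⟩ := null_one γ hγ hy hyg
  have cγ : Continuous γ := γ.continuous_of_finiteDimensional
  have cW : Continuous (sW (U := U) γ) := by
    unfold sW
    fun_prop
  have WW : ∀ w, sW γ (sW γ w) = w := by
    intro w
    unfold sW
    simp [hγ]
  have ceP : Continuous (OnePoint.map (eP (U := U) (P := U × P'))) := by
    apply continuous_map_of_leftInverse (ψ := eQ)
    · unfold eP; fun_prop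
    · unfold eQ; fun_prop
    · intro z; rfl
  have ceQ : Continuous (OnePoint.map (eQ (U := U) (P := U × (K × (ℝ × (ℝ × ℝ)))))) := by
    apply continuous_map_of_leftInverse (ψ := eP)
    · unfold eQ; fun_prop
    · unfold eP; fun_prop
    · intro z; rfl
  -- the formula for the half map
  have key : ∀ (t : unitInterval) (x s : ℝ) (u : U) (q : U × P'),
      OnePoint.map eQ (smash hp (fun w => N (t, w))
        (OnePoint.map eP (((((x, s), u), q) : ((ℝ × ℝ) × U) × (U × P')) :
          OnePoint (((ℝ × ℝ) × U) × (U × P'))))) =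
      OnePoint.map eQ (sm (hp x) (N (t, ((s, (u, q)) : ℝ × (U × (U × P')))))) :=
    fun t x s u q => rfl
  have key0 : ∀ (x s : ℝ) (u : U) (q : U × P'),
      OnePoint.map eQ (smash hp (fun w => N (0, w))
        (OnePoint.map eP (((((x, s), u), q) : ((ℝ × ℝ) × U) × (U × P')) :
          OnePoint (((ℝ × ℝ) × U) × (U × P'))))) =
      sm (sm (sm (hp x) (hh s)) (u : OnePoint U)) (y q) := by
    intro x s u q
    rw [key, hN2, smash_coe, smash_coe, eQ_sm]
    rfl
  refine assemble (M := fun w => OnePoint.map eQ (smash hp (fun z => N (w.1, z))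
    (OnePoint.map eP w.2))) ?_ ?_ ?_ ?_ ?_ (fun _ => rfl) ?_ ?_ ?_ ?_
  · exact cW.prodMap (cγ.prodMap continuous_id)
  · rintro ⟨w, u, q⟩
    simp [WW, hγ]
  · exact cW.prodMap (cγ.prodMap continuous_rK)
  · rintro ⟨w, u, q⟩
    simp [WW, hγ, rK_rK]
  · apply ceQ.comp
    have h := continuous_smash_family (F := fun z : unitInterval × OnePoint ℝ => hp z.2)
      (continuous_hp.comp continuous_snd) hN (fun _ => rfl) (fun t => (hN1 t).1)
    exact h.comp (continuous_fst.prodMk (ceP.comp continuous_snd))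
  · intro t z
    induction z using OnePoint.rec with
    | infty => exact Or.inl rfl
    | coe z =>
      obtain ⟨⟨⟨x, s⟩, u⟩, q⟩ := z
      rcases hp_or_hp_ng (x : OnePoint ℝ) with h | h
      · left
        simp only
        rw [key, h]
        rfl
      · right
        simp only
        rw [OnePoint.map_some]
        show OnePoint.map eQ (sm (hp ((-x : ℝ) : OnePoint ℝ)) _) = ∞
        rw [ng_coe] at h
        rw [h]
        rfl
  · intro z hz
    induction z using OnePoint.rec with
    | infty => rfl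
    | coe z =>
      obtain ⟨⟨⟨x, s⟩, u⟩, q⟩ := z
      simp only at hz ⊢
      rw [key0] at hz
      rw [OnePoint.map_some]
      show OnePoint.map (Prod.map (sW γ) (Prod.map γ (rK K)))
        (OnePoint.map eQ (smash hp (fun w => N (0, w))
        (OnePoint.map eP (((((-x, s), γ u), Prod.map γ id q) : ((ℝ × ℝ) × U) × (U × P')) :
          OnePoint (((ℝ × ℝ) × U) × (U × P')))))) = sm (sm (sm (hh x) (hh s)) (u : OnePoint U)) (y q)
      rw [key0]
      have hq := hyg.2 (q : OnePoint (U × P'))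
      rw [OnePoint.map_some] at hq
      rw [hq, map_sm, map_sW, map_map (Prod.map γ (rK K)) (Prod.map γ (rK K))]
      have e1 : (fun x => Prod.map γ (rK K) (Prod.map γ (rK K) x)) =
          fun x : U × (K × (ℝ × (ℝ × ℝ))) => x := by
        funext x
        obtain ⟨a, b⟩ := x
        simp [hγ, rK_rK]
      rw [e1, map_id', OnePoint.map_some, hγ]
      have e2 : ng (hp ((-x : ℝ) : OnePoint ℝ)) = hm x := rfl
      rw [e2]
      rcases le_total x 0 with h | h
      · have : hh (x : OnePoint ℝ) = hm x := wsum_right (hp_of_nonpos h)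
        rw [this]
      · have h3 : hh (x : OnePoint ℝ) = hp x := wsum_left (hm_of_nonneg h)
        rw [h3, hz, hm_of_nonneg h]
        rfl
  · intro z hz
    induction z using OnePoint.rec with
    | infty => exact absurd rfl hz
    | coe z =>
      obtain ⟨⟨⟨x, s⟩, u⟩, q⟩ := z
      simp only at hz ⊢
      rw [key0] at hz ⊢
      have hx : hp (x : OnePoint ℝ) ≠ ∞ := by
        intro h
        rw [h] at hz
        exact hz rfl
      show _ = sm (sm (sm (hh x) (hh s)) (u : OnePoint U)) (y q)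
      have h3 : hh (x : OnePoint ℝ) = hp x := by
        rcases hp_or_hm (x : OnePoint ℝ) with h | h
        · exact absurd h hx
        · exact wsum_left h
      rw [h3]
  · intro z
    induction z using OnePoint.rec with
    | infty => rfl
    | coe z =>
      obtain ⟨⟨⟨x, s⟩, u⟩, q⟩ := z
      simp only
      rw [key, hN3, sm_infty_right]
      rfl

/-- moving the last coordinates next to the first ones -/
def eT {U K : Type} (z : ((ℝ × ℝ) × U) × (U × (K × (ℝ × (ℝ × ℝ))))) :
    ((ℝ × ℝ) × (ℝ × ℝ)) × (U × (U × (K × ℝ))) :=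
  ((z.1.1, (z.2.2.2.1, z.2.2.2.2.1)), (z.1.2, (z.2.1, (z.2.2.1, z.2.2.2.2.2))))

/-- the inverse of `eT` -/
def eS {U K : Type} (z : ((ℝ × ℝ) × (ℝ × ℝ)) × (U × (U × (K × ℝ)))) :
    ((ℝ × ℝ) × U) × (U × (K × (ℝ × (ℝ × ℝ)))) :=
  ((z.1.1, z.2.1), (z.2.2.1, (z.2.2.2.1, (z.1.2.1, (z.1.2.2, z.2.2.2.2)))))

/-- the sign on the plane -/
def nV : (ℝ × ℝ) →ₗ[ℝ] (ℝ × ℝ) where
  toFun z := (-z.1, z.2)
  map_add' := by
    rintro ⟨a, b⟩ ⟨c, d⟩
    simp [add_comm]
  map_smul' := by
    rintro r ⟨a, b⟩
    simp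

theorem nV_apply (z : ℝ × ℝ) : nV z = (-z.1, z.2) := rfl

/-- the two forms of the product of degree two maps are homotopic after suspension -/
theorem move (γ : U →ₗ[ℝ] U) :
    HE (Prod.map (sW γ) (Prod.map γ (rK K))) (Prod.map (sW γ) (Prod.map γ (rK K)))
      (smash (id : OnePoint ((ℝ × ℝ) × U) → OnePoint ((ℝ × ℝ) × U))
        (smash (id : OnePoint U → OnePoint U) (smash (id : OnePoint K → OnePoint K)
          (smash hh (smash hh (id : OnePoint ℝ → OnePoint ℝ))))))
      (smash (smash (smash hh hh) (id : OnePoint U → OnePoint U))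
        (id : OnePoint (U × (K × (ℝ × (ℝ × ℝ)))) → OnePoint (U × (K × (ℝ × (ℝ × ℝ)))))) := by
  have cθ : Continuous (smash hh hh) :=
    continuous_smash continuous_hh continuous_hh hh_infty hh_infty
  have oddh : Eqv (fun x : ℝ => -x) (fun x : ℝ => -x) hh := ⟨hh_infty, hh_ng⟩
  have odd : Eqv (fun x : ℝ × ℝ => -x) (fun x : ℝ × ℝ => -x) (smash hh hh) := eqv_smash oddh oddh
  have eqn : Eqv nV nV (smash hh hh) := eqv_smash oddh (β := fun x : ℝ => -x)
    (⟨hh_infty, fun z => by rw [map_id'', map_id'']⟩ : Eqv (id : ℝ → ℝ) (id : ℝ → ℝ) hh)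
  have h1 := rot_htpy (V := ℝ × ℝ) (smash hh hh) cθ odd nV eqn
  have h2 := h1.smash_left (R := U × (U × (K × ℝ))) (S := U × (U × (K × ℝ))) continuous_id
    (eqv_id (Prod.map γ (Prod.map γ (id : K × ℝ → K × ℝ))))
  have ceT : Continuous (OnePoint.map (eT (U := U) (K := K))) := by
    apply continuous_map_of_leftInverse (ψ := eS)
    · unfold eT; fun_prop
    · unfold eS; fun_prop
    · intro z; rfl
  have ceS : Continuous (OnePoint.map (eS (U := U) (K := K))) := by
    apply continuous_map_of_leftInverse (ψ := eT)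
    · unfold eS; fun_prop
    · unfold eT; fun_prop
    · intro z; rfl
  have h3 := h2.comp_right ceT (α := Prod.map (sW γ) (Prod.map γ (rK K)))
    (eqv_map (fun z => rfl))
  have h4 := h3.comp_left ceS (δ := Prod.map (sW γ) (Prod.map γ (rK K)))
    (eqv_map (fun z => rfl))
  refine h4.congr ?_ ?_
  · intro z
    induction z using OnePoint.rec with
    | infty => rfl
    | coe z =>
      obtain ⟨⟨a, u'⟩, u, k, x, s, v⟩ := z
      show OnePoint.map eS (sm (sm (a : OnePoint (ℝ × ℝ)) (sm (hh (x : OnePoint ℝ))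
        (hh (s : OnePoint ℝ)))) (((u', (u, (k, v))) : U × (U × (K × ℝ))) : OnePoint _)) =
        sm (((a, u') : (ℝ × ℝ) × U) : OnePoint ((ℝ × ℝ) × U)) (sm (u : OnePoint U)
          (sm (k : OnePoint K) (sm (hh (x : OnePoint ℝ)) (sm (hh (s : OnePoint ℝ))
            (v : OnePoint ℝ)))))
      generalize hh (x : OnePoint ℝ) = X
      generalize hh (s : OnePoint ℝ) = S
      induction X using OnePoint.rec <;> induction S using OnePoint.rec <;> rfl
  · intro z
    induction z using OnePoint.rec with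
    | infty => rfl
    | coe z =>
      obtain ⟨⟨⟨a, b⟩, u'⟩, u, k, x, s, v⟩ := z
      show OnePoint.map eS (sm (sm (sm (hh (a : OnePoint ℝ)) (hh (b : OnePoint ℝ)))
        (((x, s) : ℝ × ℝ) : OnePoint (ℝ × ℝ)))
        (((u', (u, (k, v))) : U × (U × (K × ℝ))) : OnePoint _)) =
        sm (sm (sm (hh (a : OnePoint ℝ)) (hh (b : OnePoint ℝ))) (u' : OnePoint U))
          (OnePoint.some (u, (k, (x, (s, v)))))
      generalize hh (a : OnePoint ℝ) = X
      generalize hh (b : OnePoint ℝ) = S
      induction X using OnePoint.rec <;> induction S using OnePoint.rec <;> rfl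

/-- The composite of the suspension of an equivariant map from a space with trivial action (up to
a linear coordinate) with the two maps of degree two is equivariantly null-homotopic. -/
theorem null_top (γ : U →ₗ[ℝ] U) (hγ : ∀ u, γ (γ u) = u)
    {y : OnePoint (U × P') → OnePoint (U × (K × (ℝ × (ℝ × ℝ))))} (hy : Continuous y)
    (hyg : Eqv (Prod.map γ id) (Prod.map γ (rK K)) y) :
    HE (Prod.map (sW γ) (Prod.map γ (id : P' → P'))) (Prod.map (sW γ) (Prod.map γ (rK K)))
      (fun z => smash (id : OnePoint ((ℝ × ℝ) × U) → OnePoint ((ℝ × ℝ) × U))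
        (smash (id : OnePoint U → OnePoint U) (smash (id : OnePoint K → OnePoint K)
          (smash hh (smash hh (id : OnePoint ℝ → OnePoint ℝ))))) (smash id y z))
      (fun _ => ∞) := by
  have h1 := (move (K := K) γ).comp_right (continuous_smash (P := (ℝ × ℝ) × U) continuous_id hy
    rfl hyg.1) (eqv_smash (eqv_id (sW γ)) hyg)
  refine h1.trans ((null_two γ hγ hy hyg).congr (fun z => ?_) (fun _ => rfl))
  rw [smash_smash _ _ _ _ rfl rfl]
  rfl

end

end Pool.Agent.N508.GH
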