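import Pool.Agent.N508.GH.Free

/-!
# The example induces zero on all homotopy groups
-/

set_option autoImplicit false
set_option linter.unusedSectionVars false

namespace Pool.Agent.N508.GH

open Set Topology OnePoint Filter

theorem HE.congr_act {P Q : Type} [TopologicalSpace P] [TopologicalSpace Q] {α α' : P → P}
    {β β' : Q → Q} {f g : OnePoint P → OnePoint Q} (h : HE α β f g) (hα : ∀ x, α x = α' x)
    (hβ : ∀ x, β x = β' x) : HE α' β' f g := by
  have e1 : α = α' := funext hα
  have e2 : β = β' := funext hβ
  subst e1 e2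
  exact h

theorem isNull_of_HE {P Q : GSpace C2} (f : GMap P Q)
    (h : HE (fun x : P.carrier => gm • x) (fun x : Q.carrier => gm • x) f.toFun (fun _ => ∞)) :
    f.IsNull := by
  obtain ⟨F, hF, h1, h2, h3⟩ := h
  refine ⟨fun t => mkGMap (fun x => F (t, x))
    (hF.comp (Continuous.prodMk continuous_const continuous_id)) (h1 t).1 (h1 t).2, hF, h2, h3⟩

theorem smash_id_infty {P Q R : Type} (z : OnePoint (R × P)) :
    smash (id : OnePoint R → OnePoint R) (fun _ : OnePoint P => (∞ : OnePoint Q)) z = ∞ := by
  induction z using OnePoint.rec with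
  | infty => rfl
  | coe x => rw [smash_coe, sm_infty_right]

theorem GMap.IsNull.isStablyNull {P Q : GSpace C2} {f : GMap P Q} (h : f.IsNull) :
    f.IsStablyNull := by
  obtain ⟨F, hF, h1, h2⟩ := h
  refine ⟨sgn, fun t => (F t).susp sgn.sphere, ?_, ?_, ?_⟩
  · have := continuous_smash_family (P := sgn.sphere.carrier) (P' := sgn.sphere.carrier)
      (F := fun z : unitInterval × OnePoint sgn.sphere.carrier => z.2) continuous_snd hF
      (fun _ => rfl) (fun s => (F s).map_base)
    exact this
  · intro x
    have : (F 0).toFun = f.toFun := funext h1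
    show smash id (F 0).toFun x = smash id f.toFun x
    rw [this]
  · intro x
    have : (F 1).toFun = fun _ => ∞ := funext h2
    show smash id (F 1).toFun x = ∞
    rw [this]
    exact smash_id_infty x

/-- the trivial representation of dimension one -/
noncomputable def trv : Rep C2 where
  carrier := ℝ
  act :=
    { smul := fun _ x => x
      one_smul := fun _ => rfl
      mul_smul := fun _ _ _ => rfl
      smul_zero := fun _ => rfl
      smul_add := fun _ _ _ => rfl }
  linear := @SMulCommClass.mk _ _ _ ⟨fun _ x => x⟩ _ (fun _ _ _ => rfl)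
  cont := @ContinuousSMul.mk _ _ ⟨fun _ x => x⟩ _ _ continuous_snd

/-- the product of two representations -/
noncomputable def Rep.prod (V W : Rep C2) : Rep C2 where
  carrier := V.carrier × W.carrier

theorem HE_id_smash {R P Q : Type} [TopologicalSpace R] [TopologicalSpace P] [TopologicalSpace Q]
    [T2Space R] [LocallyCompactSpace R] [T2Space Q] [LocallyCompactSpace Q]
    {f : OnePoint P → OnePoint Q} (h : HE id id f (fun _ => ∞)) :
    HE id id (smash (id : OnePoint R → OnePoint R) f) (fun _ => ∞) := by
  have h1 := h.smash_right (R := R) (S := R) continuous_id (eqv_id (id : R → R))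
  rw [Prod.map_id, Prod.map_id] at h1
  exact h1.congr (fun _ => rfl) smash_id_infty

theorem gm_smul_gm {P : GSpace C2} (x : P.carrier) : gm • gm • x = x := by
  rw [smul_smul, gm_mul_gm, one_smul]

theorem Rep.gm_smul_gm {P : Rep C2} (x : P.carrier) : gm • gm • x = x := by
  rw [smul_smul, gm_mul_gm, one_smul]

theorem continuous_gm (P : GSpace C2) : Continuous fun x : P.carrier => gm • x :=
  continuous_const_smul gm

/-- the case of the free orbit -/
theorem ghost_free (H : ClosedSubgroup C2.carrier) (hH : gm ∉ H.toSubgroup) (m k : ℕ) :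
    ff.IsZeroOnHomotopy H m k := by
  intro U x
  apply GMap.IsNull.isStablyNull
  apply isNull_of_HE
  have : DiscreteTopology (orbit H).carrier := by
    have : Finite (orbit H).carrier := inferInstanceAs (Finite (C2.carrier ⧸ H.toSubgroup))
    infer_instance
  have hlc : LocallyCompactSpace U.carrier := by
    have := FiniteDimensional.proper ℝ U.carrier
    infer_instance
  let C : Set (U.sphere.prod ((euclid C2 m).prod (orbit H))).carrier :=
    {a | a.2.2 = (QuotientGroup.mk (1 : C2.carrier) : C2.carrier ⧸ H.toSubgroup)}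
  have hC : IsClopen C := by
    have h1 : Continuous fun a : (U.sphere.prod ((euclid C2 m).prod (orbit H))).carrier => a.2.2 :=
      continuous_snd.comp continuous_snd
    exact (isClopen_discrete ({(QuotientGroup.mk (1 : C2.carrier) : C2.carrier ⧸ H.toSubgroup)} :
      Set (orbit H).carrier)).preimage h1
  have hmk : ∀ g : C2.carrier, (QuotientGroup.mk g : C2.carrier ⧸ H.toSubgroup) =
      QuotientGroup.mk (1 : C2.carrier) ↔ g ∈ H.toSubgroup := by
    intro g
    rw [QuotientGroup.eq, mul_one, inv_mem_iff]
  refine null_free (A := (U.sphere.prod ((euclid C2 m).prod (orbit H))).carrier)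
    (P := (U.sphere.prod ((euclid C2 k).prod XX)).carrier)
    (Q := (U.sphere.prod ((euclid C2 k).prod YY)).carrier) (x := x.toFun)
    (f := ((ff.susp (euclid C2 k)).susp U.sphere).toFun) (π := fun y => gm • y)
    (continuous_gm _) gm_smul_gm (continuous_gm _) gm_smul_gm hC ?_ ?_ ?_
    x.continuous_toFun ⟨x.map_base, x.map_smul gm⟩
  · rintro ⟨u, r, q⟩
    obtain ⟨g, rfl⟩ := QuotientGroup.mk_surjective q
    show (QuotientGroup.mk (gm * g) : C2.carrier ⧸ H.toSubgroup) =
      QuotientGroup.mk (1 : C2.carrier) ↔
      ¬ (QuotientGroup.mk g : C2.carrier ⧸ H.toSubgroup) = QuotientGroup.mk (1 : C2.carrier)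
    rw [hmk, hmk]
    rcases C2_cases g with rfl | rfl
    · rw [mul_one]
      constructor
      · intro h
        exact absurd h hH
      · intro h
        exact absurd (one_mem _) h
    · rw [gm_mul_gm]
      constructor
      · intro _
        exact hH
      · intro _
        exact one_mem _
  · exact HE_id_smash (R := U.carrier) (HE_id_smash (R := EuclideanSpace ℝ (Fin k)) null_f0)
  · exact ⟨rfl, ((ff.susp (euclid C2 k)).susp U.sphere).map_smul gm⟩

/-- the action of the nontrivial element -/
noncomputable def gact (P : GSpace C2) (x : P.carrier) : P.carrier := gm • x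

/-- the case of the trivial orbit -/
theorem ghost_fixed (H : ClosedSubgroup C2.carrier) (hH : gm ∈ H.toSubgroup) (m k : ℕ) :
    ff.IsZeroOnHomotopy H m k := by
  intro U x
  refine ⟨(sgn.prod trv).prod U, ?_⟩
  apply isNull_of_HE
  have hlc : LocallyCompactSpace U.carrier := by
    have := FiniteDimensional.proper ℝ U.carrier
    infer_instance
  let γ : U.carrier →ₗ[ℝ] U.carrier :=
    { toFun := fun w => gm • w
      map_add' := smul_add gm
      map_smul' := fun r w => smul_comm gm r w }
  let y : OnePoint (U.carrier × (EuclideanSpace ℝ (Fin m) × (orbit H).carrier)) →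
      OnePoint (U.carrier × (EuclideanSpace ℝ (Fin k) × (ℝ × (ℝ × ℝ)))) :=
    fun z => smash id (smash id (smash id qD)) (x.toFun z)
  have hy : Continuous y := by
    have c1 : Continuous (smash (id : OnePoint ℝ → OnePoint ℝ) qD) :=
      continuous_smash continuous_id continuous_qD rfl rfl
    have c2 := continuous_smash (P := EuclideanSpace ℝ (Fin k)) (P' := EuclideanSpace ℝ (Fin k))
      continuous_id c1 rfl rfl
    have c3 := continuous_smash (P := U.carrier) (P' := U.carrier) continuous_id c2 rfl rfl
    exact c3.comp x.continuous_toFun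
  have hfix : ∀ q : (orbit H).carrier, gm • q = q := by
    intro q
    obtain ⟨g, rfl⟩ := QuotientGroup.mk_surjective q
    show (QuotientGroup.mk (gm * g) : C2.carrier ⧸ H.toSubgroup) = QuotientGroup.mk g
    rw [QuotientGroup.eq]
    have : (gm * g)⁻¹ * g ∈ ({1, gm} : Set C2.carrier) := by
      rcases C2_cases ((gm * g)⁻¹ * g) with h | h
      · exact Or.inl h
      · exact Or.inr h
    rcases this with h | h
    · rw [h]
      exact one_mem _
    · rw [Set.mem_singleton_iff.mp h]
      exact hH
  have hx : ∀ z : OnePoint (U.carrier × (EuclideanSpace ℝ (Fin m) × (orbit H).carrier)),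
      x.toFun (OnePoint.map (Prod.map γ id) z) = OnePoint.map (Prod.map γ (Prod.map
        (id : EuclideanSpace ℝ (Fin k) → EuclideanSpace ℝ (Fin k))
        (Prod.map (fun s : ℝ => -s) (id : Do → Do)))) (x.toFun z) := by
    intro z
    have h1 := x.map_smul gm z
    have e1 : OnePoint.map (Prod.map γ id) z =
        (U.sphere.prod ((euclid C2 m).prod (orbit H))).smulPlus gm z := by
      induction z using OnePoint.rec with
      | infty => rfl
      | coe z =>
        obtain ⟨u, r, q⟩ := z
        exact (congrArg (fun q' => OnePoint.some (gm • u, (r, q'))) (hfix q)).symm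
    have e3 : ∀ w, (U.sphere.prod ((euclid C2 k).prod XX)).smulPlus gm w =
        OnePoint.map (Prod.map γ (Prod.map
        (id : EuclideanSpace ℝ (Fin k) → EuclideanSpace ℝ (Fin k))
        (Prod.map (fun s : ℝ => -s) (id : Do → Do)))) w := by
      intro w
      induction w using OnePoint.rec with
      | infty => rfl
      | coe w =>
        obtain ⟨u, k, s, d⟩ := w
        exact congrArg (fun t : ℝ => OnePoint.some ((gm • u : U.carrier), (k, (t, d))))
          (neg_one_smul_real s)
    exact (congrArg x.toFun e1).trans (h1.trans (e3 _))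
  have hyg : Eqv (Prod.map γ id) (Prod.map γ (rK (EuclideanSpace ℝ (Fin k)))) y := by
    refine ⟨?_, fun z => ?_⟩
    · exact congrArg (smash id (smash id (smash id qD))) x.map_base
    · refine (congrArg (smash (id : OnePoint U.carrier → OnePoint U.carrier)
        (smash (id : OnePoint (EuclideanSpace ℝ (Fin k)) → OnePoint (EuclideanSpace ℝ (Fin k)))
          (smash (id : OnePoint ℝ → OnePoint ℝ) qD))) (hx z)).trans ?_
      have := (eqv_smash (eqv_id γ) (eqv_smash (eqv_id
        (id : EuclideanSpace ℝ (Fin k) → EuclideanSpace ℝ (Fin k)))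
        (eqv_smash (eqv_id (fun s : ℝ => -s)) (eqv_based (φ := qD) rfl)))).2 (x.toFun z)
      exact this
  have main := null_top γ (fun u => Rep.gm_smul_gm u) hy hyg
  have hα : ∀ z : ((ℝ × ℝ) × U.carrier) × (U.carrier × (EuclideanSpace ℝ (Fin m) ×
      (orbit H).carrier)), Prod.map (sW γ) (Prod.map γ id) z =
      gact ((((sgn.prod trv).prod U).sphere).prod
        (U.sphere.prod ((euclid C2 m).prod (orbit H)))) z := by
    rintro ⟨⟨⟨a, b⟩, u'⟩, u, r, q⟩
    have h1 := congrArg (fun t : ℝ => (((t, b), (gm • u' : U.carrier)),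
      ((gm • u : U.carrier), (r, q)))) (neg_one_smul_real a)
    have h2 := congrArg (fun q' : (orbit H).carrier => (((((-1 : ℤˣ) • a : ℝ), b),
      (gm • u' : U.carrier)), ((gm • u : U.carrier), (r, q')))) (hfix q)
    exact h1.symm.trans h2.symm
  have hβ : ∀ z : ((ℝ × ℝ) × U.carrier) × (U.carrier × (EuclideanSpace ℝ (Fin k) ×
      (ℝ × (ℝ × ℝ)))), Prod.map (sW γ) (Prod.map γ (rK (EuclideanSpace ℝ (Fin k)))) z =
      gact ((((sgn.prod trv).prod U).sphere).prod
        (U.sphere.prod ((euclid C2 k).prod YY))) z := by
    rintro ⟨⟨⟨a, b⟩, u'⟩, u, r, s, v⟩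
    have h1 := congrArg (fun t : ℝ => (((t, b), (gm • u' : U.carrier)),
      ((gm • u : U.carrier), (r, ((-s : ℝ), v))))) (neg_one_smul_real a)
    have h2 := congrArg (fun t : ℝ => (((((-1 : ℤˣ) • a : ℝ), b),
      (gm • u' : U.carrier)), ((gm • u : U.carrier), (r, (t, v))))) (neg_one_smul_real s)
    exact h1.symm.trans h2.symm
  refine (HE.congr_act main hα hβ).congr (fun z => ?_) (fun _ => rfl)
  have e : ∀ b : OnePoint (U.carrier × (EuclideanSpace ℝ (Fin k) × (ℝ × Do))),
      smash (id : OnePoint U.carrier → OnePoint U.carrier)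
        (smash (id : OnePoint (EuclideanSpace ℝ (Fin k)) → OnePoint (EuclideanSpace ℝ (Fin k)))
          (smash hh (smash hh (id : OnePoint ℝ → OnePoint ℝ))))
        (smash id (smash id (smash id qD)) b) = smash id (smash id f0) b := by
    intro b
    induction b using OnePoint.rec with
    | infty => rfl
    | coe b =>
      obtain ⟨u, r, s, d⟩ := b
      show smash id (smash id (smash hh (smash hh id))) (sm (u : OnePoint U.carrier)
        (sm (r : OnePoint (EuclideanSpace ℝ (Fin k))) (sm (s : OnePoint ℝ)
          (qD (d : OnePoint Do))))) = _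
      rw [smash_sm rfl rfl, smash_sm rfl rfl, smash_sm hh_infty rfl]
      rfl
  have e' : ∀ z : OnePoint (((ℝ × ℝ) × U.carrier) ×
      (U.carrier × (EuclideanSpace ℝ (Fin m) × (orbit H).carrier))),
      smash (id : OnePoint ((ℝ × ℝ) × U.carrier) → OnePoint ((ℝ × ℝ) × U.carrier))
        (smash (id : OnePoint U.carrier → OnePoint U.carrier)
        (smash (id : OnePoint (EuclideanSpace ℝ (Fin k)) → OnePoint (EuclideanSpace ℝ (Fin k)))
          (smash hh (smash hh (id : OnePoint ℝ → OnePoint ℝ))))) (smash id y z) =
      smash (id : OnePoint ((ℝ × ℝ) × U.carrier) → OnePoint ((ℝ × ℝ) × U.carrier))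
        (fun z => smash id (smash id f0) (x.toFun z)) z := by
    intro z
    rw [smash_smash _ _ _ _ rfl rfl]
    congr 1
    funext w
    exact e _
  exact e' z

end Pool.Agent.N508.GH
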