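import Pool.Agent.N508.GH.Line

/-!
# Homotopies of based maps commuting with self-maps of source and target
-/

set_option autoImplicit false
set_option linter.unusedSectionVars false

namespace Pool.Agent.N508.GH

open Set Topology OnePoint Filter

/-- based maps commuting with given self-maps -/
def Eqv {P Q : Type} (α : P → P) (β : Q → Q) (φ : OnePoint P → OnePoint Q) : Prop :=
  φ ∞ = ∞ ∧ ∀ z, φ (OnePoint.map α z) = OnePoint.map β (φ z)

theorem Eqv.comp {P Q R : Type} {α : P → P} {β : Q → Q} {δ : R → R} {φ : OnePoint P → OnePoint Q}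
    {ψ : OnePoint Q → OnePoint R} (hψ : Eqv β δ ψ) (hφ : Eqv α β φ) :
    Eqv α δ (fun z => ψ (φ z)) :=
  ⟨by simp only; rw [hφ.1, hψ.1], fun z => by simp only; rw [hφ.2, hψ.2]⟩

theorem map_id' {P : Type} (z : OnePoint P) : OnePoint.map (fun x : P => x) z = z := by
  induction z using OnePoint.rec <;> rfl

theorem map_id'' {P : Type} (z : OnePoint P) : OnePoint.map (id : P → P) z = z := by
  induction z using OnePoint.rec <;> rfl

theorem map_map {P Q R : Type} (f : P → Q) (g : Q → R) (z : OnePoint P) :
    OnePoint.map g (OnePoint.map f z) = OnePoint.map (fun x => g (f x)) z := by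
  induction z using OnePoint.rec <;> rfl

theorem map_sm {P Q P' Q' : Type} (f : P → P') (g : Q → Q') (x : OnePoint P) (y : OnePoint Q) :
    OnePoint.map (Prod.map f g) (sm x y) = sm (OnePoint.map f x) (OnePoint.map g y) := by
  induction x using OnePoint.rec <;> induction y using OnePoint.rec <;> rfl

theorem eqv_map {P Q : Type} {α : P → P} {β : Q → Q} {f : P → Q} (h : ∀ x, f (α x) = β (f x)) :
    Eqv α β (OnePoint.map f) := by
  refine ⟨rfl, fun z => ?_⟩
  rw [map_map, map_map]
  congr 1
  funext x
  exact h x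

theorem eqv_id {P : Type} (α : P → P) : Eqv α α (id : OnePoint P → OnePoint P) :=
  ⟨rfl, fun _ => rfl⟩

theorem eqv_based {P Q : Type} {φ : OnePoint P → OnePoint Q} (h : φ ∞ = ∞) : Eqv id id φ :=
  ⟨h, fun z => by rw [map_id'', map_id'']⟩

theorem eqv_smash {P Q P' Q' : Type} {α : P → P} {β : Q → Q} {α' : P' → P'} {β' : Q' → Q'}
    {f : OnePoint P → OnePoint Q} {g : OnePoint P' → OnePoint Q'} (hf : Eqv α β f)
    (hg : Eqv α' β' g) : Eqv (Prod.map α α') (Prod.map β β') (smash f g) := by
  refine ⟨rfl, fun z => ?_⟩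
  induction z using OnePoint.rec with
  | infty => rfl
  | coe z =>
    have h1 := hf.2 (z.1 : OnePoint P)
    have h2 := hg.2 (z.2 : OnePoint P')
    show sm (f (OnePoint.map α (z.1 : OnePoint P))) (g (OnePoint.map α' (z.2 : OnePoint P'))) =
      OnePoint.map (Prod.map β β') (sm (f (z.1 : OnePoint P)) (g (z.2 : OnePoint P')))
    rw [h1, h2, map_sm]

/-- homotopic through based maps commuting with given self-maps -/
def HE {P Q : Type} [TopologicalSpace P] [TopologicalSpace Q] (α : P → P) (β : Q → Q)
    (f g : OnePoint P → OnePoint Q) : Prop :=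
  ∃ F : unitInterval × OnePoint P → OnePoint Q, Continuous F ∧ (∀ t, Eqv α β fun x => F (t, x)) ∧
    (∀ x, F (0, x) = f x) ∧ ∀ x, F (1, x) = g x

section

variable {P Q R S : Type} [TopologicalSpace P] [TopologicalSpace Q] [TopologicalSpace R]
  [TopologicalSpace S] {α : P → P} {β : Q → Q} {δ : R → R} {ε : S → S}

theorem HE.symm {f g : OnePoint P → OnePoint Q} (h : HE α β f g) : HE α β g f := by
  obtain ⟨F, hF, h1, h2, h3⟩ := h
  refine ⟨fun z => F (unitInterval.symm z.1, z.2), ?_, fun t => h1 _, ?_, ?_⟩
  · exact hF.comp ((unitInterval.continuous_symm.comp continuous_fst).prodMk continuous_snd)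
  · intro x
    simp only [unitInterval.symm_zero]
    exact h3 x
  · intro x
    simp only [unitInterval.symm_one]
    exact h2 x

theorem HE.trans {f g k : OnePoint P → OnePoint Q} (h : HE α β f g) (h' : HE α β g k) :
    HE α β f k := by
  obtain ⟨F, hF, h1, h2, h3⟩ := h
  obtain ⟨F', hF', h1', h2', h3'⟩ := h'
  refine ⟨fun z => if (z.1 : ℝ) ≤ 1 / 2 then F (Set.projIcc 0 1 zero_le_one (2 * z.1), z.2)
    else F' (Set.projIcc 0 1 zero_le_one (2 * z.1 - 1), z.2), ?_, ?_, ?_, ?_⟩
  · apply Continuous.if_le
    · exact hF.comp ((continuous_projIcc.comp (by fun_prop)).prodMk continuous_snd)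
    · exact hF'.comp ((continuous_projIcc.comp (by fun_prop)).prodMk continuous_snd)
    · fun_prop
    · fun_prop
    · rintro ⟨t, x⟩ ht
      simp only at ht ⊢
      rw [ht, show (2 : ℝ) * (1 / 2) = 1 by norm_num, sub_self, Set.projIcc_left,
        Set.projIcc_right]
      exact (h3 x).trans (h2' x).symm
  · intro t
    by_cases ht : (t : ℝ) ≤ 1 / 2
    · simp only [if_pos ht]
      exact h1 _
    · simp only [if_neg ht]
      exact h1' _
  · intro x
    simp only [Set.Icc.coe_zero]
    rw [if_pos (by norm_num), mul_zero, Set.projIcc_left]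
    exact h2 x
  · intro x
    simp only [Set.Icc.coe_one]
    rw [if_neg (by norm_num), show (2 : ℝ) * 1 - 1 = 1 by norm_num, Set.projIcc_right]
    exact h3' x

theorem HE.comp_left {f g : OnePoint P → OnePoint Q} (h : HE α β f g)
    {k : OnePoint Q → OnePoint R} (hk : Continuous k) (hk' : Eqv β δ k) :
    HE α δ (fun x => k (f x)) (fun x => k (g x)) := by
  obtain ⟨F, hF, h1, h2, h3⟩ := h
  refine ⟨fun z => k (F z), hk.comp hF, fun t => hk'.comp (h1 t), fun x => ?_, fun x => ?_⟩
  · simp only [h2]
  · simp only [h3]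

theorem HE.comp_right {f g : OnePoint Q → OnePoint R} (h : HE β δ f g)
    {k : OnePoint P → OnePoint Q} (hk : Continuous k) (hk' : Eqv α β k) :
    HE α δ (fun x => f (k x)) (fun x => g (k x)) := by
  obtain ⟨F, hF, h1, h2, h3⟩ := h
  refine ⟨fun z => F (z.1, k z.2), hF.comp (continuous_fst.prodMk (hk.comp continuous_snd)),
    fun t => (h1 t).comp hk', fun x => h2 _, fun x => h3 _⟩

theorem HE.congr {f g f' g' : OnePoint P → OnePoint Q} (h : HE α β f g) (hf : ∀ x, f x = f' x)
    (hg : ∀ x, g x = g' x) : HE α β f' g' := by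
  obtain ⟨F, hF, h1, h2, h3⟩ := h
  exact ⟨F, hF, h1, fun x => (h2 x).trans (hf x), fun x => (h3 x).trans (hg x)⟩

theorem HE.smash_left [T2Space Q] [LocallyCompactSpace Q] [T2Space S] [LocallyCompactSpace S]
    {f g : OnePoint P → OnePoint Q} (h : HE α β f g) {k : OnePoint R → OnePoint S}
    (hk : Continuous k) (hk' : Eqv δ ε k) :
    HE (Prod.map α δ) (Prod.map β ε) (smash f k) (smash g k) := by
  obtain ⟨F, hF, h1, h2, h3⟩ := h
  refine ⟨fun z => smash (fun x => F (z.1, x)) k z.2, ?_, fun t => eqv_smash (h1 t) hk',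
    fun x => ?_, fun x => ?_⟩
  · exact continuous_smash_family (G := fun z => k z.2) hF (hk.comp continuous_snd)
      (fun s => (h1 s).1) (fun _ => hk'.1)
  · simp only [h2]
  · simp only [h3]

theorem HE.smash_right [T2Space Q] [LocallyCompactSpace Q] [T2Space S] [LocallyCompactSpace S]
    {f g : OnePoint P → OnePoint Q} (h : HE α β f g) {k : OnePoint R → OnePoint S}
    (hk : Continuous k) (hk' : Eqv δ ε k) :
    HE (Prod.map δ α) (Prod.map ε β) (smash k f) (smash k g) := by
  obtain ⟨F, hF, h1, h2, h3⟩ := h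
  refine ⟨fun z => smash k (fun x => F (z.1, x)) z.2, ?_, fun t => eqv_smash hk' (h1 t),
    fun x => ?_, fun x => ?_⟩
  · exact continuous_smash_family (F := fun z => k z.2) (hk.comp continuous_snd) hF
      (fun _ => hk'.1) (fun s => (h1 s).1)
  · simp only [h2]
  · simp only [h3]

/-- Assembly of an equivariant null-homotopy from one half. -/
theorem assemble [T2Space P] (hα : Continuous α) (hα' : ∀ x, α (α x) = x) [T2Space Q]
    (hβ : Continuous β) (hβ' : ∀ x, β (β x) = x)
    {M : unitInterval × OnePoint P → OnePoint Q} (hM : Continuous M) (hM0 : ∀ t, M (t, ∞) = ∞)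
    (hs : ∀ t z, M (t, z) = ∞ ∨ M (t, OnePoint.map α z) = ∞)
    {f : OnePoint P → OnePoint Q}
    (h1 : ∀ z, M (0, z) = ∞ → OnePoint.map β (M (0, OnePoint.map α z)) = f z)
    (h2 : ∀ z, M (0, z) ≠ ∞ → M (0, z) = f z) (h3 : ∀ z, M (1, z) = ∞) :
    HE α β f (fun _ => ∞) := by
  have cα : Continuous (OnePoint.map α) := continuous_map_of_leftInverse hα hα hα'
  have cβ : Continuous (OnePoint.map β) := continuous_map_of_leftInverse hβ hβ hβ'
  have iα : ∀ z, OnePoint.map α (OnePoint.map α z) = z := by
    intro z
    rw [map_map]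
    simp only [hα', map_id']
  have iβ : ∀ z, OnePoint.map β (OnePoint.map β z) = z := by
    intro z
    rw [map_map]
    simp only [hβ', map_id']
  have βinf : ∀ z, OnePoint.map β z = ∞ ↔ z = ∞ := by
    intro z
    induction z using OnePoint.rec <;> simp
  refine ⟨wsum M (fun z => OnePoint.map β (M (z.1, OnePoint.map α z.2))), ?_, ?_, ?_, ?_⟩
  · apply continuous_wsum hM
    · exact cβ.comp (hM.comp (continuous_fst.prodMk (cα.comp continuous_snd)))
    · rintro ⟨t, z⟩
      rcases hs t z with h | h
      · exact Or.inl h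
      · exact Or.inr ((βinf _).mpr h)
  · intro t
    constructor
    · simp only
      rw [wsum_right (hM0 t)]
      simp only [OnePoint.map_infty, hM0]
    · intro z
      rcases hs t z with h | h
      · have e1 : wsum M (fun z => OnePoint.map β (M (z.1, OnePoint.map α z.2))) (t, z) =
            OnePoint.map β (M (t, OnePoint.map α z)) := wsum_right h
        have e2 : wsum M (fun z => OnePoint.map β (M (z.1, OnePoint.map α z.2)))
            (t, OnePoint.map α z) = M (t, OnePoint.map α z) := by
          apply wsum_left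
          simp only
          rw [iα, h]
          rfl
        simp only
        rw [e1, e2, iβ]
      · have e1 : wsum M (fun z => OnePoint.map β (M (z.1, OnePoint.map α z.2))) (t, z) =
            M (t, z) := wsum_left (by simp only [h]; rfl)
        have e2 : wsum M (fun z => OnePoint.map β (M (z.1, OnePoint.map α z.2)))
            (t, OnePoint.map α z) = OnePoint.map β (M (t, z)) := by
          rw [wsum_right h]
          simp only
          rw [iα]
        simp only
        rw [e1, e2]
  · intro z
    by_cases h : M (0, z) = ∞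
    · rw [wsum_right h]
      exact h1 z h
    · unfold wsum
      rw [if_neg h]
      exact h2 z h
  · intro z
    rw [wsum_right (h3 z)]
    simp only
    rw [h3]
    rfl

end

end Pool.Agent.N508.GH
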