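import Pool.Agent.N508.GH.Top2

/-!
# Maps of the compactified line
-/

set_option autoImplicit false
set_option linter.unusedSectionVars false

namespace Pool.Agent.N508.GH

open Set Topology OnePoint Filter
open Pool.Agent.N508.Ch (upd upd_same upd_ne dg gam)

/-- the parametrization of the circle by the interval -/
noncomputable def p (x : ℝ) : OnePoint ℝ := collapse sc x

theorem continuous_p : Continuous p := continuous_collapse isOpenEmbedding_sc

theorem p_sc (v : ℝ) : p (sc v) = v := collapse_apply isOpenEmbedding_sc.injective v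

theorem p_of_lt {x : ℝ} (hx : |x| < 1 / 2) : p x = (Real.tan (Real.pi * x) : ℝ) := by
  conv_lhs => rw [← sc_tan hx]
  rw [p_sc]

theorem p_of_le {x : ℝ} (hx : 1 / 2 ≤ |x|) : p x = ∞ := by
  apply collapse_of_notMem
  rintro ⟨v, rfl⟩
  exact absurd (abs_sc_lt v) (not_lt.mpr hx)

theorem p_half : p (1 / 2) = ∞ := p_of_le (le_abs_self _)

theorem p_neg_half : p (-(1 / 2)) = ∞ := p_of_le (by rw [abs_neg]; exact le_abs_self _)

theorem p_eq_infty {x : ℝ} : p x = ∞ ↔ 1 / 2 ≤ |x| := by
  constructor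
  · intro h
    by_contra h'
    rw [p_of_lt (not_le.mp h')] at h
    exact OnePoint.coe_ne_infty _ h
  · exact p_of_le

/-- reflection of the compactified line -/
def ng (z : OnePoint ℝ) : OnePoint ℝ := OnePoint.map (fun v => -v) z

@[simp] theorem ng_infty : ng ∞ = ∞ := rfl

@[simp] theorem ng_coe (v : ℝ) : ng (v : OnePoint ℝ) = ((-v : ℝ) : OnePoint ℝ) := rfl

@[simp] theorem ng_ng (z : OnePoint ℝ) : ng (ng z) = z := by
  induction z using OnePoint.rec <;> simp

theorem ng_eq_infty {z : OnePoint ℝ} : ng z = ∞ ↔ z = ∞ := by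
  induction z using OnePoint.rec <;> simp

theorem continuous_ng : Continuous ng :=
  continuous_map_of_leftInverse continuous_neg continuous_neg neg_neg

theorem p_neg (x : ℝ) : p (-x) = ng (p x) := by
  by_cases hx : |x| < 1 / 2
  · rw [p_of_lt hx, p_of_lt (by rwa [abs_neg]), mul_neg, Real.tan_neg]
    rfl
  · rw [p_of_le (not_lt.mp hx), p_of_le (by rw [abs_neg]; exact not_lt.mp hx)]
    rfl

theorem continuous_lift1 {S Z : Type*} [TopologicalSpace S] [TopologicalSpace Z] {F : S × ℝ → Z}
    (hF : Continuous F) {z₀ : Z} (h1 : ∀ s, F (s, 1 / 2) = z₀) (h2 : ∀ s, F (s, -(1 / 2)) = z₀) :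
    Continuous (fun z : S × OnePoint ℝ => z.2.elim z₀ (fun v => F (z.1, sc v))) := by
  have hmem : ∀ v, sc v ∈ Icc (-(1 / 2) : ℝ) (1 / 2) := fun v => by
    have := abs_sc_lt v
    rw [abs_lt] at this
    exact ⟨this.1.le, this.2.le⟩
  let g : ℝ → Icc (-(1 / 2) : ℝ) (1 / 2) := fun v => ⟨sc v, hmem v⟩
  have hg : IsOpenEmbedding g := by
    refine ⟨IsEmbedding.codRestrict isOpenEmbedding_sc.isEmbedding _ _, ?_⟩
    have : range g = (↑) ⁻¹' (range sc) := by
      ext x
      constructor
      · rintro ⟨v, rfl⟩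
        exact ⟨v, rfl⟩
      · rintro ⟨v, hv⟩
        exact ⟨v, Subtype.ext hv⟩
    rw [this]
    exact isOpenEmbedding_sc.isOpen_range.preimage continuous_subtype_val
  have hF' : Continuous fun z : S × Icc (-(1 / 2) : ℝ) (1 / 2) => F (z.1, z.2) :=
    hF.comp (continuous_fst.prodMk (continuous_subtype_val.comp continuous_snd))
  apply continuous_descend hg hF'
  rintro s ⟨x, hx⟩ hxr
  have hx' : ¬ |x| < 1 / 2 := by
    intro h
    exact hxr ⟨Real.tan (Real.pi * x), Subtype.ext (sc_tan h)⟩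
  have : x = 1 / 2 ∨ x = -(1 / 2) := by
    rw [not_lt, le_abs] at hx'
    rcases hx' with h | h
    · exact Or.inl (le_antisymm hx.2 h)
    · exact Or.inr (le_antisymm (by linarith) hx.1)
  rcases this with rfl | rfl
  · exact h1 s
  · exact h2 s

theorem abs_sc_pos_iff {v : ℝ} : 0 < sc v ↔ 0 < v := by
  unfold sc
  rw [div_pos_iff_of_pos_right Real.pi_pos, Real.arctan_pos]

/-- the homeomorphism of the half line with the line, extended by the base point -/
noncomputable def hp (z : OnePoint ℝ) : OnePoint ℝ := z.elim ∞ fun v => p (2 * max (sc v) 0 - 1 / 2)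

theorem continuous_hp : Continuous hp := by
  have h := continuous_lift1 (S := Unit) (F := fun z => p (2 * max z.2 0 - 1 / 2)) (z₀ := ∞)
    (continuous_p.comp (by fun_prop)) (fun _ => by
      simp only
      rw [max_eq_left (by norm_num), show (2 : ℝ) * (1 / 2) - 1 / 2 = 1 / 2 by norm_num, p_half])
      (fun _ => by
      simp only
      rw [max_eq_right (by norm_num), show (2 : ℝ) * 0 - 1 / 2 = -(1 / 2) by norm_num,
        p_neg_half])
  exact h.comp (Continuous.prodMk continuous_const continuous_id : Continuous fun x => ((), x))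

@[simp] theorem hp_infty : hp ∞ = ∞ := rfl

theorem hp_coe (v : ℝ) : hp v = p (2 * max (sc v) 0 - 1 / 2) := rfl

theorem hp_of_nonpos {v : ℝ} (hv : v ≤ 0) : hp v = ∞ := by
  rw [hp_coe, max_eq_right, show (2 : ℝ) * 0 - 1 / 2 = -(1 / 2) by norm_num, p_neg_half]
  by_contra h
  exact absurd (abs_sc_pos_iff.mp (not_le.mp h)) (not_lt.mpr hv)

theorem hp_of_pos {v : ℝ} (hv : 0 < v) : hp v = ((v - 1 / v) / 2 : ℝ) := by
  have h0 : 0 < sc v := abs_sc_pos_iff.mpr hv
  have h1 := tan_dg (abs_sc_lt v) h0.ne'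
  have h2 := abs_dg_lt (abs_sc_lt v) h0.ne'
  rw [tan_sc] at h1
  have h3 : dg (sc v) = 2 * sc v - 1 / 2 := by
    unfold dg
    rw [if_pos h0.le]
  rw [hp_coe, max_eq_left h0.le, ← h3, p_of_lt h2, h1]

/-- the same for the negative half line -/
noncomputable def hm (z : OnePoint ℝ) : OnePoint ℝ := ng (hp (ng z))

theorem continuous_hm : Continuous hm := continuous_ng.comp (continuous_hp.comp continuous_ng)

@[simp] theorem hm_infty : hm ∞ = ∞ := rfl

theorem hm_of_nonneg {v : ℝ} (hv : 0 ≤ v) : hm v = ∞ := by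
  show ng (hp ((-v : ℝ) : OnePoint ℝ)) = ∞
  rw [hp_of_nonpos (by linarith)]
  rfl

theorem hm_of_neg {v : ℝ} (hv : v < 0) : hm v = ((v - 1 / v) / 2 : ℝ) := by
  show ng (hp ((-v : ℝ) : OnePoint ℝ)) = _
  rw [hp_of_pos (by linarith), ng_coe]
  congr 1
  rw [one_div, one_div, inv_neg]
  ring

theorem hp_or_hm (z : OnePoint ℝ) : hp z = ∞ ∨ hm z = ∞ := by
  induction z using OnePoint.rec with
  | infty => exact Or.inl rfl
  | coe v =>
    rcases le_total v 0 with h | h
    · exact Or.inl (hp_of_nonpos h)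
    · exact Or.inr (hm_of_nonneg h)

theorem hp_or_hp_ng (z : OnePoint ℝ) : hp z = ∞ ∨ hp (ng z) = ∞ := by
  rcases hp_or_hm z with h | h
  · exact Or.inl h
  · exact Or.inr (ng_eq_infty.mp h)

/-- the odd map of degree two -/
noncomputable def hh : OnePoint ℝ → OnePoint ℝ := wsum hp hm

theorem continuous_hh : Continuous hh := continuous_wsum continuous_hp continuous_hm hp_or_hm

@[simp] theorem hh_infty : hh ∞ = ∞ := wsum_right hp_infty

theorem hh_coe (v : ℝ) : hh v = if v = 0 then ∞ else (((v - 1 / v) / 2 : ℝ) : OnePoint ℝ) := by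
  unfold hh
  split_ifs with h
  · rw [wsum_right (hp_of_nonpos h.le), hm_of_nonneg h.ge]
  · rcases lt_or_gt_of_ne h with h1 | h1
    · rw [wsum_right (hp_of_nonpos h1.le), hm_of_neg h1]
    · rw [wsum_left (hm_of_nonneg h1.le), hp_of_pos h1]

theorem hh_ng (z : OnePoint ℝ) : hh (ng z) = ng (hh z) := by
  induction z using OnePoint.rec with
  | infty => rw [ng_infty, hh_infty, ng_infty]
  | coe v =>
    rw [ng_coe, hh_coe, hh_coe]
    by_cases h : v = 0
    · rw [if_pos h, if_pos (by rw [h, neg_zero])]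
      rfl
    · rw [if_neg h, if_neg (by rwa [neg_eq_zero]), ng_coe]
      congr 1
      rw [one_div, one_div, inv_neg]
      ring

/-- The null-homotopy of the even map given by `hp` and its reflection. -/
noncomputable def Ev (w : unitInterval × OnePoint ℝ) : OnePoint ℝ :=
  w.2.elim ∞ fun v => p (2 * ((1 - (w.1 : ℝ)) * |sc v| + w.1 / 2) - 1 / 2)

theorem continuous_Ev : Continuous Ev := by
  apply continuous_lift1 (S := unitInterval)
    (F := fun z => p (2 * ((1 - (z.1 : ℝ)) * |z.2| + z.1 / 2) - 1 / 2)) (z₀ := ∞)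
  · exact continuous_p.comp (by fun_prop)
  · intro s
    simp only
    rw [abs_of_pos (by norm_num : (0 : ℝ) < 1 / 2),
      show 2 * ((1 - (s : ℝ)) * (1 / 2) + s / 2) - 1 / 2 = 1 / 2 by ring, p_half]
  · intro s
    simp only
    rw [abs_neg, abs_of_pos (by norm_num : (0 : ℝ) < 1 / 2),
      show 2 * ((1 - (s : ℝ)) * (1 / 2) + s / 2) - 1 / 2 = 1 / 2 by ring, p_half]

@[simp] theorem Ev_infty (t : unitInterval) : Ev (t, ∞) = ∞ := rfl

theorem Ev_zero (z : OnePoint ℝ) : Ev (0, z) = wsum hp (fun z => hp (ng z)) z := by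
  induction z using OnePoint.rec with
  | infty => rw [wsum_left (by rfl)]; rfl
  | coe v =>
    show p (2 * ((1 - ((0 : unitInterval) : ℝ)) * |sc v| + ((0 : unitInterval) : ℝ) / 2) - 1 / 2)
      = _
    rw [Set.Icc.coe_zero, sub_zero, one_mul, zero_div, add_zero]
    rcases le_total v 0 with h | h
    · rw [wsum_right (hp_of_nonpos h), ng_coe, hp_coe, sc_neg]
      have h1 : sc v ≤ 0 := by
        by_contra h'
        exact absurd (abs_sc_pos_iff.mp (not_le.mp h')) (not_lt.mpr h)
      rw [max_eq_left (by linarith), abs_of_nonpos h1]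
    · have h2 : (fun z => hp (ng z)) (v : OnePoint ℝ) = ∞ := by
        show hp (ng (v : OnePoint ℝ)) = ∞
        rw [ng_coe]
        exact hp_of_nonpos (by linarith)
      rw [show wsum hp (fun z => hp (ng z)) (v : OnePoint ℝ) = hp v from wsum_left h2, hp_coe]
      have h1 : 0 ≤ sc v := by
        rcases h.eq_or_lt with h | h
        · rw [← h, sc_zero]
        · exact (abs_sc_pos_iff.mpr h).le
      rw [max_eq_left h1, abs_of_nonneg h1]

theorem Ev_one (z : OnePoint ℝ) : Ev (1, z) = ∞ := by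
  induction z using OnePoint.rec with
  | infty => rfl
  | coe v =>
    show p (2 * ((1 - ((1 : unitInterval) : ℝ)) * |sc v| + ((1 : unitInterval) : ℝ) / 2) - 1 / 2)
      = _
    rw [Set.Icc.coe_one, sub_self, zero_mul, zero_add,
      show (2 : ℝ) * (1 / 2) - 1 / 2 = 1 / 2 by norm_num, p_half]

end Pool.Agent.N508.GH
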