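import Pool.Agent.N508.GH.Grp
import Pool.Agent.N508.GH.Deg

/-!
# The example is not stably null
-/

set_option autoImplicit false
set_option linter.unusedSectionVars false

namespace Pool.Agent.N508.GH

open Set Topology OnePoint Filter
open Pool.Agent.N508.Ch (upd upd_same upd_ne dg gam)

theorem adapted {W : Type} [NormedAddCommGroup W] [NormedSpace ℝ W] [FiniteDimensional ℝ W]
    (γ : W →ₗ[ℝ] W) (hγ : ∀ w, γ (γ w) = w) :
    ∃ (a b : ℕ) (e : W ≃ₗ[ℝ] (Fin a ⊕ Fin b → ℝ)),
      (∀ w i, e (γ w) (Sum.inl i) = e w (Sum.inl i)) ∧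
      (∀ w j, e (γ w) (Sum.inr j) = - e w (Sum.inr j)) := by
  let P : Submodule ℝ W := LinearMap.ker (γ - LinearMap.id)
  let N : Submodule ℝ W := LinearMap.ker (γ + LinearMap.id)
  have hP : ∀ w, w ∈ P ↔ γ w = w := by
    intro w
    simp [P, sub_eq_zero]
  have hN : ∀ w, w ∈ N ↔ γ w = -w := by
    intro w
    simp [N, add_eq_zero_iff_eq_neg]
  have hc : IsCompl P N := by
    constructor
    · rw [Submodule.disjoint_def]
      intro w h1 h2
      rw [hP] at h1
      rw [hN, h1] at h2
      have h3 : (2 : ℝ) • w = 0 := by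
        rw [two_smul]
        nth_rewrite 2 [h2]
        exact add_neg_cancel w
      exact (smul_eq_zero.mp h3).resolve_left (by norm_num)
    · rw [codisjoint_iff, eq_top_iff]
      intro w _
      rw [Submodule.mem_sup]
      refine ⟨(1 / 2 : ℝ) • (w + γ w), ?_, (1 / 2 : ℝ) • (w - γ w), ?_, ?_⟩
      · rw [hP, _root_.map_smul, map_add, hγ, add_comm]
      · rw [hN, _root_.map_smul, map_sub, hγ, ← smul_neg, neg_sub]
      · rw [← smul_add]
        have : w + γ w + (w - γ w) = (2 : ℝ) • w := by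
          rw [two_smul]; abel
        rw [this, smul_smul]
        norm_num
  let E := Submodule.prodEquivOfIsCompl P N hc
  refine ⟨_, _, E.symm.trans (((Module.finBasis ℝ P).equivFun.prodCongr
    (Module.finBasis ℝ N).equivFun).trans
      (LinearEquiv.sumArrowLequivProdArrow _ _ ℝ ℝ).symm), ?_, ?_⟩
  · intro w i
    obtain ⟨⟨x, y⟩, rfl⟩ := E.surjective w
    have h : γ (E (x, y)) = E (x, -y) := by
      show γ (x.1 + y.1) = x.1 + (-y).1
      rw [map_add, (hP _).mp x.2, (hN _).mp y.2]
      rfl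
    rw [h]
    simp
  · intro w i
    obtain ⟨⟨x, y⟩, rfl⟩ := E.surjective w
    have h : γ (E (x, y)) = E (x, -y) := by
      show γ (x.1 + y.1) = x.1 + (-y).1
      rw [map_add, (hP _).mp x.2, (hN _).mp y.2]
      rfl
    rw [h]
    simp

/-- the open interval as a subset of the unit interval -/
noncomputable def uv (v : ℝ) : unitInterval :=
  ⟨sc v + 1 / 2, by
    have := abs_lt.mp (abs_sc_lt v)
    constructor <;> linarith [this.1, this.2]⟩

theorem coe_uv (v : ℝ) : ((uv v : unitInterval) : ℝ) = sc v + 1 / 2 := rfl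

theorem range_uv : range uv = {u | u ≠ 0 ∧ u ≠ 1} := by
  ext u
  constructor
  · rintro ⟨v, rfl⟩
    have := abs_lt.mp (abs_sc_lt v)
    constructor
    · intro h
      have h' : sc v + 1 / 2 = 0 := congrArg Subtype.val h
      linarith [this.1]
    · intro h
      have h' : sc v + 1 / 2 = 1 := congrArg Subtype.val h
      linarith [this.2]
  · rintro ⟨h0, h1⟩
    have h0' : (u : ℝ) ≠ 0 := fun h => h0 (Subtype.ext h)
    have h1' : (u : ℝ) ≠ 1 := fun h => h1 (Subtype.ext h)
    have h2 := lt_of_le_of_ne u.2.1 (Ne.symm h0')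
    have h3 := lt_of_le_of_ne u.2.2 h1'
    refine ⟨Real.tan (Real.pi * ((u : ℝ) - 1 / 2)), ?_⟩
    apply Subtype.ext
    rw [coe_uv, sc_tan (by rw [abs_lt]; constructor <;> linarith)]
    ring

theorem isOpenEmbedding_uv : IsOpenEmbedding uv := by
  have h1 : IsOpenEmbedding fun v => sc v + 1 / 2 :=
    (Homeomorph.addRight (1 / 2 : ℝ)).isOpenEmbedding.comp isOpenEmbedding_sc
  refine ⟨IsEmbedding.codRestrict h1.isEmbedding unitInterval fun v => (uv v).2, ?_⟩
  rw [range_uv]
  exact (isClosed_singleton (x := (0 : unitInterval))).isOpen_compl.inter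
    (isClosed_singleton (x := (1 : unitInterval))).isOpen_compl

section

variable {W : Type} [NormedAddCommGroup W] [NormedSpace ℝ W] [FiniteDimensional ℝ W]
  [LocallyCompactSpace W]

/-- the open embedding used for the target sphere -/
noncomputable def gT (y : W × (ℝ × (ℝ × ℝ))) :
    OnePoint W × (OnePoint ℝ × (OnePoint ℝ × unitInterval)) :=
  (y.1, (y.2.1, (y.2.2.1, uv y.2.2.2)))

theorem isOpenEmbedding_gT : IsOpenEmbedding (gT (W := W)) :=
  OnePoint.isOpenEmbedding_coe.prodMap (OnePoint.isOpenEmbedding_coe.prodMap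
    (OnePoint.isOpenEmbedding_coe.prodMap isOpenEmbedding_uv))

theorem off_gT {z : OnePoint W × (OnePoint ℝ × (OnePoint ℝ × unitInterval))}
    (hz : z ∉ range gT) : z.1 = ∞ ∨ z.2.1 = ∞ ∨ z.2.2.1 = ∞ ∨ z.2.2.2 = 0 ∨ z.2.2.2 = 1 := by
  obtain ⟨w, x, s, u⟩ := z
  by_contra h
  push Not at h
  obtain ⟨h1, h2, h3, h4, h5⟩ := h
  obtain ⟨w, rfl⟩ := OnePoint.ne_infty_iff_exists.mp h1
  obtain ⟨x, rfl⟩ := OnePoint.ne_infty_iff_exists.mp h2
  obtain ⟨s, rfl⟩ := OnePoint.ne_infty_iff_exists.mp h3
  have : u ∈ range uv := by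
    rw [range_uv]
    exact ⟨h4, h5⟩
  obtain ⟨v, rfl⟩ := this
  exact hz ⟨(w, (x, (s, v))), rfl⟩

variable (F : unitInterval × OnePoint (W × (ℝ × Do)) → OnePoint (W × (ℝ × (ℝ × ℝ))))

/-- the map obtained from the null-homotopy by restriction to the circle in the mapping cone -/
noncomputable def AT (z : OnePoint (W × (ℝ × (ℝ × ℝ)))) : OnePoint (W × (ℝ × (ℝ × ℝ))) :=
  z.elim ∞ fun y => F (unitInterval.symm (uv y.2.2.2),
    sm (y.1 : OnePoint W) (sm (y.2.1 : OnePoint ℝ) (iD (y.2.2.1 : OnePoint ℝ))))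

/-- the time in the homotopy -/
noncomputable def tK (r u : unitInterval) : unitInterval :=
  Set.projIcc 0 1 zero_le_one (min (2 * (r : ℝ)) 1 * (1 - u))

/-- the cone coordinate in the homotopy -/
noncomputable def cK (r u : unitInterval) : unitInterval :=
  Set.projIcc 0 1 zero_le_one ((u : ℝ) + (1 - u) * max (2 * (r : ℝ) - 1) 0)

/-- the homotopy -/
noncomputable def KT (z : unitInterval × OnePoint (W × (ℝ × (ℝ × ℝ)))) :
    OnePoint (W × (ℝ × (ℝ × ℝ))) :=
  z.2.elim ∞ fun y => F (tK z.1 (uv y.2.2.2),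
    sm (y.1 : OnePoint W) (sm (y.2.1 : OnePoint ℝ)
      (kap ((y.2.2.1 : OnePoint ℝ), cK z.1 (uv y.2.2.2)))))

theorem tK_zero_right (r : unitInterval) (hr : 1 ≤ 2 * (r : ℝ)) : tK r 0 = 1 := by
  unfold tK
  rw [min_eq_right hr]
  simp

theorem cK_zero_right (r : unitInterval) (hr : 2 * (r : ℝ) ≤ 1) : cK r 0 = 0 := by
  unfold cK
  rw [max_eq_right (by linarith)]
  simp

theorem tK_one_right (r : unitInterval) : tK r 1 = 0 := by
  unfold tK
  simp

theorem cK_one_right (r : unitInterval) : cK r 1 = 1 := by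
  unfold cK
  simp

theorem tK_zero_left (u : unitInterval) : tK 0 u = 0 := by
  unfold tK
  simp

theorem cK_zero_left (u : unitInterval) : cK 0 u = u := by
  unfold cK
  rw [Set.Icc.coe_zero, max_eq_right (by norm_num), mul_zero, add_zero]
  exact Set.projIcc_of_mem zero_le_one u.2

theorem tK_one_left (u : unitInterval) : tK 1 u = unitInterval.symm u := by
  unfold tK
  rw [Set.Icc.coe_one, min_eq_right (by norm_num), one_mul]
  exact Set.projIcc_of_mem zero_le_one (unitInterval.symm u).2

theorem cK_one_left (u : unitInterval) : cK 1 u = 1 := by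
  unfold cK
  rw [Set.Icc.coe_one, max_eq_left (by norm_num),
    show (u : ℝ) + (1 - u) * (2 * 1 - 1) = 1 by ring]
  exact Set.projIcc_right (zero_le_one (α := ℝ))

theorem continuous_tK : Continuous fun z : unitInterval × unitInterval => tK z.1 z.2 :=
  continuous_projIcc.comp (by fun_prop)

theorem continuous_cK : Continuous fun z : unitInterval × unitInterval => cK z.1 z.2 :=
  continuous_projIcc.comp (by fun_prop)

variable (hF : Continuous F) (hF0 : ∀ t, F (t, ∞) = ∞)
  (h0 : ∀ z, F (0, z) = smash id f0 z) (h1 : ∀ z, F (1, z) = ∞)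

theorem F_zero_sm (h0 : ∀ z, F (0, z) = smash id f0 z) (w : OnePoint W) (x : OnePoint ℝ)
    (d : OnePoint Do) : F (0, sm w (sm x d)) = sm w (sm (hh x) (smash hh id (qD d))) := by
  rw [h0, smash_sm rfl rfl, f0_sm]
  rfl

include hF hF0 h0 h1

theorem continuous_AT : Continuous (AT F) := by
  have h := continuous_descend (S := Unit) (isOpenEmbedding_gT (W := W))
    (F := fun z => F (unitInterval.symm z.2.2.2.2, sm z.2.1 (sm z.2.2.1 (iD z.2.2.2.1))))
    (z₀ := ∞) (by
      apply hF.comp
      apply Continuous.prodMk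
      · exact unitInterval.continuous_symm.comp (by fun_prop)
      · apply continuous_sm (by fun_prop)
        apply continuous_sm (by fun_prop)
        exact continuous_iD.comp (by fun_prop)) (by
      rintro _ ⟨w, x, s, u⟩ hz
      rcases off_gT hz with h | h | h | h | h
      all_goals simp only at h; subst h
      · simp [hF0]
      · simp [hF0]
      · simp [hF0]
      · simp only [unitInterval.symm_zero]
        exact h1 _
      · simp only [unitInterval.symm_one]
        rw [F_zero_sm F h0, qD_iD, smash_infty, sm_infty_right, sm_infty_right])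
  exact h.comp (Continuous.prodMk continuous_const continuous_id : Continuous fun x => ((), x))

theorem continuous_KT : Continuous (KT F) := by
  apply continuous_descend (isOpenEmbedding_gT (W := W))
    (F := fun z => F (tK z.1 z.2.2.2.2,
      sm z.2.1 (sm z.2.2.1 (kap (z.2.2.2.1, cK z.1 z.2.2.2.2))))) (z₀ := ∞)
  · apply hF.comp
    apply Continuous.prodMk
    · exact continuous_tK.comp (f := fun z : unitInterval ×
        (OnePoint W × (OnePoint ℝ × (OnePoint ℝ × unitInterval))) => (z.1, z.2.2.2.2))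
        (by fun_prop)
    · apply continuous_sm (by fun_prop)
      apply continuous_sm (by fun_prop)
      apply continuous_kap.comp
      apply Continuous.prodMk (by fun_prop)
      exact continuous_cK.comp (f := fun z : unitInterval ×
        (OnePoint W × (OnePoint ℝ × (OnePoint ℝ × unitInterval))) => (z.1, z.2.2.2.2))
        (by fun_prop)
  · rintro r ⟨w, x, s, u⟩ hz
    rcases off_gT hz with h | h | h | h | h
    all_goals simp only at h; subst h
    · simp [hF0]
    · simp [hF0]
    · simp [hF0]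
    · simp only
      rcases le_total (2 * (r : ℝ)) 1 with hr | hr
      · rw [cK_zero_right r hr, kap_zero, sm_infty_right, sm_infty_right, hF0]
      · rw [tK_zero_right r hr]
        exact h1 _
    · simp only
      rw [tK_one_right, cK_one_right, kap_one, F_zero_sm F h0, qD_iD, smash_infty, sm_infty_right,
        sm_infty_right]

omit hF h0 h1 in
theorem AT_sm (w : W) (x : ℝ) (s : OnePoint ℝ) (v : ℝ) :
    AT F (sm (w : OnePoint W) (sm (x : OnePoint ℝ) (sm s (v : OnePoint ℝ)))) =
      F (unitInterval.symm (uv v), sm (w : OnePoint W) (sm (x : OnePoint ℝ) (iD s))) := by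
  induction s using OnePoint.rec with
  | infty => simp [AT, hF0]
  | coe s => rfl

omit hF hF0 h1 in
theorem KT_zero (z : OnePoint (W × (ℝ × (ℝ × ℝ)))) :
    KT F (0, z) = smash id (smash hh (smash hh id)) z := by
  induction z using OnePoint.rec with
  | infty => rfl
  | coe y =>
    show F (tK 0 (uv y.2.2.2), sm (y.1 : OnePoint W) (sm (y.2.1 : OnePoint ℝ)
      (kap ((y.2.2.1 : OnePoint ℝ), cK 0 (uv y.2.2.2))))) = _
    rw [tK_zero_left, cK_zero_left, F_zero_sm F h0, qD_kap]
    simp only
    rw [coe_uv, add_sub_cancel_right, p_sc, smash_sm hh_infty rfl]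
    rfl

omit hF h0 h1 in
theorem KT_one (z : OnePoint (W × (ℝ × (ℝ × ℝ)))) :
    KT F (1, z) = AT F (smash id (smash id (smash H4 id)) z) := by
  induction z using OnePoint.rec with
  | infty => rfl
  | coe y =>
    show F (tK 1 (uv y.2.2.2), sm (y.1 : OnePoint W) (sm (y.2.1 : OnePoint ℝ)
      (kap ((y.2.2.1 : OnePoint ℝ), cK 1 (uv y.2.2.2))))) =
      AT F (sm (y.1 : OnePoint W) (sm (y.2.1 : OnePoint ℝ)
        (sm (H4 (y.2.2.1 : OnePoint ℝ)) (y.2.2.2 : OnePoint ℝ))))
    rw [tK_one_left, cK_one_left, AT_sm F hF0, kap_one]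

end

section

variable {W : Type} [NormedAddCommGroup W] [NormedSpace ℝ W] [FiniteDimensional ℝ W]
  [LocallyCompactSpace W]

/-- coordinates on the target sphere -/
noncomputable def Th {a b : ℕ} (e : W ≃ₗ[ℝ] (Fin a ⊕ Fin b → ℝ)) :
    (W × (ℝ × (ℝ × ℝ))) ≃ₜ ((Fin a ⊕ Fin b) ⊕ Fin 3 → ℝ) where
  toFun y := Sum.elim (e y.1) ![y.2.1, y.2.2.1, y.2.2.2]
  invFun v := (e.symm (fun i => v (Sum.inl i)), (v (Sum.inr 0), (v (Sum.inr 1), v (Sum.inr 2))))
  left_inv y := by
    simp
  right_inv v := by
    funext c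
    rcases c with c | c
    · simp
    · fin_cases c <;> simp
  continuous_toFun := by
    apply continuous_pi
    intro c
    rcases c with c | c
    · simp only [Sum.elim_inl]
      have he : Continuous e := e.toLinearMap.continuous_of_finiteDimensional
      exact (continuous_apply c).comp (he.comp continuous_fst)
    · simp only [Sum.elim_inr]
      fin_cases c <;> simp <;> fun_prop
  continuous_invFun := by
    have he : Continuous e.symm := e.symm.toLinearMap.continuous_of_finiteDimensional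
    apply Continuous.prodMk
    · apply he.comp
      apply continuous_pi
      intro i
      exact continuous_apply _
    · fun_prop

/-- the sign coordinates -/
def sgC (a b : ℕ) : Set ((Fin a ⊕ Fin b) ⊕ Fin 3) :=
  {c | (∃ j, c = Sum.inl (Sum.inr j)) ∨ c = Sum.inr 0}

open Classical in
theorem gam_Th {a b : ℕ} (e : W ≃ₗ[ℝ] (Fin a ⊕ Fin b → ℝ)) (γ : W →ₗ[ℝ] W)
    (he1 : ∀ w i, e (γ w) (Sum.inl i) = e w (Sum.inl i))
    (he2 : ∀ w j, e (γ w) (Sum.inr j) = - e w (Sum.inr j)) (y : W × (ℝ × (ℝ × ℝ))) :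
    Th e (γ y.1, (-y.2.1, y.2.2)) = gam (sgC a b) (Th e y) := by
  funext c
  unfold gam
  rcases c with (c | c) | c
  · rw [if_neg (by simp [sgC])]
    exact he1 _ _
  · rw [if_pos (by simp [sgC])]
    exact he2 _ _
  · fin_cases c
    · rw [if_pos (by simp [sgC])]
      simp [Th]
    · rw [if_neg (by simp [sgC])]
      simp [Th]
    · rw [if_neg (by simp [sgC])]
      simp [Th]

theorem Hc_Th_x {a b : ℕ} [DecidableEq ((Fin a ⊕ Fin b) ⊕ Fin 3)] (e : W ≃ₗ[ℝ] (Fin a ⊕ Fin b → ℝ)) (z : OnePoint (W × (ℝ × (ℝ × ℝ)))) :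
    Hc (Sum.inr 0) (OnePoint.map (Th e) z) =
      OnePoint.map (Th e) (smash id (smash hh id) z) := by
  induction z using OnePoint.rec with
  | infty => rfl
  | coe y =>
    obtain ⟨w, x, s, v⟩ := y
    have h1 : Th e (w, x, s, v) (Sum.inr 0) = x := rfl
    rw [OnePoint.map_some]
    unfold Hc
    rw [elim_some, h1]
    show _ = OnePoint.map (Th e) (sm (w : OnePoint W)
      (sm (hh (x : OnePoint ℝ)) (((s, v) : ℝ × ℝ) : OnePoint (ℝ × ℝ))))
    rw [hh_coe]
    split_ifs with hx
    · rfl
    · show _ = OnePoint.some (Th e (w, (x - 1 / x) / 2, s, v))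
      congr 1
      funext c
      by_cases hc : c = Sum.inr 0
      · subst hc
        rw [upd_same]
        rfl
      · rw [upd_ne hc]
        rcases c with c | c
        · rfl
        · fin_cases c
          · exact absurd rfl hc
          · rfl
          · rfl

theorem Hc_Th_s {a b : ℕ} [DecidableEq ((Fin a ⊕ Fin b) ⊕ Fin 3)] (e : W ≃ₗ[ℝ] (Fin a ⊕ Fin b → ℝ)) (z : OnePoint (W × (ℝ × (ℝ × ℝ)))) :
    Hc (Sum.inr 1) (OnePoint.map (Th e) z) =
      OnePoint.map (Th e) (smash id (smash id (smash hh id)) z) := by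
  induction z using OnePoint.rec with
  | infty => rfl
  | coe y =>
    obtain ⟨w, x, s, v⟩ := y
    have h1 : Th e (w, x, s, v) (Sum.inr 1) = s := rfl
    rw [OnePoint.map_some]
    unfold Hc
    rw [elim_some, h1]
    show _ = OnePoint.map (Th e) (sm (w : OnePoint W)
      (sm (x : OnePoint ℝ) (sm (hh (s : OnePoint ℝ)) (v : OnePoint ℝ))))
    rw [hh_coe]
    split_ifs with hx
    · rfl
    · show _ = OnePoint.some (Th e (w, x, (s - 1 / s) / 2, v))
      congr 1
      funext c
      by_cases hc : c = Sum.inr 1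
      · subst hc
        rw [upd_same]
        rfl
      · rw [upd_ne hc]
        rcases c with c | c
        · rfl
        · fin_cases c
          · rfl
          · exact absurd rfl hc
          · rfl

theorem nonvanish
    (F : unitInterval × OnePoint (W × (ℝ × Do)) → OnePoint (W × (ℝ × (ℝ × ℝ))))
    (hF : Continuous F) (hF0 : ∀ t, F (t, ∞) = ∞)
    (h0 : ∀ z, F (0, z) = smash id f0 z) (h1 : ∀ z, F (1, z) = ∞)
    (γ : W →ₗ[ℝ] W) (hγ : ∀ w, γ (γ w) = w)
    (hFg : ∀ t (w : W) (x : ℝ) (d : Do), F (t, ((γ w, (-x, d)) : W × (ℝ × Do))) =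
      OnePoint.map (fun y => (γ y.1, (-y.2.1, y.2.2))) (F (t, ((w, (x, d)) : W × (ℝ × Do))))) :
    False := by
  classical
  obtain ⟨a, b, e, he1, he2⟩ := adapted γ hγ
  have hFg' : ∀ t (w : W) (x : ℝ) (d : OnePoint Do),
      F (t, sm ((γ w : W) : OnePoint W) (sm ((-x : ℝ) : OnePoint ℝ) d)) =
      OnePoint.map (fun y => (γ y.1, (-y.2.1, y.2.2)))
        (F (t, sm (w : OnePoint W) (sm (x : OnePoint ℝ) d))) := by
    intro t w x d
    induction d using OnePoint.rec with
    | infty =>
      rw [sm_infty_right, sm_infty_right, sm_infty_right, sm_infty_right, hF0]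
      rfl
    | coe d => exact hFg t w x d
  have cTh : Continuous (OnePoint.map (Th e)) :=
    continuous_map_of_leftInverse (Th e).continuous (Th e).symm.continuous (Th e).symm_apply_apply
  have cTh' : Continuous (OnePoint.map (Th e).symm) :=
    continuous_map_of_leftInverse (Th e).symm.continuous (Th e).continuous (Th e).apply_symm_apply
  have inv1 : ∀ z, OnePoint.map (Th e).symm (OnePoint.map (Th e) z) = z := by
    intro z
    induction z using OnePoint.rec with
    | infty => rfl
    | coe y => simp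
  have inv2 : ∀ z, OnePoint.map (Th e) (OnePoint.map (Th e).symm z) = z := by
    intro z
    induction z using OnePoint.rec with
    | infty => rfl
    | coe y => simp
  have gTh : ∀ z, OnePoint.map (gam (sgC a b)) (OnePoint.map (Th e) z) =
      OnePoint.map (Th e) (OnePoint.map (fun y : W × (ℝ × (ℝ × ℝ)) => (γ y.1, (-y.2.1, y.2.2))) z) := by
    intro z
    induction z using OnePoint.rec with
    | infty => rfl
    | coe y =>
      simp only [OnePoint.map_some]
      rw [gam_Th e γ he1 he2]
  have gTh' : ∀ z, OnePoint.map (Th e).symm (OnePoint.map (gam (sgC a b)) z) =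
      OnePoint.map (fun y : W × (ℝ × (ℝ × ℝ)) => (γ y.1, (-y.2.1, y.2.2)))
        (OnePoint.map (Th e).symm z) := by
    intro z
    rw [← inv1 (OnePoint.map (fun y : W × (ℝ × (ℝ × ℝ)) => (γ y.1, (-y.2.1, y.2.2)))
      (OnePoint.map (Th e).symm z)), ← gTh, inv2]
  have gA : ∀ z, AT F (OnePoint.map (fun y : W × (ℝ × (ℝ × ℝ)) => (γ y.1, (-y.2.1, y.2.2))) z) =
      OnePoint.map (fun y : W × (ℝ × (ℝ × ℝ)) => (γ y.1, (-y.2.1, y.2.2))) (AT F z) := by
    intro z
    induction z using OnePoint.rec with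
    | infty => rfl
    | coe y => exact hFg' _ _ _ _
  have gK : ∀ t z, KT F (t, OnePoint.map
      (fun y : W × (ℝ × (ℝ × ℝ)) => (γ y.1, (-y.2.1, y.2.2))) z) =
      OnePoint.map (fun y : W × (ℝ × (ℝ × ℝ)) => (γ y.1, (-y.2.1, y.2.2))) (KT F (t, z)) := by
    intro t z
    induction z using OnePoint.rec with
    | infty => rfl
    | coe y => exact hFg' _ _ _ _
  refine deg_contra (n := (Fin a ⊕ Fin b) ⊕ Fin 3) (sgC a b) (Sum.inr 0) (Sum.inr 1)
    (Or.inr rfl) (by simp [sgC])
    (fun z => OnePoint.map (Th e) (AT F (OnePoint.map (Th e).symm z))) ?_ rfl ?_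
    (fun z => OnePoint.map (Th e) (KT F (z.1, OnePoint.map (Th e).symm z.2))) ?_ ?_ ?_ ?_ ?_
  · exact cTh.comp ((continuous_AT F hF hF0 h0 h1).comp cTh')
  · intro z
    rw [gTh', gA, gTh]
  · exact cTh.comp ((continuous_KT F hF hF0 h0 h1).comp
      (continuous_fst.prodMk (cTh'.comp continuous_snd)))
  · intro t
    rfl
  · intro t z
    simp only
    rw [gTh', gK, gTh]
  · intro z
    obtain ⟨z, rfl⟩ : ∃ z', OnePoint.map (Th e) z' = z := ⟨_, inv2 z⟩
    simp only
    rw [inv1, KT_zero F h0, Hc_Th_s, Hc_Th_x]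
    congr 1
    rw [smash_smash _ _ _ _ rfl rfl]
    induction z using OnePoint.rec with
    | infty => rfl
    | coe y =>
      show _ = sm (y.1 : OnePoint W) (smash hh id (sm (y.2.1 : OnePoint ℝ)
        (sm (hh (y.2.2.1 : OnePoint ℝ)) (y.2.2.2 : OnePoint ℝ))))
      rw [smash_sm hh_infty rfl]
      rfl
  · intro z
    obtain ⟨z, rfl⟩ : ∃ z', OnePoint.map (Th e) z' = z := ⟨_, inv2 z⟩
    simp only
    rw [inv1, KT_one F hF0, Hc_Th_s, Hc_Th_s, inv1]
    congr 2
    induction z using OnePoint.rec with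
    | infty => rfl
    | coe y =>
      show _ = smash id (smash id (smash hh id)) (sm (y.1 : OnePoint W) (sm (y.2.1 : OnePoint ℝ)
        (sm (hh (y.2.2.1 : OnePoint ℝ)) (y.2.2.2 : OnePoint ℝ))))
      rw [smash_sm rfl rfl, smash_sm rfl rfl, smash_sm hh_infty rfl]
      rfl

end

theorem ff_not_stablyNull : ¬ ff.IsStablyNull := by
  rintro ⟨V, F, hF, h0, h1⟩
  have hlc : LocallyCompactSpace V.carrier := by
    have := FiniteDimensional.proper ℝ V.carrier
    infer_instance
  refine nonvanish (W := V.carrier) (fun z => (F z.1).toFun z.2) hF (fun t => (F t).map_base)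
    (fun z => h0 z) (fun z => h1 z)
    { toFun := fun w => gm • w
      map_add' := smul_add gm
      map_smul' := fun r w => smul_comm gm r w } (fun w => ?_) (fun t w x d => ?_)
  · show gm • gm • w = w
    rw [smul_smul, gm_mul_gm, one_smul]
  · have h := (F t).map_smul gm (OnePoint.some (w, (x, d)))
    have e1 : (V.sphere.prod XX).smulPlus gm (OnePoint.some (w, (x, d))) =
        OnePoint.some (gm • w, (-x, d)) := by
      show OnePoint.some (gm • w, ((-1 : ℤˣ) • x, d)) = _
      simp
    have e2 : ∀ z, (V.sphere.prod YY).smulPlus gm z =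
        OnePoint.map (fun y : V.carrier × (ℝ × (ℝ × ℝ)) => (gm • y.1, (-y.2.1, y.2.2))) z := by
      intro z
      induction z using OnePoint.rec with
      | infty => rfl
      | coe y =>
        obtain ⟨y1, y2, y3⟩ := y
        exact congrArg (fun t : ℝ => OnePoint.some ((gm • y1 : V.carrier), (t, y3)))
          (neg_one_smul_real y2)
    rw [e1, e2] at h
    exact h

end Pool.Agent.N508.GH
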