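import Pool.Agent.N508.GH.Hom

/-!
# Rotations and the null-homotopies
-/

set_option autoImplicit false
set_option linter.unusedSectionVars false

namespace Pool.Agent.N508.GH

open Set Topology OnePoint Filter

section Rot

variable {V : Type} [NormedAddCommGroup V] [NormedSpace ℝ V]

/-- rotation in `V × V` -/
noncomputable def rot (t : ℝ) (z : V × V) : V × V :=
  (Real.cos t • z.1 - Real.sin t • z.2, Real.sin t • z.1 + Real.cos t • z.2)

theorem rot_rot (s t : ℝ) (z : V × V) : rot s (rot t z) = rot (s + t) z := by
  unfold rot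
  rw [Real.cos_add, Real.sin_add]
  simp only
  apply Prod.ext
  · simp only
    module
  · simp only
    module

@[simp] theorem rot_zero (z : V × V) : rot 0 z = z := by
  unfold rot
  simp

@[simp] theorem rot_neg_rot (t : ℝ) (z : V × V) : rot (-t) (rot t z) = z := by
  rw [rot_rot, neg_add_cancel, rot_zero]

@[simp] theorem rot_rot_neg (t : ℝ) (z : V × V) : rot t (rot (-t) z) = z := by
  rw [rot_rot, add_neg_cancel, rot_zero]

theorem rot_pi_div_two (a b : V) : rot (Real.pi / 2) (a, b) = (-b, a) := by
  unfold rot
  simp

theorem rot_neg_pi_div_two (a b : V) : rot (-(Real.pi / 2)) (a, b) = (b, -a) := by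
  unfold rot
  simp

theorem rot_pi (a b : V) : rot Real.pi (a, b) = (-a, -b) := by
  unfold rot
  simp

theorem rot_map (γ : V →ₗ[ℝ] V) (t : ℝ) (z : V × V) :
    rot t (Prod.map γ γ z) = Prod.map γ γ (rot t z) := by
  unfold rot
  simp

theorem continuous_rot : Continuous fun w : ℝ × (V × V) => rot w.1 w.2 := by
  unfold rot
  fun_prop

theorem continuous_rot_comp {X : Type*} [TopologicalSpace X] {f : X → ℝ} {g : X → V × V}
    (hf : Continuous f) (hg : Continuous g) : Continuous fun x => rot (f x) (g x) :=
  continuous_rot.comp (hf.prodMk hg)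

variable [LocallyCompactSpace V]

theorem continuous_rotP {X : Type*} [TopologicalSpace X] {f : X → ℝ} {g : X → OnePoint (V × V)}
    (hf : Continuous f) (hg : Continuous g) : Continuous fun x => OnePoint.map (rot (f x)) (g x) := by
  have h := continuous_family (S := ℝ) (P := V × V) (Q := V × V) (φ := fun w => rot w.1 w.2)
    (ψ := fun w => rot (-w.1) w.2) continuous_rot
    (continuous_rot_comp (by fun_prop) (by fun_prop)) (fun t z => rot_neg_rot t z)
  exact h.comp (hf.prodMk hg)

/-- Rotation: smashing with an odd map on the one or the other side gives homotopic maps. -/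
theorem rot_htpy (θ : OnePoint V → OnePoint V) (hθ : Continuous θ)
    (hodd : Eqv (fun x => -x) (fun x => -x) θ) (γ : V →ₗ[ℝ] V) (hγ : Eqv γ γ θ) :
    HE (Prod.map γ γ) (Prod.map γ γ) (smash id θ) (smash θ id) := by
  refine ⟨fun w => OnePoint.map (rot (Real.pi / 2 * w.1))
    (smash id θ (OnePoint.map (rot (-(Real.pi / 2 * w.1))) w.2)), ?_, ?_, ?_, ?_⟩
  · have c1 : Continuous fun w : unitInterval × OnePoint (V × V) =>
        OnePoint.map (rot (-(Real.pi / 2 * (w.1 : ℝ)))) w.2 :=
      continuous_rotP (f := fun w : unitInterval × OnePoint (V × V) =>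
        (-(Real.pi / 2 * (w.1 : ℝ)))) (by fun_prop) continuous_snd
    have c2 : Continuous (smash (id : OnePoint V → OnePoint V) θ) :=
      continuous_smash continuous_id hθ rfl hodd.1
    exact continuous_rotP (f := fun w : unitInterval × OnePoint (V × V) =>
        (Real.pi / 2 * (w.1 : ℝ))) (by fun_prop) (c2.comp c1)
  · intro t
    have h1 : ∀ s : ℝ, Eqv (P := V × V) (Q := V × V) (Prod.map γ γ) (Prod.map γ γ)
        (OnePoint.map (rot (V := V) s)) :=
      fun s => eqv_map (α := Prod.map γ γ) (f := rot (V := V) s) (fun x => rot_map γ s x)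
    exact (h1 (Real.pi / 2 * t)).comp
      ((eqv_smash (eqv_id γ) hγ).comp (h1 (-(Real.pi / 2 * t))))
  · intro z
    simp only [Set.Icc.coe_zero, mul_zero, neg_zero]
    have h : ∀ z : OnePoint (V × V), OnePoint.map (rot 0) z = z := by
      intro z
      induction z using OnePoint.rec <;> simp
    rw [h, h]
  · intro z
    simp only [Set.Icc.coe_one, mul_one]
    induction z using OnePoint.rec with
    | infty => rfl
    | coe z =>
      obtain ⟨a, b⟩ := z
      rw [OnePoint.map_some, rot_neg_pi_div_two, smash_coe, smash_coe]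
      have h := hodd.2 (a : OnePoint V)
      rw [OnePoint.map_some] at h
      rw [h]
      generalize θ (a : OnePoint V) = c
      induction c using OnePoint.rec with
      | infty => rfl
      | coe c =>
        simp only [id, OnePoint.map_some, sm_coe]
        rw [rot_pi_div_two, neg_neg]

end Rot

section Conj

variable {U : Type} [NormedAddCommGroup U] [NormedSpace ℝ U] [LocallyCompactSpace U]
  [FiniteDimensional ℝ U]

/-- the conjugate of a linear involution by a rotation -/
noncomputable def Bt {X : Type} (γ : U →ₗ[ℝ] U) (t : ℝ) (z : U × (U × X)) : U × (U × X) :=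
  ((rot t (Prod.map id γ (rot (-t) (z.1, z.2.1)))).1,
    ((rot t (Prod.map id γ (rot (-t) (z.1, z.2.1)))).2, z.2.2))

theorem Bt_Bt {X : Type} (γ : U →ₗ[ℝ] U) (hγ : ∀ u, γ (γ u) = u) (t : ℝ) (z : U × (U × X)) :
    Bt γ t (Bt γ t z) = z := by
  obtain ⟨a, b, x⟩ := z
  unfold Bt
  simp only
  have h : ∀ w : U × U, rot t (Prod.map id γ (rot (-t) (rot t (Prod.map id γ (rot (-t) w))))) = w := by
    intro w
    rw [rot_neg_rot]
    have h2 : ∀ w : U × U, Prod.map id γ (Prod.map id γ w) = w := by
      intro w
      obtain ⟨w1, w2⟩ := w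
      simp [hγ]
    rw [h2, rot_rot_neg]
  have h3 := h (a, b)
  rw [Prod.mk.eta, h3]

theorem Bt_zero {X : Type} (γ : U →ₗ[ℝ] U) (z : U × (U × X)) :
    Bt γ 0 z = (z.1, (γ z.2.1, z.2.2)) := by
  unfold Bt
  simp

theorem Bt_pi_div_two {X : Type} (γ : U →ₗ[ℝ] U) (z : U × (U × X)) :
    Bt γ (Real.pi / 2) z = (γ z.1, (z.2.1, z.2.2)) := by
  unfold Bt
  rw [rot_neg_pi_div_two]
  simp only [Prod.map_apply, id]
  rw [rot_pi_div_two, map_neg, neg_neg]

theorem continuous_Bt {X : Type} [TopologicalSpace X] (γ : U →ₗ[ℝ] U) :
    Continuous fun w : ℝ × (U × (U × X)) => Bt γ w.1 w.2 := by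
  have hγ : Continuous γ := γ.continuous_of_finiteDimensional
  have h : Continuous fun w : ℝ × (U × (U × X)) =>
      rot w.1 (Prod.map id γ (rot (-w.1) (w.2.1, w.2.2.1))) := by
    apply continuous_rot_comp (by fun_prop)
    apply (continuous_id.prodMap hγ).comp
    exact continuous_rot_comp (by fun_prop) (by fun_prop)
  unfold Bt
  exact (continuous_fst.comp h).prodMk ((continuous_snd.comp h).prodMk (by fun_prop))

theorem continuous_BtP {X : Type} [TopologicalSpace X] [T2Space X] (γ : U →ₗ[ℝ] U)
    (hγ : ∀ u, γ (γ u) = u) {Z : Type*} [TopologicalSpace Z] {f : Z → ℝ}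
    {g : Z → OnePoint (U × (U × X))} (hf : Continuous f) (hg : Continuous g) :
    Continuous fun x => OnePoint.map (Bt γ (f x)) (g x) := by
  have h : Continuous fun w : ℝ × OnePoint (U × (U × X)) => OnePoint.map (Bt γ w.1) w.2 :=
    continuous_family (S := ℝ) (P := U × (U × X)) (Q := U × (U × X))
      (φ := fun w => Bt γ w.1 w.2) (ψ := fun w => Bt γ w.1 w.2) (continuous_Bt γ)
      (continuous_Bt γ) (fun t z => Bt_Bt γ hγ t z)
  exact h.comp (hf.prodMk hg)

/-- A map which is equivariant for a linear involution of a coordinate is, after suspension,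
homotopic to its composite with the involution of the remaining coordinates. -/
theorem conj_htpy {P' Q' : Type} [TopologicalSpace P'] [TopologicalSpace Q'] [T2Space P']
    [T2Space Q'] [LocallyCompactSpace Q'] (γ : U →ₗ[ℝ] U) (hγ : ∀ u, γ (γ u) = u)
    {y : OnePoint (U × P') → OnePoint (U × Q')} (hy : Continuous y) (r : Q' → Q')
    (hr : Continuous r) (hrr : ∀ x, r (r x) = x)
    (hyg : Eqv (Prod.map γ id) (Prod.map γ r) y) :
    HE id id (smash (id : OnePoint U → OnePoint U) y)
      (fun z => OnePoint.map (Prod.map id (Prod.map id r)) (smash id y z)) := by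
  have cr : Continuous (OnePoint.map (Prod.map (id : U → U) (Prod.map (id : U → U) r))) := by
    apply continuous_map_of_leftInverse (ψ := Prod.map (id : U → U) (Prod.map (id : U → U) r))
    · fun_prop
    · fun_prop
    · rintro ⟨a, b, c⟩
      simp [hrr]
  refine ⟨fun w => OnePoint.map (Prod.map (id : U → U) (Prod.map (id : U → U) r))
    (OnePoint.map (Bt γ (Real.pi / 2 * w.1)) (smash id y
      (OnePoint.map (Bt γ (Real.pi / 2 * w.1)) w.2))), ?_, ?_, ?_, ?_⟩
  · have c1 : Continuous fun w : unitInterval × OnePoint (U × (U × P')) =>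
        OnePoint.map (Bt γ (Real.pi / 2 * (w.1 : ℝ))) w.2 :=
      continuous_BtP γ hγ (f := fun w : unitInterval × OnePoint (U × (U × P')) =>
        (Real.pi / 2 * (w.1 : ℝ))) (by fun_prop) continuous_snd
    have c2 : Continuous (smash (id : OnePoint U → OnePoint U) y) :=
      continuous_smash continuous_id hy rfl hyg.1
    have c3 := continuous_BtP γ hγ (f := fun w : unitInterval × OnePoint (U × (U × P')) =>
        (Real.pi / 2 * (w.1 : ℝ))) (by fun_prop) (c2.comp c1)
    exact cr.comp c3
  · intro t
    exact eqv_based rfl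
  · intro z
    simp only [Set.Icc.coe_zero, mul_zero]
    induction z using OnePoint.rec with
    | infty => rfl
    | coe z =>
      obtain ⟨a, b, c⟩ := z
      rw [OnePoint.map_some, Bt_zero, smash_coe, smash_coe]
      have h := hyg.2 (((b, c) : U × P') : OnePoint (U × P'))
      rw [OnePoint.map_some] at h
      simp only [Prod.map_apply, id] at h
      simp only [id]
      rw [h]
      generalize y (((b, c) : U × P') : OnePoint (U × P')) = w
      induction w using OnePoint.rec with
      | infty => rfl
      | coe w =>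
        obtain ⟨w1, w2⟩ := w
        simp [Bt_zero, hγ, hrr]
  · intro z
    simp only [Set.Icc.coe_one, mul_one]
    induction z using OnePoint.rec with
    | infty => rfl
    | coe z =>
      obtain ⟨a, b, c⟩ := z
      rw [OnePoint.map_some, Bt_pi_div_two, smash_coe, smash_coe]
      simp only [id]
      generalize y (((b, c) : U × P') : OnePoint (U × P')) = w
      induction w using OnePoint.rec with
      | infty => rfl
      | coe w =>
        obtain ⟨w1, w2⟩ := w
        simp [Bt_pi_div_two, hγ]

end Conj

section Halves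

variable {P Q : Type} [TopologicalSpace P] [TopologicalSpace Q] [T2Space Q]
  [LocallyCompactSpace Q]

theorem wsum_smash {R S A B : Type} (f g : OnePoint A → OnePoint B) (k : OnePoint R → OnePoint S)
    (z : OnePoint (A × R)) :
    wsum (smash f k) (smash g k) z = smash (wsum f g) k z := by
  induction z using OnePoint.rec with
  | infty => exact wsum_right rfl
  | coe z =>
    unfold wsum
    rw [smash_coe, smash_coe, smash_coe]
    by_cases h1 : f (z.1 : OnePoint A) = ∞
    · rw [if_pos h1, if_pos (by rw [h1]; rfl)]
    · rw [if_neg h1]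
      by_cases h2 : k (z.2 : OnePoint R) = ∞
      · rw [h2]
        simp
      · rw [if_neg]
        rw [sm_eq_infty]
        push Not
        exact ⟨h1, h2⟩

theorem wsum_HE {f : OnePoint P → OnePoint Q} (hf : Continuous f) (hf0 : f ∞ = ∞)
    {F : unitInterval × OnePoint P → OnePoint Q} (hF : Continuous F) (hF0 : ∀ t, F (t, ∞) = ∞)
    (h : ∀ t z, f z = ∞ ∨ F (t, z) = ∞) :
    HE id id (wsum f (fun z => F (0, z))) (wsum f (fun z => F (1, z))) := by
  refine ⟨wsum (fun w => f w.2) F, ?_, ?_, fun _ => rfl, fun _ => rfl⟩
  · exact continuous_wsum (hf.comp continuous_snd) hF (fun w => h w.1 w.2)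
  · intro t
    apply eqv_based
    unfold wsum
    simp only [hf0, hF0, if_true]

/-- The smash product of the map of degree two of a circle and a map homotopic to its composite
with a reflection is null-homotopic, as the two halves cancel. -/
theorem halves {Y : OnePoint P → OnePoint Q} (hY : Continuous Y) (hY0 : Y ∞ = ∞) (ρ : Q → Q)
    (hρ : HE id id Y (fun z => OnePoint.map ρ (Y z)))
    {R : unitInterval × OnePoint (ℝ × Q) → OnePoint (ℝ × Q)} (hR : Continuous R)
    (hR' : ∀ t, R (t, ∞) = ∞) (hR0 : ∀ z, R (0, z) = z)
    (hR1 : ∀ z, R (1, z) = OnePoint.map (Prod.map (fun x => -x) ρ) z) :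
    HE id id (smash hh Y) (fun _ => ∞) := by
  have cP : Continuous (smash hp Y) := continuous_smash continuous_hp hY hp_infty hY0
  have cN : Continuous (smash (fun z => hp (ng z)) Y) :=
    continuous_smash (continuous_hp.comp continuous_ng) hY rfl hY0
  obtain ⟨F, hF, h1, h2, h3⟩ := hρ
  have s1 := wsum_HE (f := smash hp Y) cP rfl
    (F := fun w => smash hm (fun z => F (w.1, z)) w.2)
    (continuous_smash_family (F := fun z => hm z.2) (continuous_hm.comp continuous_snd) hF
      (fun _ => rfl) (fun s => (h1 s).1)) (fun _ => rfl) (by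
      intro t z
      induction z using OnePoint.rec with
      | infty => exact Or.inl rfl
      | coe z =>
        rw [smash_coe, smash_coe]
        rcases hp_or_hm (z.1 : OnePoint ℝ) with h | h
        · left; rw [h]; rfl
        · right; rw [h]; rfl)
  have s2 := wsum_HE (f := smash hp Y) cP rfl
    (F := fun w => R (unitInterval.symm w.1, smash (fun z => hp (ng z)) Y w.2))
    (hR.comp ((unitInterval.continuous_symm.comp continuous_fst).prodMk (cN.comp continuous_snd)))
    (fun _ => hR' _) (by
      intro t z
      induction z using OnePoint.rec with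
      | infty => exact Or.inl rfl
      | coe z =>
        rw [smash_coe, smash_coe]
        rcases hp_or_hp_ng (z.1 : OnePoint ℝ) with h | h
        · left; rw [h]; rfl
        · right
          show R (_, sm (hp (ng (z.1 : OnePoint ℝ))) _) = ∞
          rw [h]
          exact hR' _)
  have s3 : HE id id (smash (fun z => Ev (0, z)) Y) (smash (fun z => Ev (1, z)) Y) :=
    ⟨fun w => smash (fun z => Ev (w.1, z)) Y w.2,
      continuous_smash_family (G := fun z => Y z.2) continuous_Ev (hY.comp continuous_snd)
        (fun _ => rfl) (fun _ => hY0), fun _ => eqv_based rfl, fun _ => rfl, fun _ => rfl⟩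
  -- glue
  have e1 : ∀ z, wsum (smash hp Y) (fun z => smash hm (fun x => F (0, x)) z) z = smash hh Y z := by
    intro z
    have : (fun x => F (0, x)) = Y := funext h2
    rw [this]
    exact wsum_smash hp hm Y z
  have e2 : ∀ z, smash hm (fun x => F (1, x)) z =
      R (unitInterval.symm 0, smash (fun z => hp (ng z)) Y z) := by
    intro z
    rw [unitInterval.symm_zero, hR1]
    have : (fun x => F (1, x)) = fun z => OnePoint.map ρ (Y z) := funext h3
    rw [this]
    induction z using OnePoint.rec with
    | infty => rfl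
    | coe z =>
      rw [smash_coe, smash_coe, map_sm]
      rfl
  have e3 : ∀ z, wsum (smash hp Y)
      (fun z => R (unitInterval.symm 1, smash (fun z => hp (ng z)) Y z)) z =
      smash (fun z => Ev (0, z)) Y z := by
    intro z
    have h4 : (fun z => R (unitInterval.symm 1, smash (fun z => hp (ng z)) Y z)) =
        smash (fun z => hp (ng z)) Y := by
      funext z
      rw [unitInterval.symm_one, hR0]
    rw [h4, wsum_smash]
    have h5 : (fun z => Ev (0, z)) = wsum hp (fun z => hp (ng z)) := funext Ev_zero
    rw [h5]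
  have e4 : ∀ z, smash (fun z => Ev (1, z)) Y z = ∞ := by
    intro z
    induction z using OnePoint.rec with
    | infty => rfl
    | coe z =>
      rw [smash_coe, Ev_one]
      rfl
  have s1' := s1.congr e1 (fun z => (rfl : _ = wsum (smash hp Y)
    (fun z => smash hm (fun x => F (1, x)) z) z))
  have e5 : (fun z => smash hm (fun x => F (1, x)) z) =
      fun z => R (unitInterval.symm 0, smash (fun z => hp (ng z)) Y z) := funext e2
  rw [e5] at s1'
  exact (s1'.trans s2).trans (s3.congr (fun z => (e3 z).symm) e4)

end Halves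

end Pool.Agent.N508.GH
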