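import Mathlib

/-!
# Tools for maps between one-point compactifications
-/

set_option autoImplicit false
set_option linter.unusedSectionVars false

namespace Pool.Agent.N508.GH

open Set Topology OnePoint Filter

section Collapse

variable {X Y : Type*}

open Classical in
/-- The collapse map `X → Y⁺` of an open embedding `g : Y → X`. -/
noncomputable def collapse (g : Y → X) (x : X) : OnePoint Y :=
  if h : ∃ y, g y = x then ((h.choose : Y) : OnePoint Y) else ∞

theorem collapse_apply {g : Y → X} (hg : Function.Injective g) (y : Y) :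
    collapse g (g y) = y := by
  have h : ∃ y', g y' = g y := ⟨y, rfl⟩
  unfold collapse
  rw [dif_pos h]
  congr 1
  exact hg h.choose_spec

theorem collapse_of_notMem {g : Y → X} {x : X} (hx : x ∉ range g) : collapse g x = ∞ := by
  unfold collapse
  rw [dif_neg]
  exact fun ⟨y, hy⟩ => hx ⟨y, hy⟩

theorem collapse_eq_coe {g : Y → X} (hg : Function.Injective g) {x : X} {y : Y} :
    collapse g x = y ↔ g y = x := by
  constructor
  · intro h
    by_cases hx : x ∈ range g
    · obtain ⟨y', rfl⟩ := hx
      rw [collapse_apply hg, OnePoint.coe_eq_coe] at h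
      rw [h]
    · rw [collapse_of_notMem hx] at h
      exact absurd h.symm (OnePoint.coe_ne_infty y)
  · rintro rfl
    exact collapse_apply hg y

theorem collapse_eq_infty {g : Y → X} (hg : Function.Injective g) {x : X} :
    collapse g x = ∞ ↔ x ∉ range g := by
  constructor
  · rintro h ⟨y, rfl⟩
    rw [collapse_apply hg] at h
    exact OnePoint.coe_ne_infty y h
  · exact collapse_of_notMem

variable [TopologicalSpace X] [TopologicalSpace Y]

theorem continuous_collapse [T2Space X] {g : Y → X} (hg : IsOpenEmbedding g) :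
    Continuous (collapse g) := by
  have key : ∀ s : Set Y, collapse g ⁻¹' ((↑) '' s) = g '' s := by
    intro s
    ext x
    constructor
    · rintro ⟨y, hy, h⟩
      exact ⟨y, hy, (collapse_eq_coe hg.injective).mp h.symm⟩
    · rintro ⟨y, hy, rfl⟩
      exact ⟨y, hy, (collapse_apply hg.injective y).symm⟩
  rw [continuous_def]
  intro s hs
  by_cases h : ∞ ∈ s
  · rw [OnePoint.isOpen_iff_of_mem h] at hs
    have e : collapse g ⁻¹' s = (g '' (((↑) : Y → OnePoint Y) ⁻¹' s)ᶜ)ᶜ := by
      rw [← key, ← preimage_compl]
      congr 1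
      rw [compl_image_coe, compl_compl]
      ext x
      induction x using OnePoint.rec with
      | infty => simp [h]
      | coe x => simp
    rw [e, isOpen_compl_iff]
    exact (hs.2.image hg.continuous).isClosed
  · rw [OnePoint.isOpen_iff_of_notMem h] at hs
    have e : collapse g ⁻¹' s = g '' (((↑) : Y → OnePoint Y) ⁻¹' s) := by
      rw [← key]
      congr 1
      ext x
      induction x using OnePoint.rec with
      | infty => simp [h]
      | coe x => simp
    rw [e]
    exact hg.isOpenMap _ hs

/-- A continuous map on `X`, constant off the image of the open embedding `g : Y → X`, induces a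
continuous map on `Y⁺` (with a parameter in `S`). -/
theorem continuous_descend {S Z : Type*} [TopologicalSpace S] [TopologicalSpace Z]
    [CompactSpace X] {g : Y → X} (hg : IsOpenEmbedding g) {F : S × X → Z} (hF : Continuous F)
    {z₀ : Z} (h0 : ∀ s x, x ∉ range g → F (s, x) = z₀) :
    Continuous (fun p : S × OnePoint Y => p.2.elim z₀ (fun y => F (p.1, g y))) := by
  rw [continuous_iff_continuousAt]
  rintro ⟨s, y⟩
  induction y using OnePoint.rec with
  | coe y =>
    have ho : IsOpenEmbedding (Prod.map (id : S → S) ((↑) : Y → OnePoint Y)) :=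
      IsOpenEmbedding.id.prodMap OnePoint.isOpenEmbedding_coe
    have h1 : ContinuousAt ((fun p : S × OnePoint Y => p.2.elim z₀ (fun y => F (p.1, g y))) ∘
        (Prod.map (id : S → S) ((↑) : Y → OnePoint Y))) (s, y) := by
      apply Continuous.continuousAt
      have : ((fun p : S × OnePoint Y => p.2.elim z₀ (fun y => F (p.1, g y))) ∘
        (Prod.map (id : S → S) ((↑) : Y → OnePoint Y))) = fun p => F (p.1, g p.2) := by
        funext p
        rfl
      rw [this]
      exact hF.comp (continuous_fst.prodMk (hg.continuous.comp continuous_snd))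
    exact ho.continuousAt_iff.mp h1
  | infty =>
    intro U hU
    simp only [elim_infty] at hU
    obtain ⟨V, hVU, hV, hz⟩ := mem_nhds_iff.mp hU
    have hsub : ({s} : Set S) ×ˢ (range g)ᶜ ⊆ F ⁻¹' V := by
      rintro ⟨s', x⟩ ⟨hs', hx⟩
      rw [mem_preimage, h0 s' x hx]
      exact hz
    obtain ⟨u, v, hu, hv, hsu, hgv, huv⟩ := generalized_tube_lemma isCompact_singleton
      (hg.isOpen_range.isClosed_compl.isCompact) (hV.preimage hF) hsub
    have hK : IsCompact (g ⁻¹' vᶜ) := by
      rw [hg.isInducing.isCompact_preimage_iff (compl_subset_comm.mp hgv)]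
      exact hv.isClosed_compl.isCompact
    have hKc : IsClosed (g ⁻¹' vᶜ) := hv.isClosed_compl.preimage hg.continuous
    have hN : u ×ˢ (((↑) : Y → OnePoint Y) '' (g ⁻¹' vᶜ))ᶜ ∈ 𝓝 (s, (∞ : OnePoint Y)) := by
      apply IsOpen.mem_nhds
      · exact hu.prod (OnePoint.isOpen_compl_image_coe.mpr ⟨hKc, hK⟩)
      · exact ⟨hsu rfl, infty_notMem_image_coe⟩
    rw [Filter.mem_map]
    filter_upwards [hN]
    rintro ⟨s', y⟩ ⟨hs', hy⟩
    induction y using OnePoint.rec with
    | infty => exact hVU hz
    | coe y =>
      apply hVU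
      have hyv : g y ∈ v := by
        by_contra h
        exact hy ⟨y, h, rfl⟩
      exact huv ⟨hs', hyv⟩

end Collapse

section Family

variable {S P Q : Type*} [TopologicalSpace S] [TopologicalSpace P] [TopologicalSpace Q]

/-- A family of maps with a continuous family of left inverses extends to the one-point
compactifications. -/
theorem continuous_family [WeaklyLocallyCompactSpace S] [T2Space P] {φ : S × P → Q}
    (hφ : Continuous φ) {ψ : S × Q → P} (hψ : Continuous ψ)
    (h : ∀ s p, ψ (s, φ (s, p)) = p) :
    Continuous (fun z : S × OnePoint P => OnePoint.map (fun p => φ (z.1, p)) z.2) := by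
  rw [continuous_iff_continuousAt]
  rintro ⟨s, y⟩
  induction y using OnePoint.rec with
  | coe y =>
    have ho : IsOpenEmbedding (Prod.map (id : S → S) ((↑) : P → OnePoint P)) :=
      IsOpenEmbedding.id.prodMap OnePoint.isOpenEmbedding_coe
    have h1 : ContinuousAt ((fun z : S × OnePoint P => OnePoint.map (fun p => φ (z.1, p)) z.2) ∘
        (Prod.map (id : S → S) ((↑) : P → OnePoint P))) (s, y) := by
      apply Continuous.continuousAt
      have : ((fun z : S × OnePoint P => OnePoint.map (fun p => φ (z.1, p)) z.2) ∘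
        (Prod.map (id : S → S) ((↑) : P → OnePoint P))) = fun p => (φ p : OnePoint Q) := by
        funext p
        rfl
      rw [this]
      exact OnePoint.continuous_coe.comp hφ
    exact ho.continuousAt_iff.mp h1
  | infty =>
    obtain ⟨C, hC, hCs⟩ := exists_compact_mem_nhds s
    intro U hU
    simp only [OnePoint.map_infty] at hU
    obtain ⟨V, hVU, hV, hz⟩ := mem_nhds_iff.mp hU
    rw [OnePoint.isOpen_iff_of_mem hz] at hV
    have hK : IsCompact (ψ '' (C ×ˢ (((↑) : Q → OnePoint Q) ⁻¹' V)ᶜ)) :=
      (hC.prod hV.2).image hψ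
    have hN : C ×ˢ (((↑) : P → OnePoint P) '' (ψ '' (C ×ˢ (((↑) : Q → OnePoint Q) ⁻¹' V)ᶜ)))ᶜ
        ∈ 𝓝 (s, (∞ : OnePoint P)) := by
      apply prod_mem_nhds hCs
      apply IsOpen.mem_nhds
      · exact OnePoint.isOpen_compl_image_coe.mpr ⟨hK.isClosed, hK⟩
      · exact infty_notMem_image_coe
    rw [Filter.mem_map]
    filter_upwards [hN]
    rintro ⟨s', y⟩ ⟨hs', hy⟩
    induction y using OnePoint.rec with
    | infty => exact hVU hz
    | coe y =>
      apply hVU
      by_contra hn
      exact hy ⟨y, ⟨(s', φ (s', y)), ⟨hs', hn⟩, h s' y⟩, rfl⟩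

theorem continuous_map_of_leftInverse [T2Space P] {φ : P → Q} (hφ : Continuous φ) {ψ : Q → P}
    (hψ : Continuous ψ) (h : ∀ p, ψ (φ p) = p) : Continuous (OnePoint.map φ) := by
  have := continuous_family (S := Unit) (φ := fun z => φ z.2) (hφ.comp continuous_snd)
    (ψ := fun z => ψ z.2) (hψ.comp continuous_snd) (fun _ p => h p)
  exact this.comp (Continuous.prodMk continuous_const continuous_id : Continuous fun x => ((), x))

end Family

section Wsum

variable {X Q : Type*}

open Classical in
/-- the sum of two maps with disjoint supports -/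
noncomputable def wsum (f g : X → OnePoint Q) (x : X) : OnePoint Q := if f x = ∞ then g x else f x

theorem wsum_left {f g : X → OnePoint Q} {x : X} (h : g x = ∞) : wsum f g x = f x := by
  unfold wsum
  split_ifs with h1
  · rw [h, h1]
  · rfl

theorem wsum_right {f g : X → OnePoint Q} {x : X} (h : f x = ∞) : wsum f g x = g x := by
  unfold wsum
  rw [if_pos h]

theorem continuous_wsum [TopologicalSpace X] [TopologicalSpace Q] {f g : X → OnePoint Q}
    (hf : Continuous f) (hg : Continuous g) (h : ∀ x, f x = ∞ ∨ g x = ∞) :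
    Continuous (wsum f g) := by
  have hA : IsClosed {x | f x = ∞} := OnePoint.isClosed_infty.preimage hf
  have hB : IsClosed {x | g x = ∞} := OnePoint.isClosed_infty.preimage hg
  rw [← continuousOn_univ]
  have hu : (univ : Set X) = {x | f x = ∞} ∪ {x | g x = ∞} := by
    symm
    rw [eq_univ_iff_forall]
    exact h
  rw [hu]
  apply ContinuousOn.union_of_isClosed _ _ hA hB
  · exact hg.continuousOn.congr fun x hx => wsum_right hx
  · exact hf.continuousOn.congr fun x hx => wsum_left hx

end Wsum

section Smash

variable {P Q P' Q' : Type*}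

/-- the canonical map to the smash product `P⁺ × Q⁺ → (P × Q)⁺` -/
def sm (p : OnePoint P) (q : OnePoint Q) : OnePoint (P × Q) :=
  p.elim ∞ fun p => q.elim ∞ fun q => ((p, q) : P × Q)

@[simp] theorem sm_coe (p : P) (q : Q) :
    sm (p : OnePoint P) (q : OnePoint Q) = ((p, q) : P × Q) := rfl

@[simp] theorem sm_infty_left (q : OnePoint Q) : sm (∞ : OnePoint P) q = ∞ := rfl

@[simp] theorem sm_infty_right (p : OnePoint P) : sm p (∞ : OnePoint Q) = ∞ := by
  induction p using OnePoint.rec <;> rfl

theorem sm_eq_infty {p : OnePoint P} {q : OnePoint Q} : sm p q = ∞ ↔ p = ∞ ∨ q = ∞ := by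
  induction p using OnePoint.rec <;> induction q using OnePoint.rec <;> simp

/-- the smash product of two based maps -/
def smash (f : OnePoint P → OnePoint P') (g : OnePoint Q → OnePoint Q') (z : OnePoint (P × Q)) :
    OnePoint (P' × Q') :=
  z.elim ∞ fun y => sm (f (y.1 : OnePoint P)) (g (y.2 : OnePoint Q))

@[simp] theorem smash_infty (f : OnePoint P → OnePoint P') (g : OnePoint Q → OnePoint Q') :
    smash f g ∞ = ∞ := rfl

@[simp] theorem smash_coe (f : OnePoint P → OnePoint P') (g : OnePoint Q → OnePoint Q')
    (p : P) (q : Q) : smash f g ((p, q) : P × Q) = sm (f p) (g q) := rfl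

theorem smash_sm {f : OnePoint P → OnePoint P'} {g : OnePoint Q → OnePoint Q'} (hf : f ∞ = ∞)
    (hg : g ∞ = ∞) (p : OnePoint P) (q : OnePoint Q) : smash f g (sm p q) = sm (f p) (g q) := by
  induction p using OnePoint.rec <;> induction q using OnePoint.rec <;> simp [hf, hg]

theorem smash_smash {P'' Q'' : Type*} (f : OnePoint P → OnePoint P')
    (f' : OnePoint P' → OnePoint P'') (g : OnePoint Q → OnePoint Q')
    (g' : OnePoint Q' → OnePoint Q'') (hf' : f' ∞ = ∞) (hg' : g' ∞ = ∞) (z : OnePoint (P × Q)) :
    smash f' g' (smash f g z) = smash (fun x => f' (f x)) (fun x => g' (g x)) z := by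
  induction z using OnePoint.rec with
  | infty => rfl
  | coe y => exact smash_sm hf' hg' _ _

variable [TopologicalSpace P] [TopologicalSpace Q] [TopologicalSpace P'] [TopologicalSpace Q']

theorem isOpenEmbedding_coe_prod :
    IsOpenEmbedding (Prod.map ((↑) : P → OnePoint P) ((↑) : Q → OnePoint Q)) :=
  OnePoint.isOpenEmbedding_coe.prodMap OnePoint.isOpenEmbedding_coe

theorem sm_eq_collapse (z : OnePoint P × OnePoint Q) :
    sm z.1 z.2 = collapse (Prod.map ((↑) : P → OnePoint P) ((↑) : Q → OnePoint Q)) z := by
  obtain ⟨p, q⟩ := z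
  induction p using OnePoint.rec with
  | infty =>
    rw [collapse_of_notMem]
    · rfl
    · rintro ⟨⟨p, q⟩, h⟩
      exact OnePoint.coe_ne_infty p (congrArg Prod.fst h)
  | coe p =>
    induction q using OnePoint.rec with
    | infty =>
      rw [collapse_of_notMem]
      · rfl
      · rintro ⟨⟨p, q⟩, h⟩
        exact OnePoint.coe_ne_infty q (congrArg Prod.snd h)
    | coe q => exact (collapse_apply isOpenEmbedding_coe_prod.injective (p, q)).symm

theorem continuous_sm' [T2Space P] [LocallyCompactSpace P] [T2Space Q] [LocallyCompactSpace Q] :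
    Continuous (fun z : OnePoint P × OnePoint Q => sm z.1 z.2) := by
  have : (fun z : OnePoint P × OnePoint Q => sm z.1 z.2) =
      collapse (Prod.map ((↑) : P → OnePoint P) ((↑) : Q → OnePoint Q)) := by
    funext z
    exact sm_eq_collapse z
  rw [this]
  exact continuous_collapse isOpenEmbedding_coe_prod

theorem continuous_sm [T2Space P] [LocallyCompactSpace P] [T2Space Q] [LocallyCompactSpace Q]
    {X : Type*} [TopologicalSpace X] {f : X → OnePoint P} {g : X → OnePoint Q}
    (hf : Continuous f) (hg : Continuous g) : Continuous fun x => sm (f x) (g x) :=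
  continuous_sm'.comp (hf.prodMk hg)

/-- A family of maps on a smash product. -/
theorem continuous_descend_sm {S Z : Type*} [TopologicalSpace S] [TopologicalSpace Z]
    {F : S × (OnePoint P × OnePoint Q) → Z} (hF : Continuous F) {z₀ : Z}
    (h1 : ∀ s q, F (s, (∞, q)) = z₀) (h2 : ∀ s p, F (s, (p, ∞)) = z₀) :
    Continuous (fun p : S × OnePoint (P × Q) =>
      p.2.elim z₀ (fun y => F (p.1, ((y.1 : OnePoint P), (y.2 : OnePoint Q))))) := by
  apply continuous_descend (isOpenEmbedding_coe_prod (P := P) (Q := Q)) hF
  rintro s ⟨p, q⟩ hpq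
  induction p using OnePoint.rec with
  | infty => exact h1 s q
  | coe p =>
    induction q using OnePoint.rec with
    | infty => exact h2 s p
    | coe q => exact absurd ⟨(p, q), rfl⟩ hpq

theorem continuous_smash_family [T2Space P'] [LocallyCompactSpace P'] [T2Space Q']
    [LocallyCompactSpace Q'] {S : Type*} [TopologicalSpace S] {F : S × OnePoint P → OnePoint P'}
    {G : S × OnePoint Q → OnePoint Q'} (hF : Continuous F) (hG : Continuous G)
    (hF0 : ∀ s, F (s, ∞) = ∞) (hG0 : ∀ s, G (s, ∞) = ∞) :
    Continuous fun z : S × OnePoint (P × Q) =>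
      smash (fun p => F (z.1, p)) (fun q => G (z.1, q)) z.2 := by
  apply continuous_descend_sm (F := fun w : S × (OnePoint P × OnePoint Q) =>
    sm (F (w.1, w.2.1)) (G (w.1, w.2.2)))
  · exact continuous_sm
      (hF.comp (continuous_fst.prodMk (continuous_fst.comp continuous_snd)))
      (hG.comp (continuous_fst.prodMk (continuous_snd.comp continuous_snd)))
  · intro s q
    simp [hF0]
  · intro s p
    simp [hG0]

theorem continuous_smash [T2Space P'] [LocallyCompactSpace P'] [T2Space Q']
    [LocallyCompactSpace Q'] {f : OnePoint P → OnePoint P'} {g : OnePoint Q → OnePoint Q'}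
    (hf : Continuous f) (hg : Continuous g) (hf0 : f ∞ = ∞) (hg0 : g ∞ = ∞) :
    Continuous (smash f g) := by
  have := continuous_smash_family (S := Unit) (F := fun z => f z.2) (G := fun z => g z.2)
    (hf.comp continuous_snd) (hg.comp continuous_snd) (fun _ => hf0) (fun _ => hg0)
  exact this.comp (Continuous.prodMk continuous_const continuous_id : Continuous fun x => ((), x))

theorem continuous_one_smash [T2Space P] [LocallyCompactSpace P] [T2Space Q']
    [LocallyCompactSpace Q'] {f : OnePoint Q → OnePoint Q'} (hf : Continuous f) (hf0 : f ∞ = ∞) :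
    Continuous fun z : OnePoint (P × Q) =>
      (z.elim ∞ fun z => (f z.2).elim ∞ fun q => OnePoint.some (z.1, q) : OnePoint (P × Q')) := by
  have h := continuous_smash (P := P) (P' := P) continuous_id hf rfl hf0
  exact h

end Smash

end Pool.Agent.N508.GH
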