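import Pool.Agent.N508.GH.Top1
import Pool.Agent.N508.GH.Chain3

/-!
# The cube model of the sphere
-/

set_option autoImplicit false
set_option linter.unusedSectionVars false

namespace Pool.Agent.N508.GH

open Set Topology OnePoint Filter
open Pool.Agent.N508.Ch (upd upd_same upd_ne dg gam)

/-- the embedding of the line as the open interval `(-1/2, 1/2)` -/
noncomputable def sc (v : ℝ) : ℝ := Real.arctan v / Real.pi

theorem abs_sc_lt (v : ℝ) : |sc v| < 1 / 2 := by
  unfold sc
  have h1 := Real.arctan_lt_pi_div_two v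
  have h2 := Real.neg_pi_div_two_lt_arctan v
  have hp := Real.pi_pos
  rw [abs_lt]
  constructor
  · rw [lt_div_iff₀ hp]
    linarith
  · rw [div_lt_iff₀ hp]
    linarith

theorem tan_sc (v : ℝ) : Real.tan (Real.pi * sc v) = v := by
  unfold sc
  rw [mul_div_cancel₀ _ Real.pi_ne_zero, Real.tan_arctan]

theorem sc_tan {x : ℝ} (hx : |x| < 1 / 2) : sc (Real.tan (Real.pi * x)) = x := by
  unfold sc
  rw [abs_lt] at hx
  have hp := Real.pi_pos
  rw [Real.arctan_tan (by nlinarith) (by nlinarith), mul_div_cancel_left₀ _ Real.pi_ne_zero]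

theorem sc_neg (v : ℝ) : sc (-v) = - sc v := by
  unfold sc
  rw [Real.arctan_neg, neg_div]

theorem sc_zero : sc 0 = 0 := by
  unfold sc
  simp

theorem isOpenEmbedding_sc : IsOpenEmbedding sc := by
  have h1 : IsOpenEmbedding Real.arctan :=
    Real.tanPartialHomeomorph.symm.isOpenEmbedding rfl
  have h2 : IsOpenEmbedding fun x : ℝ => x * Real.pi⁻¹ :=
    (Homeomorph.mulRight₀ Real.pi⁻¹ (inv_ne_zero Real.pi_ne_zero)).isOpenEmbedding
  exact h2.comp h1

theorem continuous_sc : Continuous sc := isOpenEmbedding_sc.continuous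

variable {n : Type}

/-- the embedding of euclidean space as the open cube -/
noncomputable def scn (n : Type) (v : n → ℝ) : n → ℝ := fun c => sc (v c)

theorem range_scn : range (scn n) = {x | ∀ c, |x c| < 1 / 2} := by
  ext x
  constructor
  · rintro ⟨v, rfl⟩ c
    exact abs_sc_lt _
  · intro hx
    exact ⟨fun c => Real.tan (Real.pi * x c), funext fun c => sc_tan (hx c)⟩

theorem isOpenEmbedding_scn [Finite n] : IsOpenEmbedding (scn n) := by
  have h1 : IsEmbedding (scn n) := IsEmbedding.piMap fun _ => isOpenEmbedding_sc.isEmbedding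
  refine ⟨h1, ?_⟩
  rw [range_scn]
  have : {x : n → ℝ | ∀ c, |x c| < 1 / 2} = ⋂ c, {x | |x c| < 1 / 2} := by
    ext x
    simp
  rw [this]
  exact isOpen_iInter_of_finite fun c =>
    isOpen_lt ((continuous_apply c).abs) continuous_const

theorem scn_injective : Function.Injective (scn n) := by
  intro v w h
  funext c
  have := congrFun h c
  unfold scn at this
  rw [← tan_sc (v c), this, tan_sc]

/-- the parametrization of the sphere by the cube -/
noncomputable def tanp (n : Type) (x : n → ℝ) : OnePoint (n → ℝ) := collapse (scn n) x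

theorem continuous_tanp [Finite n] : Continuous (tanp n) := continuous_collapse isOpenEmbedding_scn

theorem tanp_scn (v : n → ℝ) : tanp n (scn n v) = v := collapse_apply scn_injective v

theorem tanp_of_lt {x : n → ℝ} (hx : ∀ c, |x c| < 1 / 2) :
    tanp n x = ((fun c => Real.tan (Real.pi * x c) : n → ℝ) : OnePoint (n → ℝ)) := by
  have : x = scn n (fun c => Real.tan (Real.pi * x c)) := funext fun c => (sc_tan (hx c)).symm
  conv_lhs => rw [this]
  rw [tanp_scn]

theorem tanp_of_le {x : n → ℝ} {c : n} (hx : 1 / 2 ≤ |x c|) : tanp n x = ∞ := by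
  apply collapse_of_notMem
  rw [range_scn]
  intro h
  exact absurd (h c) (not_lt.mpr hx)

theorem tanp_gam (sg : Set n) [DecidablePred (· ∈ sg)] (x : n → ℝ) :
    tanp n (gam sg x) = OnePoint.map (gam sg) (tanp n x) := by
  have habs : ∀ c, |gam sg x c| = |x c| := by
    intro c
    unfold gam
    split_ifs <;> simp
  by_cases hx : ∀ c, |x c| < 1 / 2
  · rw [tanp_of_lt hx, tanp_of_lt (fun c => by rw [habs]; exact hx c), OnePoint.map_some]
    congr 1
    funext c
    unfold gam
    split_ifs
    · rw [mul_neg, Real.tan_neg]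
    · rfl
  · push Not at hx
    obtain ⟨c, hc⟩ := hx
    rw [tanp_of_le hc, tanp_of_le (c := c) (by rw [habs]; exact hc), OnePoint.map_infty]

/-- the degree two map in one coordinate -/
noncomputable def Hc [DecidableEq n] (c : n) (z : OnePoint (n → ℝ)) : OnePoint (n → ℝ) :=
  z.elim ∞ fun v => if v c = 0 then ∞ else ((upd c ((v c - 1 / v c) / 2) v : n → ℝ) : OnePoint _)

theorem abs_dg_lt {x : ℝ} (hx : |x| < 1 / 2) (h0 : x ≠ 0) : |dg x| < 1 / 2 := by
  unfold dg
  rw [abs_lt] at hx ⊢
  split_ifs with h
  · have : 0 < x := lt_of_le_of_ne h h0.symm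
    constructor <;> linarith
  · push Not at h
    constructor <;> linarith

theorem le_abs_dg {x : ℝ} (hx : 1 / 2 ≤ |x|) : 1 / 2 ≤ |dg x| := by
  unfold dg
  rw [le_abs] at hx ⊢
  split_ifs with h
  · left
    rcases hx with hx | hx <;> linarith
  · right
    push Not at h
    rcases hx with hx | hx <;> linarith

theorem tan_dg {x : ℝ} (hx : |x| < 1 / 2) (h0 : x ≠ 0) :
    Real.tan (Real.pi * dg x) =
      (Real.tan (Real.pi * x) - 1 / Real.tan (Real.pi * x)) / 2 := by
  have hp := Real.pi_pos
  rw [abs_lt] at hx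
  set θ := Real.pi * x with hθ
  have hc : Real.cos θ ≠ 0 := by
    apply (Real.cos_pos_of_mem_Ioo ⟨by rw [hθ]; nlinarith, by rw [hθ]; nlinarith⟩).ne'
  have hs : Real.sin θ ≠ 0 := by
    intro h
    have h2 := Real.sin_eq_zero_iff_of_lt_of_lt (x := θ) (by rw [hθ]; nlinarith)
      (by rw [hθ]; nlinarith)
    rw [h2] at h
    rcases mul_eq_zero.mp (hθ ▸ h) with h3 | h3
    · exact hp.ne' h3
    · exact h0 h3
  have e1 : Real.tan (Real.pi * dg x) = Real.tan (2 * θ - Real.pi / 2) := by
    unfold dg
    split_ifs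
    · congr 1
      rw [hθ]
      ring
    · rw [show Real.pi * (2 * x + 1 / 2) = (2 * θ - Real.pi / 2) + Real.pi by rw [hθ]; ring,
        Real.tan_add_pi]
  rw [e1, Real.tan_eq_sin_div_cos, Real.tan_eq_sin_div_cos, Real.sin_sub_pi_div_two,
    Real.cos_sub_pi_div_two, Real.sin_two_mul, Real.cos_two_mul]
  have hcs := Real.sin_sq_add_cos_sq θ
  field_simp
  nlinarith

theorem tanp_G [DecidableEq n] (c : n) (x : n → ℝ) :
    tanp n (Pool.Agent.N508.Ch.G c x) = Hc c (tanp n x) := by
  have hG : Pool.Agent.N508.Ch.G c x = upd c (dg (x c)) x := rfl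
  by_cases hx : ∀ c, |x c| < 1 / 2
  · rw [tanp_of_lt hx]
    unfold Hc
    rw [elim_some]
    have htan : Real.tan (Real.pi * x c) = 0 ↔ x c = 0 := by
      constructor
      · intro h
        have := sc_tan (hx c)
        rw [h, sc_zero] at this
        exact this.symm
      · intro h
        rw [h, mul_zero, Real.tan_zero]
    by_cases h0 : x c = 0
    · rw [if_pos (htan.mpr h0)]
      apply tanp_of_le (c := c)
      rw [hG, upd_same, h0]
      unfold dg
      rw [if_pos le_rfl]
      rw [mul_zero, zero_sub, abs_neg]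
      exact le_abs_self _
    · rw [if_neg (fun h => h0 (htan.mp h)), tanp_of_lt]
      · congr 1
        funext c'
        rw [hG]
        by_cases hc : c' = c
        · subst hc
          rw [upd_same, upd_same, tan_dg (hx c') h0]
        · rw [upd_ne hc, upd_ne hc]
      · intro c'
        rw [hG]
        by_cases hc : c' = c
        · subst hc
          rw [upd_same]
          exact abs_dg_lt (hx c') h0
        · rw [upd_ne hc]
          exact hx c'
  · push Not at hx
    obtain ⟨c', hc'⟩ := hx
    rw [tanp_of_le hc']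
    unfold Hc
    rw [elim_infty]
    apply tanp_of_le (c := c')
    rw [hG]
    by_cases hc : c' = c
    · subst hc
      rw [upd_same]
      exact le_abs_dg hc'
    · rw [upd_ne hc]
      exact hc'

end Pool.Agent.N508.GH
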